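import Pool.Agent.N625.PT.M
import Pool.Agent.R501.CP5

set_option autoImplicit false

/-! Classes of distributions of random integers given by digits: polynomials times a linear factor whose constant term is a
multiple of an integer near a random integer. -/

namespace Pool.Agent.N625.PT
open Finset
open Pool.Agent.Y885 (TLaw Fine laR fine_lam)
open Pool.Agent.H373R2.T7 (exI)
open Pool.Agent.R459.Shift (Good Weights lam)
open Pool.Agent.R501.CP (Good2 good2_of One one_of)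

variable {b : ℕ} {κ : ℤ} {C : ℕ → (ℕ → ℝ) → Prop}

open Classical in
/-- correlations for all the multiples of the integers near a random integer, with signs and offsets -/
theorem t_off (hC : TCls b κ C) (θ : ℕ → ℝ) (hθ : Fine θ) (B A J W U : ℕ) : ∃ k₀ : ℕ, ∀ k : ℕ, k₀ ≤ k → ∀ p, C k p →
    ∀ c : ℤ, |c| ≤ B * (b : ℤ) ^ k → ∀ (ι : Type) [Fintype ι], Fintype.card ι ≤ k ^ A →
    ∀ (α : ι → ℕ) (g : ι → ℕ → ℂ) (ε o : ι → ℤ), (∀ l, 1 ≤ α l) → (∀ l n, ‖g l n‖ ≤ (k : ℝ) ^ A) → (∀ l, ε l = 1 ∨ ε l = -1) →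
    (∀ l, |o l| ≤ (k : ℤ) ^ A * (b : ℤ) ^ k) →
    ∑ v ∈ range (b ^ k), (if ∀ q : ℤ, |q - (c + κ * v)| ≤ (k : ℤ) ^ W → ∀ h : ℕ, 1 ≤ h → h ≤ k ^ J → ∀ l, ∀ X : ℕ,
        α l * X ≤ k ^ A * b ^ k →
        ‖∑ n ∈ Icc 1 X, g l n * exI (fun n => ((θ n : ℝ) : ℂ)) (((α l * n : ℕ) : ℤ) + (ε l * (h * q) + o l))‖ ≤
          (b : ℝ) ^ k / (k : ℝ) ^ U
      then 0 else p v) ≤ 1 / (k : ℝ) ^ U := by
  have hb := hC.two
  obtain ⟨U1, hU1⟩ : ∃ U1, U1 = U + A + J + W + 5 := ⟨_, rfl⟩
  obtain ⟨F, hF, hlaw⟩ := hC.law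
  obtain ⟨V, hV⟩ : ∃ V, V = 4 * U1 + 4 * A + 7 := ⟨_, rfl⟩
  obtain ⟨cc, m₀, hlaw⟩ := hlaw (3 * (A + J + 2) + 2) V
  obtain ⟨K₀, hmain⟩ := Pool.Agent.Y885.tl_probZ b 15 cc hb (by norm_num) θ hθ A U1
  obtain ⟨k4, h4⟩ := pow_le_pow_digits b hb W
  refine ⟨m₀ + K₀ + k4 + F + B + κ.natAbs + 3 * b + 4, fun k hk p hp c hc ι _ hι α g ε o hα hg hε ho => ?_⟩
  have hk3 : (3 : ℝ) ≤ k := by exact_mod_cast (by omega : 3 ≤ k)
  have hk0 : (0 : ℝ) < k := by linarith
  have hk1 : (1 : ℝ) ≤ k := by linarith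
  obtain ⟨N, hN⟩ : ∃ N, N = k ^ (A + J + 2) * b ^ k := ⟨_, rfl⟩
  obtain ⟨e, he1, he2, he3, he4⟩ := level b hb (A + J + 1) (A + J + 2) k N (by omega) hN.ge hN.le
  have heW : (e : ℝ) ≤ ((3 * (A + J + 2) + 2 : ℕ) : ℝ) * Real.log k := by
    refine le_trans ?_ (ex_le b (A + J + 2) 2 hb k (by omega))
    exact_mod_cast he3
  have hNA : k ^ A * b ^ k ≤ N := by
    rw [hN]
    exact Nat.mul_le_mul_right _ (Nat.pow_le_pow_right (by omega) (by omega))
  have hNs : k ^ (J + 1) * b ^ k + k ^ A * b ^ k ≤ N := by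
    rw [hN]
    have g1 : k ^ (J + 1) ≤ k ^ (A + J + 1) := Nat.pow_le_pow_right (by omega) (by omega)
    have g2 : k ^ A ≤ k ^ (A + J + 1) := Nat.pow_le_pow_right (by omega) (by omega)
    have g3 : k ^ (A + J + 2) = k * k ^ (A + J + 1) := by ring
    calc k ^ (J + 1) * b ^ k + k ^ A * b ^ k ≤ k ^ (A + J + 1) * b ^ k + k ^ (A + J + 1) * b ^ k :=
          Nat.add_le_add (Nat.mul_le_mul_right _ g1) (Nat.mul_le_mul_right _ g2)
      _ = 2 * k ^ (A + J + 1) * b ^ k := by ring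
      _ ≤ k * k ^ (A + J + 1) * b ^ k := Nat.mul_le_mul_right _ (Nat.mul_le_mul_right _ (by omega))
      _ = k ^ (A + J + 2) * b ^ k := by rw [g3]
  obtain ⟨K, hK⟩ : ∃ K, K = k + e := ⟨_, rfl⟩
  rw [← hK] at he1 he2
  have hKk : (k : ℝ) ≤ K := by exact_mod_cast (by omega : k ≤ K)
  have hK0 : (0 : ℝ) < K := by linarith
  have hthr : ((b ^ K : ℕ) : ℝ) / (K : ℝ) ^ U1 ≤ (b : ℝ) ^ k / (k : ℝ) ^ U := by
    have h1 : ((b ^ K : ℕ) : ℝ) ≤ (k : ℝ) * ((k : ℝ) ^ (A + J + 2) * (b : ℝ) ^ k) := by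
      have h2 : b ^ K ≤ k * (k ^ (A + J + 2) * b ^ k) := by
        rw [← hN]
        exact he2.trans (Nat.mul_le_mul_right _ (by omega))
      exact_mod_cast h2
    calc ((b ^ K : ℕ) : ℝ) / (K : ℝ) ^ U1 ≤ ((k : ℝ) * ((k : ℝ) ^ (A + J + 2) * (b : ℝ) ^ k)) / (k : ℝ) ^ U1 :=
          div_le_div₀ (by positivity) h1 (by positivity) (pow_le_pow_left₀ hk0.le hKk _)
      _ ≤ ((k : ℝ) * ((k : ℝ) ^ (A + J + 2) * (b : ℝ) ^ k)) / ((k : ℝ) * (k : ℝ) ^ (A + J + 2) * (k : ℝ) ^ U) := by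
          apply div_le_div_of_nonneg_left (by positivity) (by positivity)
          rw [← pow_succ', ← pow_add]
          exact pow_le_pow_right₀ hk1 (by omega)
      _ = (b : ℝ) ^ k / (k : ℝ) ^ U := by
          field_simp
  obtain ⟨IJ, hIJ⟩ : ∃ IJ : Finset ℕ, IJ = Icc 1 (k ^ J) := ⟨_, rfl⟩
  obtain ⟨IW, hIW⟩ : ∃ IW : Finset ℤ, IW = Icc (-(k : ℤ) ^ W) ((k : ℤ) ^ W) := ⟨_, rfl⟩
  have hcJ : (IJ.card : ℝ) = (k : ℝ) ^ J := by rw [hIJ, Nat.card_Icc, Nat.add_sub_cancel]; push_cast; rfl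
  have hcW : (IW.card : ℝ) ≤ (k : ℝ) ^ (W + 1) := by rw [hIW]; exact card_shifts k W (by omega)
  have key := union_gen (range (b ^ k)) p (fun v _ => hC.nonneg k p hp v) ((univ : Finset ι) ×ˢ (IJ ×ˢ IW))
    (fun (τ : ι × ℕ × ℤ) (v : ℕ) => ∃ X : ℕ, α τ.1 * X ≤ N ∧ ((b ^ K : ℕ) : ℝ) / (K : ℝ) ^ U1 <
      ‖∑ n ∈ Icc 1 X, g τ.1 n * exI (fun n => ((θ n : ℝ) : ℂ)) (((α τ.1 * n : ℕ) : ℤ) + (ε τ.1 * (τ.2.1 * (c + τ.2.2 + κ * v)) + o τ.1))‖)
    (fun v => ∀ q : ℤ, |q - (c + κ * v)| ≤ (k : ℤ) ^ W → ∀ h : ℕ, 1 ≤ h → h ≤ k ^ J → ∀ l, ∀ X : ℕ,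
        α l * X ≤ k ^ A * b ^ k →
        ‖∑ n ∈ Icc 1 X, g l n * exI (fun n => ((θ n : ℝ) : ℂ)) (((α l * n : ℕ) : ℤ) + (ε l * (h * q) + o l))‖ ≤
          (b : ℝ) ^ k / (k : ℝ) ^ U) (by
      intro v _ hv
      push Not at hv
      obtain ⟨q, hq, h, hh1, hh2, l, X, hX, hbad⟩ := hv
      refine ⟨(l, h, q - (c + κ * v)), ?_, X, hX.trans hNA, ?_⟩
      · rw [mem_product, mem_product, hIJ, hIW, mem_Icc, mem_Icc]
        exact ⟨mem_univ _, ⟨hh1, hh2⟩, abs_le.1 hq⟩
      · have e1 : c + (q - (c + κ * v)) + κ * (v : ℤ) = q := by ring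
        simp only [e1]
        exact lt_of_le_of_lt hthr hbad) (1 / (K : ℝ) ^ U1) (by
      rintro ⟨l, h, σ⟩ hmem
      rw [mem_product, mem_product, hIJ, hIW, mem_Icc, mem_Icc] at hmem
      simp only at hmem
      obtain ⟨-, ⟨hh1, hh2⟩, hσ⟩ := hmem
      have hσ' : |σ| ≤ (k : ℤ) ^ W := abs_le.2 hσ
      have hlog : Nat.log b (F * h) ≤ e := by
        have g1 : F * h ≤ b ^ e := by
          refine le_trans ?_ he4
          calc F * h ≤ k * k ^ J := Nat.mul_le_mul (by omega) hh2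
            _ = k ^ (J + 1) := by ring
            _ ≤ k ^ (A + J + 1 + 1) := Nat.pow_le_pow_right (by omega) (by omega)
        calc Nat.log b (F * h) ≤ Nat.log b (b ^ e) := Nat.log_mono_right g1
          _ = e := Nat.log_pow (by omega) _
      have t := hlaw k (by omega) e heW h hh1 hlog p hp (c + σ)
      rw [← hK, hV] at t
      have t2 : TLaw b 15 cc (4 * U1 + 4 * A + 7) K (range (b ^ k)) p (fun v : ℕ => ε l * (h * (c + σ + κ * v)) + o l) := by
        rcases hε l with h1 | h1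
        · simp only [h1, one_mul]
          exact t.add (o l)
        · simp only [h1, neg_one_mul]
          exact t.neg.add (o l)
      have hN3 : (3 * (N : ℤ)) ≤ (b : ℤ) ^ K := by exact_mod_cast he1
      have hN0 : (0 : ℤ) < N := by
        have : 0 < k ^ (A + J + 2) * b ^ k := Nat.mul_pos (Nat.pow_pos (by omega)) (Nat.pow_pos (by omega))
        exact_mod_cast (by omega : 0 < N)
      refine le_trans (le_of_eq ?_) (hmain K (by omega) ℕ (range (b ^ k)) p (fun v : ℕ => ε l * (h * (c + σ + κ * v)) + o l) t2 N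
        (by omega) (by
          intro v hv
          rw [mem_range] at hv
          have h5 := multiple_size b J B W κ k (k ^ (J + 1) * b ^ k) (by omega) (h4 k (by omega)) le_rfl c σ hc hσ' h hh2 v hv
          have h6 : |ε l * ((h : ℤ) * (c + σ + κ * v)) + o l| ≤ N := by
            refine (abs_add_le _ _).trans ?_
            have h7 : |ε l * ((h : ℤ) * (c + σ + κ * v))| ≤ ((k ^ (J + 1) * b ^ k : ℕ) : ℤ) := by
              rcases hε l with h1 | h1
              · rw [h1, one_mul]; exact h5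
              · rw [h1, neg_one_mul, abs_neg]; exact h5
            have h8 := ho l
            have h9 : (((k ^ (J + 1) * b ^ k : ℕ) : ℤ)) + (k : ℤ) ^ A * (b : ℤ) ^ k ≤ N := by exact_mod_cast hNs
            linarith
          rw [abs_le] at h6
          constructor
          · linarith [h6.1]
          · linarith [h6.2]) 1 (by push_cast; exact one_le_pow₀ (hk1.trans hKk)) (fun _ => α l) (fun _ => g l) (fun _ => hα l)
        (fun _ n _ _ => (hg l n).trans (pow_le_pow_left₀ hk0.le hKk _))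
        (fun v => ∃ X : ℕ, α l * X ≤ N ∧ ((b ^ K : ℕ) : ℝ) / (K : ℝ) ^ U1 <
          ‖∑ n ∈ Icc 1 X, g l n * exI (fun n => ((θ n : ℝ) : ℂ)) (((α l * n : ℕ) : ℤ) + (ε l * (h * (c + σ + κ * v)) + o l))‖)
        (fun _ => Classical.propDecidable _) (by
          intro v _ hv
          obtain ⟨X, hX1, hX2⟩ := hv
          exact ⟨0, X, hX1, hX2⟩))
      rfl)
  refine key.trans ?_
  have hcard : (((univ : Finset ι) ×ˢ (IJ ×ˢ IW)).card : ℝ) ≤ (k : ℝ) ^ (A + J + W + 1) := by
    rw [card_product, card_product, card_univ]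
    push_cast
    rw [hcJ]
    have e1 : (Fintype.card ι : ℝ) ≤ (k : ℝ) ^ A := by exact_mod_cast hι
    calc (Fintype.card ι : ℝ) * ((k : ℝ) ^ J * IW.card) ≤ (k : ℝ) ^ A * ((k : ℝ) ^ J * (k : ℝ) ^ (W + 1)) := by gcongr
      _ = (k : ℝ) ^ (A + J + W + 1) := by rw [← pow_add, ← pow_add]; congr 1; ring
  calc (((univ : Finset ι) ×ˢ (IJ ×ˢ IW)).card : ℝ) * (1 / (K : ℝ) ^ U1) ≤ (k : ℝ) ^ (A + J + W + 1) * (1 / (k : ℝ) ^ U1) := by
        apply mul_le_mul hcard _ (by positivity) (by positivity)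
        apply one_div_le_one_div_of_le (by positivity)
        exact pow_le_pow_left₀ hk0.le hKk _
    _ ≤ (k : ℝ) ^ (A + J + W + 1) * (1 / (k : ℝ) ^ (A + J + W + 1 + U)) := by
        apply mul_le_mul_of_nonneg_left _ (by positivity)
        apply one_div_le_one_div_of_le (by positivity)
        exact pow_le_pow_right₀ hk1 (by omega)
    _ = 1 / (k : ℝ) ^ U := by
        rw [pow_add (k : ℝ) (A + J + W + 1) U, one_div, mul_inv, ← mul_assoc, mul_inv_cancel₀ (by positivity), one_mul, one_div]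

lemma ite_mono0 (P Q : Prop) [Decidable P] [Decidable Q] (x : ℝ) (hx : 0 ≤ x) (h : Q → P) :
    (if P then 0 else x) ≤ (if Q then 0 else x) := by
  by_cases hQ : Q
  · rw [if_pos hQ, if_pos (h hQ)]
  · rw [if_neg hQ]
    split_ifs
    · exact hx
    · exact le_rfl

lemma lam_laR (m : ℤ) : (lam m : ℂ) = exI (fun n => ((laR n : ℝ) : ℂ)) m := by
  have h : (fun n => ((laR n : ℝ) : ℂ)) = Pool.Agent.H373R2.T7.liR := by
    ext n
    unfold laR Pool.Agent.H373R2.T7.liR
    push_cast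
    rfl
  rw [h]
  exact Pool.Agent.R459.Shift.lam_exI m

open Classical in
/-- the Liouville function at the values of polynomials times a linear factor -/
theorem t_poly (hC : TCls b κ C) (B B' T J W U : ℕ) : ∃ k₀ : ℕ, ∀ k : ℕ, k₀ ≤ k → ∀ p, C k p →
    ∀ c : ℤ, |c| ≤ B * (b : ℤ) ^ k → ∀ L : ℕ, L ≤ k ^ T → ∀ (f : Fin L → Polynomial ℤ) (α : Fin L → ℕ), (∀ l, 1 ≤ α l) →
    ∑ v ∈ range (b ^ k), (if ∀ q : ℤ, |q - (c + κ * v)| ≤ (k : ℤ) ^ W → ∀ h : ℕ, 1 ≤ h → h ≤ k ^ J →
      ∀ l, One B' T U (b ^ k) k (f l) (α l) (h * q) then 0 else p v) ≤ 1 / (k : ℝ) ^ U := by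
  have hb := hC.two
  obtain ⟨A, hA⟩ : ∃ A, A = 4 * T + 3 := ⟨_, rfl⟩
  obtain ⟨k₀, hmain⟩ := t_off hC laR fine_lam B A J W (U + 2)
  obtain ⟨k5, h5⟩ := pow_le_pow_digits b hb (U + 1)
  refine ⟨k₀ + k5 + 3 * B' + 5, fun k hk p hp c hc L hL f α hα => ?_⟩
  have hk3 : (3 : ℝ) ≤ k := by exact_mod_cast (by omega : 3 ≤ k)
  have hk0 : (0 : ℝ) < k := by linarith
  have hk1 : (1 : ℝ) ≤ k := by linarith
  obtain ⟨N, hN⟩ : ∃ N, N = b ^ k := ⟨_, rfl⟩
  have hNk : k ^ (U + 1) ≤ N := by rw [hN]; exact h5 k (by omega)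
  choose M g g' hg hg' hgood using fun l => one_of B' T U N k (by omega) hNk (f l) (α l) (hα l)
  -- the index set
  have hM : ∀ l, M l ≤ k ^ (3 * T + 1) := fun l => by exact_mod_cast (hg l).1
  have hcardι : Fintype.card ((Σ l : Fin L, Fin (M l)) × Bool × Bool) ≤ k ^ A := by
    rw [Fintype.card_prod, Fintype.card_prod, Fintype.card_sigma]
    simp only [Fintype.card_fin, Fintype.card_bool]
    calc (∑ l : Fin L, M l) * (2 * 2) ≤ (∑ _l : Fin L, k ^ (3 * T + 1)) * (2 * 2) :=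
          Nat.mul_le_mul_right _ (sum_le_sum fun l _ => hM l)
      _ = L * k ^ (3 * T + 1) * (2 * 2) := by rw [sum_const, card_univ, Fintype.card_fin, smul_eq_mul]
      _ ≤ k ^ T * k ^ (3 * T + 1) * (k * k) := by
          apply Nat.mul_le_mul (Nat.mul_le_mul_right _ hL)
          exact Nat.mul_le_mul (by omega) (by omega)
      _ = k ^ A := by rw [hA]; ring
  obtain ⟨off, hoff⟩ : ∃ off : Fin L → ℤ, off = fun l => if α l ≤ B' * N then ((α l * (B' * N / α l + 1) : ℕ) : ℤ) else 0 := ⟨_, rfl⟩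
  have hoffb : ∀ l, |off l| ≤ (k : ℤ) ^ A * (b : ℤ) ^ k := by
    intro l
    rw [hoff]
    simp only
    split_ifs with h
    · rw [Nat.abs_cast]
      have h1 : α l * (B' * N / α l + 1) ≤ k ^ A * b ^ k := by
        rw [mul_add, mul_one, ← hN]
        calc α l * (B' * N / α l) + α l ≤ B' * N + B' * N := Nat.add_le_add (Nat.mul_div_le _ _) h
          _ = (2 * B') * N := by ring
          _ ≤ k * N := Nat.mul_le_mul_right _ (by omega)
          _ ≤ k ^ A * N := by
              apply Nat.mul_le_mul_right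
              calc k = k ^ 1 := (pow_one k).symm
                _ ≤ k ^ A := Nat.pow_le_pow_right (by omega) (by omega)
      exact_mod_cast h1
    · rw [abs_zero]; positivity
  refine le_trans (sum_le_sum ?_) ((hmain k (by omega) p hp c hc ((Σ l : Fin L, Fin (M l)) × Bool × Bool) hcardι
    (fun x => α x.1.1)
    (fun x n => if x.2.2 then (if x.2.1 then g x.1.1 x.1.2 n else g' x.1.1 x.1.2 n) else
      (if x.2.1 then g x.1.1 x.1.2 (B' * N / α x.1.1 + 1 - n) else g' x.1.1 x.1.2 (B' * N / α x.1.1 + 1 - n)))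
    (fun x => if x.2.1 = x.2.2 then 1 else -1) (fun x => if x.2.2 then 0 else - off x.1.1) (fun x => hα _) (by
      intro x n
      have h1 : (k : ℝ) ^ (3 * T + 1) ≤ (k : ℝ) ^ A := pow_le_pow_right₀ hk1 (by omega)
      split_ifs
      · exact ((hg _).2.2 _ _).trans h1
      · exact ((hg' _).2.2 _ _).trans h1
      · exact ((hg _).2.2 _ _).trans h1
      · exact ((hg' _).2.2 _ _).trans h1) (by
      intro x
      split_ifs
      · exact Or.inl rfl
      · exact Or.inr rfl) (by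
      intro x
      split_ifs
      · rw [abs_zero]; positivity
      · rw [abs_neg]; exact hoffb _)).trans ?_)
  · intro v _
    have hpv := hC.nonneg k p hp v
    refine ite_mono0 _ _ (p v) hpv ?_
    · intro h2 q hq h hh1 hh2 l
      have h3 := h2 q hq h hh1 hh2
      have hbN : ((b : ℝ) ^ k) = (N : ℝ) := by rw [hN]; push_cast; rfl
      have hX3 : ∀ X : ℕ, α l * X ≤ 3 * B' * N → α l * X ≤ k ^ A * b ^ k := by
        intro X hX
        rw [← hN]
        refine hX.trans (Nat.mul_le_mul_right _ ?_)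
        calc 3 * B' ≤ k ^ 1 := by rw [pow_one]; omega
          _ ≤ k ^ A := Nat.pow_le_pow_right (by omega) (by omega)
      rw [← hN]
      refine hgood l (h * q) ⟨?_, ?_⟩
      · apply good2_of B' (U + 1) N k (by omega) (fun _ => α l) (fun _ => hα l)
        · intro t X hX
          have h4 := h3 (⟨l, t⟩, true, true) X (hX3 X hX)
          simp only [if_true, one_mul, add_zero, hbN] at h4
          refine le_trans (le_of_eq ?_) h4
          congr 1
          apply sum_congr rfl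
          intro n _
          rw [lam_laR]
          push_cast
          rfl
        · intro t hal t' X hX
          have h4 := h3 (⟨l, t⟩, true, false) X (hX3 X hX)
          simp only [if_true, Bool.true_eq_false, Bool.false_eq_true, if_false, hbN] at h4
          refine le_trans (le_of_eq ?_) h4
          congr 1
          apply sum_congr rfl
          intro n _
          rw [lam_laR, hoff]
          simp only
          rw [if_pos hal]
          congr 2
          push_cast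
          ring
      · apply good2_of B' (U + 1) N k (by omega) (fun _ => α l) (fun _ => hα l)
        · intro t X hX
          have h4 := h3 (⟨l, t⟩, false, true) X (hX3 X hX)
          simp only [if_true, Bool.false_eq_true, if_false, add_zero, hbN] at h4
          refine le_trans (le_of_eq ?_) h4
          congr 1
          apply sum_congr rfl
          intro n _
          rw [lam_laR]
          congr 2
          push_cast
          ring
        · intro t hal t' X hX
          have h4 := h3 (⟨l, t⟩, false, false) X (hX3 X hX)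
          simp only [if_true, Bool.false_eq_true, if_false, one_mul, hbN] at h4
          refine le_trans (le_of_eq ?_) h4
          congr 1
          apply sum_congr rfl
          intro n _
          rw [lam_laR, hoff]
          simp only
          rw [if_pos hal]
          congr 2
          push_cast
          ring
  · apply one_div_le_one_div_of_le (by positivity)
    exact pow_le_pow_right₀ hk1 (by omega)

end Pool.Agent.N625.PT
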