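import Pool.Agent.N625.PT.C
import Pool.Agent.R557.AD.Few

set_option autoImplicit false

/-! Random integers whose blocks of digits can be exchanged: few large Fourier coefficients, with a power saving. -/

namespace Pool.Agent.N625.PT
open Finset
open Pool.Agent.TH872
open Pool.Agent.H807R2.Dav
open Pool.Agent.W93.AU
open Pool.Agent.W93.DG
open Pool.Agent.Results.MP_122e00_nt.SparseRandomShifts (FewLarge φ)

/-- exponential decay of the exponential sums in the number of the good places -/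
theorem char_pow (b L : ℕ) (hb : 2 ≤ b) (hL : 1 ≤ L) (η : ℝ) (hη0 : 0 < η) (hη1 : η ≤ 1) :
    ∃ μ : ℝ, 0 < μ ∧ μ < 1 ∧ ∀ (T k : ℕ) (p : ℕ → ℝ), Flex b L η T k p → ∀ (θ : ℝ) (r : ℕ),
      r + L ≤ Mir.farCount b (b.factorial * (b ^ L).factorial) k θ →
      ‖∑ v ∈ range (b ^ k), (p v : ℂ) * ee (v * θ)‖ ≤ (k : ℝ) ^ T * μ ^ r := by
  classical
  have hB2 : (2 : ℝ) ≤ b := by exact_mod_cast hb
  have hF1 : (1 : ℝ) ≤ (b.factorial : ℝ) := by exact_mod_cast b.factorial_pos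
  obtain ⟨c, hc⟩ : ∃ c, c = 4 * (1 / ((b : ℝ) ^ 2 * (b.factorial : ℝ))) ^ 2 := ⟨_, rfl⟩
  have hc0 : 0 < c := by rw [hc]; positivity
  have hc1 : c ≤ 1 / 4 := by
    rw [hc]
    have e1 : (4 : ℝ) ≤ (b : ℝ) ^ 2 * (b.factorial : ℝ) := by nlinarith
    have e2 : 1 / ((b : ℝ) ^ 2 * (b.factorial : ℝ)) ≤ 1 / 4 := one_div_le_one_div_of_le (by norm_num) e1
    have e3 : 0 ≤ 1 / ((b : ℝ) ^ 2 * (b.factorial : ℝ)) := by positivity
    nlinarith
  obtain ⟨M, hM⟩ : ∃ M, M = (b ^ L).factorial := ⟨_, rfl⟩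
  have hM1 : (1 : ℝ) ≤ M := by rw [hM]; exact_mod_cast Nat.factorial_pos _
  obtain ⟨c', hc'⟩ : ∃ c', c' = c / (2 * (M : ℝ) ^ 2) := ⟨_, rfl⟩
  have hc'0 : 0 < c' := by rw [hc']; positivity
  have hc'c : c' ≤ c := by
    rw [hc']
    apply div_le_self hc0.le
    nlinarith
  have hLr : (1 : ℝ) ≤ L := by exact_mod_cast hL
  obtain ⟨w, hw⟩ : ∃ w, w = c' * η ^ 2 / (2 * L) := ⟨_, rfl⟩
  have hw0 : 0 < w := by rw [hw]; positivity
  have hw1 : w ≤ 1 / 4 := by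
    rw [hw, div_le_iff₀ (by positivity)]
    have : c' * η ^ 2 ≤ c' * 1 := mul_le_mul_of_nonneg_left (pow_le_one₀ hη0.le hη1) hc'0.le
    nlinarith
  obtain ⟨μ, hμ⟩ : ∃ μ, μ = 1 - w := ⟨_, rfl⟩
  have hμ0 : 0 < μ := by rw [hμ]; linarith
  have hμ1 : μ < 1 := by rw [hμ]; linarith
  have hμL : 1 - c' * η ^ 2 / 2 ≤ μ ^ L := by
    have h1 := one_add_mul_le_pow (a := -w) (by linarith) L
    have h2 : 1 + (L : ℝ) * -w = 1 - c' * η ^ 2 / 2 := by
      rw [hw]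
      field_simp
      ring
    rw [h2] at h1
    rw [hμ, sub_eq_add_neg 1 w]
    exact h1
  refine ⟨μ, hμ0, hμ1, fun T k p hp θ r hr => ?_⟩
  obtain ⟨g, hg⟩ : ∃ g : ℕ → Prop, g = fun j => Gq b L c' ((b : ℝ) ^ j * θ) := ⟨_, rfl⟩
  have hact : r ≤ actL g L k := by
    have h1 : Mir.farCount b (b.factorial * (b ^ L).factorial) k θ ≤ actL g L k + L := by
      unfold Mir.farCount actL
      have h2 : (range k).filter (fun j => Mir.Far (1 / (b : ℝ) ^ 2) (((b.factorial * (b ^ L).factorial : ℕ) : ℝ) * ((b : ℝ) ^ j * θ))) ⊆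
          (range k).filter (fun j => j + L ≤ k ∧ g j) ∪ Ico (k - L) k := by
        intro j hj
        rw [mem_filter, mem_range] at hj
        rw [mem_union, mem_filter, mem_range, mem_Ico]
        by_cases h : j + L ≤ k
        · left
          refine ⟨hj.1, h, ?_⟩
          rw [hg]
          simp only
          rw [hc', hM]
          apply gq_of b L hb c hc0.le (by linarith)
          rw [hc]
          apply Pool.Agent.R557.AD.gd_of_far b hb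
          have e1 : (b.factorial : ℝ) * ((((b ^ L).factorial : ℕ) : ℝ) * ((b : ℝ) ^ j * θ)) =
              ((b.factorial * (b ^ L).factorial : ℕ) : ℝ) * ((b : ℝ) ^ j * θ) := by
            push_cast
            ring
          rw [e1]
          exact hj.2
        · right
          omega
      refine le_trans ?_ ((card_le_card h2).trans ((card_union_le _ _).trans ?_))
      · apply le_of_eq
        congr!
      · rw [Nat.card_Ico]
        omega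
    omega
  obtain ⟨hp0, hp1, h, h1, h2, h3, h4, h5⟩ := hp
  have hZ := Z_bound hL hp0 h1 h2 h3 η hη0.le hη1 h5 θ c' μ hc'0.le (by linarith) hμ0.le hμ1.le hμL g
    (fun j hj => by rw [hg] at hj; exact hj) k 0 0 (by omega) (by simp)
  have hZ' : Z b p θ k 0 = ∑ v ∈ range (b ^ k), (p v : ℂ) * ee (v * θ) := by
    unfold Z
    simp
  rw [hZ'] at hZ
  refine hZ.trans ?_
  apply mul_le_mul h4 _ (by positivity) (by positivity)
  exact pow_le_pow_of_le_one hμ0.le hμ1.le hact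

/-- few large Fourier coefficients -/
theorem few_flex (b L : ℕ) (hb : 2 ≤ b) (hL : 1 ≤ L) (η : ℝ) (hη0 : 0 < η) (hη1 : η ≤ 1)
    (κ₁ : ℝ) (hκ₁ : 0 < κ₁) : ∃ θ : ℝ, 0 < θ ∧ θ ≤ 1 ∧ ∀ (T : ℕ) (μ : ℤ), μ ≠ 0 → ∃ k₀ : ℕ, ∀ k : ℕ, k₀ ≤ k → ∀ N : ℕ, b ^ k ≤ N →
    (N : ℝ) ≤ (b : ℝ) ^ ((1 + θ) * k) → ∀ p, Flex b L η T k p → ∀ cc : ℤ,
    FewLarge (fun v : {v // v ∈ range (b ^ k)} => p v.1) (fun v => cc + μ * (v.1 : ℕ)) N
      ((N : ℝ) ^ (-θ)) ((N : ℝ) ^ κ₁) := by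
  classical
  have hBr : (2 : ℝ) ≤ b := by exact_mod_cast hb
  have hB0 : (0 : ℝ) < b := by linarith
  obtain ⟨l, hl0, hl1, hchar⟩ := char_pow b L hb hL η hη0 hη1
  obtain ⟨v, hv⟩ := exists_pow_lt_of_lt_one (show 0 < (1 / (b : ℝ)) ^ 2 by positivity) hl1
  have hF : 1 ≤ b.factorial * (b ^ L).factorial := Nat.mul_pos b.factorial_pos (Nat.factorial_pos _)
  obtain ⟨θ, hθ0, hθ1, h1⟩ := Pool.Agent.R501.SP.few_far b (b.factorial * (b ^ L).factorial) v L hb hF 1 one_pos κ₁ hκ₁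
  refine ⟨θ, hθ0, hθ1, fun T μ hμ => ?_⟩
  obtain ⟨k₀, h2⟩ := h1 μ hμ
  obtain ⟨m₁, hm₁⟩ := Pool.Agent.R557.AD.poly_small 1 T θ hθ0
  refine ⟨k₀ + m₁ + 1, fun k hk N hN1 hN2 p hp cc S hS hsep => ?_⟩
  have hN0 : (0 : ℝ) < N := by
    have : 1 ≤ b ^ k := Nat.one_le_pow _ _ (by omega)
    exact_mod_cast (by omega : 0 < N)
  refine h2 k (by omega) N hN1 hN2 S (fun a ha => ?_) hsep
  obtain ⟨g1, g2, h3⟩ := hS a ha
  refine ⟨g1, g2, fun n _ hthr => ?_⟩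
  have h0 : ‖φ (fun v : {v // v ∈ range (b ^ k)} => p v.1) (fun v => cc + μ * (v.1 : ℕ)) a‖ =
      ‖∑ v ∈ range (b ^ k), (p v : ℂ) * ee (v * ((μ : ℝ) * a))‖ := by
    have e1 : φ (fun v : {v // v ∈ range (b ^ k)} => p v.1) (fun v => cc + μ * (v.1 : ℕ)) a =
        ∑ v ∈ range (b ^ k), (p v : ℂ) * ee (((cc + μ * v : ℤ) : ℝ) * a) := by
      rw [← Finset.sum_coe_sort (range (b ^ k)) (fun v : ℕ => (p v : ℂ) * ee (((cc + μ * v : ℤ) : ℝ) * a))]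
      rfl
    have e2 : ∑ v ∈ range (b ^ k), (p v : ℂ) * ee (((cc + μ * v : ℤ) : ℝ) * a) =
        ee ((cc : ℝ) * a) * ∑ v ∈ range (b ^ k), (p v : ℂ) * ee (v * ((μ : ℝ) * a)) := by
      rw [mul_sum]
      apply sum_congr rfl
      intro v _
      have : (((cc + μ * v : ℤ) : ℝ) * a) = (cc : ℝ) * a + v * ((μ : ℝ) * a) := by
        push_cast
        ring
      rw [this, ee_add]
      ring
    rw [e1, e2, norm_mul, norm_ee, one_mul]
  rw [h0] at h3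
  by_contra hcon
  push Not at hcon
  have h4 := hchar T k p hp ((μ : ℝ) * a) (v * n) hcon
  have h5 := hm₁ k (by omega) N (le_trans (Nat.pow_le_pow_left hb k) hN1)
  have h6 : l ^ (v * n) ≤ (1 / (b : ℝ)) ^ n * (1 / (b : ℝ)) ^ n := by
    rw [pow_mul, ← mul_pow, ← pow_two]
    exact pow_le_pow_left₀ (by positivity) hv.le _
  have h5' : (k : ℝ) ^ T ≤ (N : ℝ) ^ θ := by
    refine le_trans ?_ h5
    have : (k : ℝ) ^ T ≤ ((k : ℝ) + 1) ^ T := pow_le_pow_left₀ (Nat.cast_nonneg _) (by linarith) _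
    linarith
  have h7 : (k : ℝ) ^ T * ((1 / (b : ℝ)) ^ n * (1 / (b : ℝ)) ^ n) ≤ (N : ℝ) ^ (-θ) := by
    have e1 : (k : ℝ) ^ T * (1 / (b : ℝ)) ^ n ≤ 1 := by
      calc (k : ℝ) ^ T * (1 / (b : ℝ)) ^ n ≤ (N : ℝ) ^ θ * (N : ℝ) ^ (-θ) :=
            mul_le_mul h5' hthr (by positivity) (by positivity)
        _ = 1 := by rw [← Real.rpow_add hN0, add_neg_cancel, Real.rpow_zero]
    calc (k : ℝ) ^ T * ((1 / (b : ℝ)) ^ n * (1 / (b : ℝ)) ^ n)
        = ((k : ℝ) ^ T * (1 / (b : ℝ)) ^ n) * (1 / (b : ℝ)) ^ n := by ring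
      _ ≤ 1 * (1 / (b : ℝ)) ^ n := mul_le_mul_of_nonneg_right e1 (by positivity)
      _ ≤ _ := by rw [one_mul]; exact hthr
  have h8 : (k : ℝ) ^ T * l ^ (v * n) ≤ (k : ℝ) ^ T * ((1 / (b : ℝ)) ^ n * (1 / (b : ℝ)) ^ n) :=
    mul_le_mul_of_nonneg_left h6 (by positivity)
  linarith

end Pool.Agent.N625.PT
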