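import Pool.Agent.N625.PT.F

set_option autoImplicit false

/-! Random integers given by digits: a general principle for one prime value. -/

namespace Pool.Agent.N625.PT
open Finset
open Pool.Agent.H373R2.T7
open Pool.Agent.W93.DG
open Pool.Agent.Y885 (TLaw tl_one small_ball)

/-- the property `P a N` of the integers `N` of size about `X` follows from the smallness of a sum over the
differences `N - j`, for all the parameters `a` with `Ad X a` -/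
def Det {α : Type} (Ad : ℕ → α → Prop) (P : α → ℕ → Prop) : Prop :=
  ∀ W : ℕ, ∃ V T : ℕ, ∀ Bz : ℕ, ∃ Ez X₀ : ℕ, ∀ X : ℕ, X₀ ≤ X → ∀ a : α, Ad X a → ∃ (z : ℕ) (w : ℕ → ℝ),
    Real.log X ^ Bz ≤ z ∧ (z : ℝ) ≤ Real.log X ^ Ez ∧ (∀ j ∈ Icc 1 X, |w j| ≤ Real.log X ^ T) ∧
    ∀ N : ℕ, (X : ℝ) / Real.log X ^ W ≤ N → N ≤ X →
      |∑ j ∈ Icc 1 X, w j * (lamI ((N : ℤ) - j) - lamzI z ((N : ℤ) - j))| ≤ X / Real.log X ^ V → P a N

lemma thr (b W K : ℕ) (hb : 2 ≤ b) (hK : 2 * (W + 1) + 4 ≤ K) :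
    ((b ^ K : ℕ) : ℝ) / Real.log ((b ^ K : ℕ) : ℝ) ^ (W + 1) ≤
      ((b ^ (K + 2) : ℕ) : ℝ) / Real.log ((b ^ (K + 2) : ℕ) : ℝ) ^ (W + 1) := by
  have hbr : (2 : ℝ) ≤ b := by exact_mod_cast hb
  obtain ⟨X, hX⟩ : ∃ X, X = b ^ K := ⟨_, rfl⟩
  have hkX : K < X := by
    rw [hX]
    exact Nat.lt_pow_self (by omega)
  have hX3 : (3 : ℝ) ≤ X := by exact_mod_cast (by omega : 3 ≤ X)
  have hX0 : (0 : ℝ) < X := by linarith
  obtain ⟨L, hL⟩ : ∃ L, L = Real.log (X : ℝ) := ⟨_, rfl⟩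
  have hL1 : 1 ≤ L := by
    rw [hL, Real.le_log_iff_exp_le hX0]
    have := Real.exp_one_lt_d9
    linarith
  have hL0 : 0 < L := by linarith
  have hKr0 : (0 : ℝ) < K := by exact_mod_cast (by omega : 0 < K)
  rw [← hX, ← hL]
  have e1 : Real.log ((b ^ (K + 2) : ℕ) : ℝ) = (1 + 2 / (K : ℝ)) * L := by
    rw [hL, hX, Nat.cast_pow, Nat.cast_pow, Real.log_pow, Real.log_pow]
    push_cast
    field_simp
  have e2 : ((b ^ (K + 2) : ℕ) : ℝ) = (b : ℝ) ^ 2 * X := by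
    rw [hX]; push_cast; rw [pow_add]; ring
  have e3 : (1 + 2 / (K : ℝ)) ^ (W + 1) ≤ (b : ℝ) ^ 2 := by
    have e4 : 1 + 2 / (K : ℝ) ≤ Real.exp (2 / K) := by
      have := Real.add_one_le_exp (2 / (K : ℝ))
      linarith
    calc (1 + 2 / (K : ℝ)) ^ (W + 1) ≤ Real.exp (2 / K) ^ (W + 1) := pow_le_pow_left₀ (by positivity) e4 _
      _ = Real.exp (((W + 1 : ℕ) : ℝ) * (2 / K)) := by rw [Real.exp_nat_mul]
      _ ≤ Real.exp 1 := by
          apply Real.exp_le_exp.2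
          rw [mul_div_assoc', div_le_one hKr0]
          have : ((2 * (W + 1) : ℕ) : ℝ) ≤ K := by exact_mod_cast (by omega : 2 * (W + 1) ≤ K)
          push_cast at this ⊢
          linarith
      _ ≤ 4 := by have := Real.exp_one_lt_d9; linarith
      _ ≤ (b : ℝ) ^ 2 := by nlinarith
  rw [e1, e2, mul_pow, div_le_div_iff₀ (by positivity) (by positivity)]
  calc (X : ℝ) * ((1 + 2 / (K : ℝ)) ^ (W + 1) * L ^ (W + 1)) ≤ X * ((b : ℝ) ^ 2 * L ^ (W + 1)) := by gcongr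
    _ = _ := by ring

open Classical in
/-- the property holds for almost all values of a random integer with a thin large spectrum -/
theorem tl_gen {α : Type} (b : ℕ) (hb : 2 ≤ b) (E c₁ U : ℕ) (hE : 1 ≤ E) (Ad : ℕ → α → Prop) (P : α → ℕ → Prop)
    (hP : Det Ad P) : ∃ V : ℕ, ∀ c₂ : ℕ, ∃ K₀ : ℕ, ∀ K : ℕ, K₀ ≤ K →
    ∀ (ι : Type) (Ω : Finset ι) (p : ι → ℝ) (Y : ι → ℤ), TLaw b E c₁ (U + 3) (K + 2) Ω p Y → TLaw b E c₂ V (K + 2) Ω p Y →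
    (∀ ω ∈ Ω, |Y ω| ≤ (b : ℤ) ^ K) → ∀ a : α, Ad (b ^ K) a → ∀ bad : ι → Prop,
    (∀ ω ∈ Ω, bad ω → 0 < Y ω ∧ ¬ P a (Y ω).toNat) →
    ∑ ω ∈ Ω, (if bad ω then p ω else 0) ≤ 1 / (K : ℝ) ^ U := by
  obtain ⟨W, k1, h1⟩ := small_ball b hb E c₁ (U + 2) hE
  obtain ⟨V0, T, hV0⟩ := hP (W + 1)
  obtain ⟨U', hU'⟩ : ∃ U', U' = V0 + T + U + 3 := ⟨_, rfl⟩
  refine ⟨2 * U' + 6, fun c₂ => ?_⟩
  obtain ⟨B1, hB1⟩ := tl_one b E c₂ hb hE U'
  obtain ⟨Ez, X0, hdet⟩ := hV0 (B1 + 1)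
  obtain ⟨k2, h2⟩ := hB1 Ez
  obtain ⟨k3, hk3⟩ := exists_nat_ge ((2 : ℝ) ^ (B1 + 2))
  obtain ⟨k4, hk4⟩ := exists_nat_ge ((b : ℝ) ^ (2 + (T + V0)))
  refine ⟨k1 + k2 + X0 + k3 + k4 + 2 * (W + 1) + 4, fun K hk ι Ω p Yv hlaw₁ hlaw₂ hYle a hAd bad hbad => ?_⟩
  have hbr : (2 : ℝ) ≤ b := by exact_mod_cast hb
  have hb0 : (0 : ℝ) < b := by linarith
  have hbn : 0 < b := by omega
  obtain ⟨X, hX⟩ : ∃ X, X = b ^ K := ⟨_, rfl⟩
  obtain ⟨Y, hY⟩ : ∃ Y, Y = b ^ (K + 2) := ⟨_, rfl⟩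
  have hKX : K < X := by rw [hX]; exact Nat.lt_pow_self (by omega)
  have hX0 : (0 : ℝ) < X := by exact_mod_cast (by omega : 0 < X)
  have hYX : Y = b ^ 2 * X := by rw [hY, hX, ← pow_add]; congr 1; ring
  obtain ⟨hL1, hL2⟩ := logX b K hb
  rw [← hX] at hL1 hL2 hAd
  obtain ⟨L, hL⟩ : ∃ L, L = Real.log (X : ℝ) := ⟨_, rfl⟩
  rw [← hL] at hL1 hL2
  have hK4 : (4 : ℝ) ≤ K := by exact_mod_cast (by omega : 4 ≤ K)
  have hL2' : 2 ≤ L := by linarith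
  have hL1' : 1 ≤ L := by linarith
  have hL0 : 0 < L := by linarith
  have hk0 : (1 : ℝ) ≤ K := by linarith
  have hKr0 : (0 : ℝ) < K := by linarith
  have hLY1 : L ≤ Real.log Y := by
    rw [hL]
    apply Real.log_le_log hX0
    rw [hYX]
    have : 1 ≤ b ^ 2 := Nat.one_le_pow _ _ hbn
    exact_mod_cast Nat.le_mul_of_pos_left X (by omega)
  have hLY2 : Real.log Y ≤ 2 * L := by
    have e1 : Real.log (Y : ℝ) = (K + 2 : ℕ) * Real.log b := by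
      rw [hY]; push_cast; rw [Real.log_pow]; push_cast; ring
    have e2 : L = (K : ℕ) * Real.log b := by
      rw [hL, hX]; push_cast; rw [Real.log_pow]
    rw [e1, e2]
    have e3 : 0 ≤ Real.log (b : ℝ) := Real.log_nonneg (by linarith)
    have e4 : ((K + 2 : ℕ) : ℝ) ≤ 2 * (K : ℕ) := by
      have : K + 2 ≤ 2 * K := by omega
      exact_mod_cast this
    calc ((K + 2 : ℕ) : ℝ) * Real.log b ≤ (2 * (K : ℕ)) * Real.log b := mul_le_mul_of_nonneg_right e4 e3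
      _ = _ := by ring
  obtain ⟨z, w, hz1, hz2, hw, hN⟩ := hdet X (by omega) a hAd
  rw [← hL] at hz1 hz2 hN hw
  have hz3 : Real.log Y ^ B1 ≤ z := by
    refine le_trans ?_ hz1
    have hk3L : (2 : ℝ) ^ B1 ≤ L := by
      have e1 : (k3 : ℝ) ≤ K := by exact_mod_cast (by omega : k3 ≤ K)
      have e2 : (2 : ℝ) ^ (B1 + 2) = 4 * 2 ^ B1 := by rw [pow_add]; ring
      have e3 : (0 : ℝ) < 2 ^ B1 := by positivity
      linarith
    calc Real.log Y ^ B1 ≤ (2 * L) ^ B1 := pow_le_pow_left₀ (by linarith) hLY2 _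
      _ = 2 ^ B1 * L ^ B1 := mul_pow _ _ _
      _ ≤ L * L ^ B1 := mul_le_mul_of_nonneg_right hk3L (by positivity)
      _ = L ^ (B1 + 1) := by ring
  have hz4 : (z : ℝ) ≤ Real.log Y ^ Ez := hz2.trans (pow_le_pow_left₀ hL0.le hLY1 _)
  have hXz : (X : ℤ) = (b : ℤ) ^ K := by rw [hX]; push_cast; ring
  have e2 : (b : ℤ) ^ (K + 2) = (b : ℤ) ^ 2 * X := by
    have : ((Y : ℕ) : ℤ) = ((b ^ 2 * X : ℕ) : ℤ) := by rw [hYX]
    rw [hY] at this
    push_cast at this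
    exact this
  have e3 : (4 : ℤ) ≤ (b : ℤ) ^ 2 := by
    have : (2 : ℤ) ≤ b := by exact_mod_cast hb
    nlinarith
  have e4 : (0 : ℤ) < X := by exact_mod_cast (by omega : 0 < X)
  have e5 : 4 * (X : ℤ) ≤ (b : ℤ) ^ (K + 2) := by
    rw [e2]
    exact mul_le_mul_of_nonneg_right e3 e4.le
  have t1 := h2 (K + 2) (by omega) z (by rw [← hY]; exact hz3) (by rw [← hY]; exact hz4) ι Ω p Yv hlaw₂ X (by
    intro ω hω
    have e6 := hYle ω hω
    rw [← hXz] at e6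
    have e7 : (1 : ℤ) ≤ X := e4
    have e8 : (4 : ℤ) ≤ X := by exact_mod_cast (by omega : 4 ≤ X)
    linarith) (by
    have e8 : (4 : ℤ) ≤ X := by exact_mod_cast (by omega : 4 ≤ X)
    linarith) (L ^ T) (by positivity) w hw
  rw [← hY] at t1
  obtain ⟨S, hS⟩ : ∃ S : ι → ℝ, S = fun ω => |∑ j ∈ Icc 1 X, w j * (lamI (Yv ω - j) - lamzI z (Yv ω - j))| := ⟨_, rfl⟩
  have hS0 : ∀ ω, 0 ≤ S ω := fun ω => by rw [hS]; exact abs_nonneg _
  have t1' : ∑ ω ∈ Ω, p ω * S ω ≤ L ^ T * ((Y : ℝ) / ((K + 2 : ℕ) : ℝ) ^ U') := by rw [hS]; exact t1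
  obtain ⟨τ, hτ⟩ : ∃ τ, τ = (X : ℝ) / L ^ V0 := ⟨_, rfl⟩
  have hτ0 : 0 < τ := by rw [hτ]; positivity
  have hmk : ∑ ω ∈ Ω, (if τ < S ω then p ω else 0) ≤ 1 / (K : ℝ) ^ (U + 1) := by
    have g1 : τ * ∑ ω ∈ Ω, (if τ < S ω then p ω else 0) ≤ ∑ ω ∈ Ω, p ω * S ω := by
      rw [mul_sum]
      apply sum_le_sum
      intro ω hω
      have hp := hlaw₁.nonneg ω hω
      split_ifs with h
      · rw [mul_comm]
        exact mul_le_mul_of_nonneg_left h.le hp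
      · rw [mul_zero]
        exact mul_nonneg hp (hS0 ω)
    have g2 : ∑ ω ∈ Ω, (if τ < S ω then p ω else 0) ≤ (L ^ T * ((Y : ℝ) / ((K + 2 : ℕ) : ℝ) ^ U')) / τ := by
      rw [le_div_iff₀ hτ0, mul_comm]
      exact g1.trans t1'
    refine g2.trans ?_
    have hYr : (Y : ℝ) = (b : ℝ) ^ 2 * X := by rw [hYX]; push_cast; ring
    have hKK : (K : ℝ) ≤ ((K + 2 : ℕ) : ℝ) := by push_cast; linarith
    calc (L ^ T * ((Y : ℝ) / ((K + 2 : ℕ) : ℝ) ^ U')) / τ ≤ (L ^ T * ((Y : ℝ) / (K : ℝ) ^ U')) / τ := by gcongr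
      _ = (b : ℝ) ^ 2 * L ^ (T + V0) / (K : ℝ) ^ U' := by
          rw [hYr, hτ, pow_add L]
          field_simp
      _ ≤ (b : ℝ) ^ 2 * (b * K) ^ (T + V0) / (K : ℝ) ^ U' := by gcongr
      _ = (b : ℝ) ^ (2 + (T + V0)) * (K : ℝ) ^ (T + V0) / (K : ℝ) ^ U' := by
          rw [mul_pow (b : ℝ) (K : ℝ), pow_add (b : ℝ) 2]; ring
      _ ≤ (K : ℝ) * (K : ℝ) ^ (T + V0) / (K : ℝ) ^ U' := by
          have : (b : ℝ) ^ (2 + (T + V0)) ≤ K := hk4.trans (by exact_mod_cast (by omega : k4 ≤ K))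
          gcongr
      _ = 1 / (K : ℝ) ^ (U + 2) := by
          have e1 : (K : ℝ) ^ U' = (K : ℝ) ^ (U + 2) * ((K : ℝ) * (K : ℝ) ^ (T + V0)) := by
            rw [hU', show V0 + T + U + 3 = (U + 2) + (1 + (T + V0)) by ring, pow_add, pow_add (K : ℝ) 1, pow_one]
          rw [e1]
          field_simp
      _ ≤ 1 / (K : ℝ) ^ (U + 1) := by
          apply one_div_le_one_div_of_le (by positivity)
          exact pow_le_pow_right₀ hk0 (by omega)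
  have g1 := h1 (K + 2) (by omega) ι Ω p Yv hlaw₁
  have hthr := thr b W K hb (by omega)
  rw [← hX, ← hL] at hthr
  have hpt : ∀ d ∈ Ω, (if bad d then p d else 0) ≤
      (if 1 ≤ Yv d ∧ (Yv d : ℝ) < ((b ^ (K + 2) : ℕ) : ℝ) / Real.log ((b ^ (K + 2) : ℕ) : ℝ) ^ (W + 1) then p d else 0) +
      (if τ < S d then p d else 0) := by
    intro d hd
    have hp := hlaw₁.nonneg d hd
    have hn : ∀ Q : Prop, ∀ _ : Decidable Q, 0 ≤ (if Q then p d else 0) := by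
      intro Q _
      split_ifs
      · exact hp
      · exact le_rfl
    by_cases hB : bad d
    swap
    · rw [if_neg hB]
      exact add_nonneg (hn _ _) (hn _ _)
    rw [if_pos hB]
    obtain ⟨c1, c3⟩ := hbad d hd hB
    by_cases hA : 1 ≤ Yv d ∧ (Yv d : ℝ) < ((b ^ (K + 2) : ℕ) : ℝ) / Real.log ((b ^ (K + 2) : ℕ) : ℝ) ^ (W + 1)
    · rw [if_pos hA]
      linarith [hn (τ < S d) inferInstance]
    · have hmW : (X : ℝ) / L ^ (W + 1) ≤ Yv d := by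
        by_contra hcon
        push Not at hcon
        apply hA
        exact ⟨by omega, hcon.trans_le hthr⟩
      have hSd : τ < S d := by
        by_contra hcon
        push Not at hcon
        apply c3
        obtain ⟨m, hm⟩ : ∃ m : ℕ, (m : ℤ) = Yv d := ⟨(Yv d).toNat, by omega⟩
        have hYd := hYle d hd
        rw [hS] at hcon
        simp only at hcon
        rw [← hm] at hmW hYd hcon ⊢
        rw [Int.toNat_natCast]
        have hmX : m ≤ X := by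
          have e1 := (le_abs_self _).trans hYd
          rw [← hXz] at e1
          exact_mod_cast e1
        exact hN m (by exact_mod_cast hmW) hmX (by rw [← hτ]; exact hcon)
      rw [if_pos hSd]
      linarith [hn (1 ≤ Yv d ∧ (Yv d : ℝ) < ((b ^ (K + 2) : ℕ) : ℝ) / Real.log ((b ^ (K + 2) : ℕ) : ℝ) ^ (W + 1)) inferInstance]
  refine (sum_le_sum hpt).trans ?_
  rw [sum_add_distrib]
  have e : 1 / (K : ℝ) ^ (U + 1) + 1 / (K : ℝ) ^ (U + 1) ≤ 1 / (K : ℝ) ^ U := by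
    rw [← two_mul, mul_one_div, div_le_div_iff₀ (by positivity) (by positivity), pow_succ]
    have : 0 < (K : ℝ) ^ U := by positivity
    nlinarith
  refine le_trans (add_le_add ?_ hmk) e
  refine le_trans (le_of_eq ?_) (g1.trans ?_)
  · apply sum_congr rfl
    intro d _
    split_ifs <;> rfl
  · apply one_div_le_one_div_of_le (by positivity)
    calc (K : ℝ) ^ (U + 1) ≤ (K : ℝ) ^ (U + 2) := pow_le_pow_right₀ (by linarith) (by omega)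
      _ ≤ ((K + 2 : ℕ) : ℝ) ^ (U + 2) := by
          apply pow_le_pow_left₀ hKr0.le
          push_cast
          linarith

open Classical in
/-- the union bound over the offsets -/
lemma union_off (W U : ℕ) (k : ℕ) (hk : 3 ≤ k) (n : ℕ) (p : ℕ → ℝ) (hp : ∀ v, 0 ≤ p v) (Bad : ℤ → ℕ → Prop)
    (hB : ∀ o : ℤ, |o| ≤ (k : ℤ) ^ W → ∑ v ∈ range n, (if Bad o v then p v else 0) ≤ 1 / (k : ℝ) ^ (U + W + 1)) :
    ∑ v ∈ range n, (if ∃ o : ℤ, |o| ≤ (k : ℤ) ^ W ∧ Bad o v then p v else 0) ≤ 1 / (k : ℝ) ^ U := by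
  have h := union 0 W U k hk n p hp (fun _ o v => Bad o v) (fun v => ¬ ∃ o : ℤ, |o| ≤ (k : ℤ) ^ W ∧ Bad o v) (by
    intro v hv
    rw [not_not] at hv
    obtain ⟨o, ho, hbad⟩ := hv
    exact ⟨1, le_rfl, by simp, o, ho, hbad⟩) (by
    intro _ _ _ o ho
    exact (hB o ho).trans (le_of_eq (by rw [add_zero])))
  refine le_trans (le_of_eq ?_) h
  apply sum_congr rfl
  intro v _
  by_cases hv : ∃ o : ℤ, |o| ≤ (k : ℤ) ^ W ∧ Bad o v
  · rw [if_pos hv, if_neg (not_not.2 hv)]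
  · rw [if_neg hv, if_pos hv]

open Classical in
/-- the property for all the integers near all the multiples of the integers near a random integer -/
theorem t_gen {α : Type} {b : ℕ} {κ : ℤ} {C : ℕ → (ℕ → ℝ) → Prop} (hC : TCls b κ C) (B J W U : ℕ) (Ad : ℕ → α → Prop)
    (P : α → ℕ → Prop) (hP : Det Ad P) : ∃ k₀ : ℕ, ∀ k : ℕ, k₀ ≤ k → ∀ p, C k p → ∀ c : ℤ, |c| ≤ B * (b : ℤ) ^ k →
    ∀ a : α, (∀ K : ℕ, k ≤ K → K ≤ 2 * k → Ad (b ^ K) a) →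
    ∀ Q : ℕ → Prop, (∀ v, ¬ Q v → ∃ h : ℕ, 1 ≤ h ∧ h ≤ k ^ J ∧ ∃ s : ℤ, |s| ≤ (k : ℤ) ^ W ∧ ∃ o : ℤ, |o| ≤ (k : ℤ) ^ W ∧
      0 < (h : ℤ) * (c + s + κ * v) + o ∧ ¬ P a ((h : ℤ) * (c + s + κ * v) + o).toNat) →
    ∑ v ∈ range (b ^ k), (if Q v then 0 else p v) ≤ 1 / (k : ℝ) ^ U := by
  have hb := hC.two
  obtain ⟨F, hF, hlaw⟩ := hC.law
  obtain ⟨U', hU'⟩ : ∃ U', U' = U + J + W + 1 + W + 1 := ⟨_, rfl⟩
  obtain ⟨e₀, he₀⟩ : ∃ e₀, e₀ = F + (B + κ.natAbs + 1) + 4 := ⟨_, rfl⟩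
  obtain ⟨c₁, m₁, h1⟩ := hlaw (3 * J + e₀) (U' + 3)
  obtain ⟨V, hV⟩ := tl_gen b hb 15 c₁ U' (by norm_num) Ad P hP
  obtain ⟨c₂, m₂, h2⟩ := hlaw (3 * J + e₀) V
  obtain ⟨K₀, h3⟩ := hV c₂
  obtain ⟨k4, h4⟩ := pow_le_pow_digits b hb W
  obtain ⟨k5, h5⟩ := pow_le_pow_digits 3 (by norm_num) 1
  obtain ⟨k6, h6⟩ : ∃ k6 : ℕ, ∀ k : ℕ, k6 ≤ k → ((3 * J + e₀ : ℕ) : ℝ) * Real.log k ≤ k := by
    have g1 := Real.isLittleO_log_id_atTop.comp_tendsto (tendsto_natCast_atTop_atTop (R := ℝ))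
    have g2 := g1.bound (show (0 : ℝ) < 1 / ((3 * J + e₀ : ℕ) + 1 : ℝ) by positivity)
    obtain ⟨k6, hk6⟩ := Filter.eventually_atTop.1 (g2.and (Filter.eventually_ge_atTop 1))
    refine ⟨k6, fun k hk => ?_⟩
    obtain ⟨h7, h8⟩ := hk6 k hk
    simp only [Function.comp, id, Real.norm_eq_abs, Nat.abs_cast] at h7
    rw [abs_of_nonneg (Real.log_natCast_nonneg k), one_div, inv_mul_eq_div, le_div_iff₀ (by positivity)] at h7
    have h9 := Real.log_natCast_nonneg k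
    have h10 : ((3 * J + e₀ : ℕ) : ℝ) * Real.log k ≤ Real.log k * (((3 * J + e₀ : ℕ) : ℝ) + 1) := by nlinarith
    exact h10.trans h7
  refine ⟨m₁ + m₂ + K₀ + k4 + k5 + k6 + 3, fun k hk p hp c hc a ha Q hQ => ?_⟩
  refine union J W U k (by omega) (b ^ k) p (hC.nonneg k p hp)
    (fun h s v => ∃ o : ℤ, |o| ≤ (k : ℤ) ^ W ∧ (0 < (h : ℤ) * (c + s + κ * v) + o ∧ ¬ P a ((h : ℤ) * (c + s + κ * v) + o).toNat)) Q hQ ?_
  intro h hh1 hh2 s hs
  refine union_off W (U + J + W + 1) k (by omega) (b ^ k) p (hC.nonneg k p hp)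
    (fun o v => 0 < (h : ℤ) * (c + s + κ * v) + o ∧ ¬ P a ((h : ℤ) * (c + s + κ * v) + o).toNat) ?_
  intro o ho
  obtain ⟨e, he⟩ : ∃ e, e = ex b J e₀ k := ⟨_, rfl⟩
  have hee : e = J * (Nat.log b k + 1) + e₀ := by rw [he]; rfl
  have hlogF := log_ex b J F hb k h hF hh1 hh2
  have heW : (e : ℝ) ≤ ((3 * J + e₀ : ℕ) : ℝ) * Real.log k := by rw [he]; exact ex_le b J e₀ hb k (by omega)
  have hek : e ≤ k := by exact_mod_cast heW.trans (h6 k (by omega))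
  obtain ⟨K, hK⟩ : ∃ K, K = k + e - 2 := ⟨_, rfl⟩
  have hK2 : K + 2 = k + e := by omega
  have t1 := (h1 k (by omega) e heW h hh1 (by omega) p hp (c + s)).add o
  have t2 := (h2 k (by omega) e heW h hh1 (by omega) p hp (c + s)).add o
  rw [← hK2] at t1 t2
  have key := h3 K (by omega) ℕ (range (b ^ k)) p _ t1 t2 (by
    intro v hv
    rw [mem_range] at hv
    have q1 := val_ex b J W B hb κ k (h4 k (by omega)) c s hc hs h hh2 v hv
    have q2 : (k : ℤ) ^ W ≤ (b : ℤ) ^ k := by exact_mod_cast h4 k (by omega)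
    have q3 : (b : ℤ) ^ k ≤ (b : ℤ) ^ (k + (J * (Nat.log b k + 1) + (B + κ.natAbs + 1))) := by
      apply pow_le_pow_right₀ (by exact_mod_cast (by omega : 1 ≤ b))
      omega
    have q4 := abs_add_le ((h : ℤ) * (c + s + κ * v)) o
    have q5 : (2 : ℤ) ≤ b := by exact_mod_cast hb
    have q6 : (b : ℤ) ^ (k + (J * (Nat.log b k + 1) + (B + κ.natAbs + 1)) + 1) ≤ (b : ℤ) ^ K := by
      apply pow_le_pow_right₀ (by linarith)
      omega
    have q7 : 0 < (b : ℤ) ^ (k + (J * (Nat.log b k + 1) + (B + κ.natAbs + 1))) := by positivity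
    rw [pow_succ] at q6
    nlinarith) a (ha K (by omega) (by omega)) (fun v => 0 < (h : ℤ) * (c + s + κ * v) + o ∧
      ¬ P a ((h : ℤ) * (c + s + κ * v) + o).toNat) (fun v _ hv => hv)
  refine key.trans ?_
  have hk0 : (0 : ℝ) < k := by exact_mod_cast (by omega : 0 < k)
  rw [show U + J + W + 1 + W + 1 = U' by omega]
  apply one_div_le_one_div_of_le (by positivity)
  apply pow_le_pow_left₀ hk0.le
  exact_mod_cast (by omega : k ≤ K)

end Pool.Agent.N625.PT
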