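import Pool.Agent.N625.PT.Q
import Pool.Agent.H373R2.T7.PB3

set_option autoImplicit false

/-! The primes `p` with `N - m p` prime and with values of polynomials without small prime factors. -/

namespace Pool.Agent.N625.PT
open Finset Polynomial
open Pool.Agent.H373R2.T7
open Pool.Agent.H373R2.T7.TB Pool.Agent.H373R2.T7.PB

/-- a uniform lower bound for the main term -/
lemma main_lowU (D : ℕ) : ∃ (c : ℝ) (C N0 : ℕ), 0 < c ∧ ∀ (g : ℕ) (F : Fin g → ℤ[X]), (∀ i, 1 ≤ (F i).natDegree) →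
    (∀ i, 0 < (F i).leadingCoeff) → ∀ G : ℤ[X], 1 ≤ G.natDegree → 0 < G.leadingCoeff → ∑ i, (F i).natDegree + G.natDegree ≤ D →
    ∀ N z y x : ℕ, N0 ≤ y → y ≤ x → NoFixed (PArg.eF F) G N → c / Real.log x ^ C ≤
      (Vz z)⁻¹ * ∏ p ∈ pz y, (1 - (rhoA (Qc F G N z) p : ℝ) / (p - 1 : ℝ)) := by
  obtain ⟨C2, N2, hV⟩ := Vz_low
  obtain ⟨N3, h3⟩ := ev_L' 1
  obtain ⟨m, hm⟩ : ∃ m, m = D + 1 := ⟨_, rfl⟩
  have hm1 : 1 ≤ m := by omega
  have hm0 : (0 : ℝ) < m := by exact_mod_cast hm1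
  obtain ⟨c0, hc0⟩ : ∃ c0 : ℝ, c0 = (1 / (3 * m : ℝ)) ^ (3 * m) * Real.exp (-(2 * (m : ℝ) ^ 2)) := ⟨_, rfl⟩
  have hc00 : 0 < c0 := by rw [hc0]; positivity
  refine ⟨c0, C2 * m, max N2 (max N3 1), hc00, fun g F hF hFl G hG hGl hD N z y x hy hyx hNF => ?_⟩
  have b1 := le_trans (le_max_left _ _) hy
  have b2 := le_trans (le_trans (le_max_left _ _) (le_max_right _ _)) hy
  have b3 := le_trans (le_trans (le_max_right _ _) (le_max_right _ _)) hy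
  have hVy := hV y b1
  have hLy := h3 y b2
  have hy0 : (0 : ℝ) < y := by exact_mod_cast (by omega : 0 < y)
  have hLx : Real.log y ≤ Real.log x := Real.log_le_log hy0 (by exact_mod_cast hyx)
  have hPer := perA_of F hF hFl G hG hGl N z hNF D hD
  have h5 := local_low m hm1 (nuB (Qc (PArg.eF F) G N z)) y (fun p hp => by
      rw [nu_rho F G N z p (mem_pz.1 hp).2]
      have := hPer.few p (mem_pz.1 hp).2
      omega)
    (fun p hp => nuc_lt (PArg.eF F) G N z hNF p (mem_pz.1 hp).2)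
  rw [prod_div_distrib, prod_pow] at h5
  have e : ∏ p ∈ pz y, (1 - 1 / (p : ℝ)) = Vz y := rfl
  have hVp := Vz_pos y
  rw [e, le_div_iff₀ (by positivity), ← hc0] at h5
  have h6 : 1 / Real.log x ^ C2 ≤ Vz y := by
    refine le_trans ?_ hVy
    apply one_div_le_one_div_of_le (by positivity)
    exact pow_le_pow_left₀ (by linarith) hLx _
  have h67 : 0 < Real.log x := by linarith
  have h7 : (1 / Real.log x ^ C2) ^ m ≤ Vz y ^ m := pow_le_pow_left₀ (by positivity) h6 _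
  have h8 : c0 / Real.log x ^ (C2 * m) ≤ ∏ p ∈ pz y, (1 - (nuB (Qc (PArg.eF F) G N z) p : ℝ) / p) := by
    refine le_trans ?_ h5
    calc c0 / Real.log x ^ (C2 * m) = c0 * (1 / Real.log x ^ C2) ^ m := by
          rw [one_div, inv_pow, ← pow_mul, div_eq_mul_inv]
      _ ≤ _ := mul_le_mul_of_nonneg_left h7 hc00.le
  refine h8.trans ?_
  rw [prod_eq]
  have h1 : 0 ≤ ∏ p ∈ pz y, (1 - (nuB (Qc (PArg.eF F) G N z) p : ℝ) / p) := by
    apply prod_nonneg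
    intro p hp
    have hp0 : (0 : ℝ) < p := by exact_mod_cast (mem_pz.1 hp).2.pos
    have h1 : (nuB (Qc (PArg.eF F) G N z) p : ℝ) / p ≤ 1 := by rw [div_le_one hp0]; exact_mod_cast nuB_le _ p
    linarith
  have h2 : ∏ p ∈ pz y, (1 - (nuB (Qc (PArg.eF F) G N z) p : ℝ) / p) ≤
      (Vz y)⁻¹ * ∏ p ∈ pz y, (1 - (nuB (Qc (PArg.eF F) G N z) p : ℝ) / p) := by
    apply le_mul_of_one_le_left h1
    rw [one_le_inv₀ (Vz_pos y)]
    exact Vz_le_one y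
  refine h2.trans ?_
  apply le_mul_of_one_le_left (by
    have := (inv_pos.2 (Vz_pos y)).le
    positivity)
  rw [one_le_inv₀ (Vz_pos z)]
  exact Vz_le_one z

/-- the conclusion for a single integer -/
lemma pointQ (W Wm V Pq Xc x L δ c0 : ℝ) (C2 J : ℕ) (hx : 2 ≤ x) (hL : 4 ≤ L) (hδ : 0 < δ) (hc0 : 0 < c0)
    (hd1 : 6 ≤ δ * c0 * L) (hV : V ≤ L) (hV0 : 0 ≤ V) (a5 : (3 * (1 : ℕ) + 2) * L ^ (2 + (C2 + J + 4)) ≤ √x)
    (hlow : c0 / L ^ C2 ≤ V * Pq) (hmod : |Wm - V * Pq * Xc| ≤ δ * (V * Pq * Xc) + V * ((3 * (1 : ℕ) + 2 * √x) * L + x / L ^ ((C2 + J + 4) + 1)))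
    (g1 : |W - Wm| ≤ x / L ^ (C2 + J + 4)) (hX : x / (2 * L ^ J) ≤ Xc) : |W - V * Pq * Xc| ≤ 2 * δ * (V * Pq * Xc) := by
  have hx0 : 0 < x := by linarith
  have hL0 : 0 < L := by linarith
  have hTlow : c0 * x / (2 * L ^ (C2 + J)) ≤ V * Pq * Xc := by
    calc c0 * x / (2 * L ^ (C2 + J)) = c0 / L ^ C2 * (x / (2 * L ^ J)) := by rw [pow_add]; field_simp
      _ ≤ (V * Pq) * Xc := mul_le_mul hlow hX (by positivity) (le_trans (by positivity) hlow)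
  have h6 := num_V2 V L x 1 (C2 + J + 4) hx (by linarith) hV hV0 a5
  have h7 : 3 * (x / L ^ (C2 + J + 4)) ≤ δ * (c0 * x / (2 * L ^ (C2 + J))) := by
    have e1 : δ * (c0 * x / (2 * L ^ (C2 + J))) = (δ * c0 * L) * (L ^ 3 * x) / (2 * L ^ (C2 + J + 4)) := by
      rw [pow_add L (C2 + J) 4]
      field_simp
    rw [e1, mul_div_assoc', div_le_div_iff₀ (by positivity) (by positivity)]
    have e2 : 1 ≤ L ^ 3 := one_le_pow₀ (by linarith)
    have e3 : x ≤ L ^ 3 * x := le_mul_of_one_le_left hx0.le e2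
    have e4 : 6 * x ≤ (δ * c0 * L) * (L ^ 3 * x) := mul_le_mul hd1 e3 hx0.le (by linarith)
    have e5 : 0 < L ^ (C2 + J + 4) := by positivity
    nlinarith
  have h8 := mul_le_mul_of_nonneg_left hTlow hδ.le
  have e3 : W - V * Pq * Xc = (W - Wm) + (Wm - V * Pq * Xc) := by ring
  rw [e3]
  refine (abs_add_le _ _).trans ?_
  linarith

lemma GG_ev (m : ℕ) (n : ℤ) : (C (m : ℤ) * X : ℤ[X]).eval n = m * n := by simp

lemma GG_deg (m : ℕ) (hm : 1 ≤ m) : (C (m : ℤ) * X : ℤ[X]).natDegree = 1 :=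
  natDegree_C_mul_X _ (by exact_mod_cast (by omega : m ≠ 0))

lemma GG_lc (m : ℕ) (hm : 1 ≤ m) : 0 < (C (m : ℤ) * X : ℤ[X]).leadingCoeff := by
  rw [leadingCoeff_C_mul_X]
  exact_mod_cast (by omega : 0 < m)

lemma seg_mul (m N : ℕ) (hm : 1 ≤ m) (hN : 1 ≤ N) (n : ℕ) : 1 ≤ (N : ℤ) - (C (m : ℤ) * X : ℤ[X]).eval (n : ℤ) ↔ n ≤ (N - 1) / m := by
  rw [GG_ev, Nat.le_div_iff_mul_le (by omega)]
  have e : ((n * m : ℕ) : ℤ) = m * n := by push_cast; ring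
  rw [← e]
  omega

lemma XCount_mul (m N : ℕ) (hm : 1 ≤ m) (hN : 1 ≤ N) : SHN.XCount (C (m : ℤ) * X) N N = (N - 1) / m := by
  unfold SHN.XCount
  have e : (Icc 1 N).filter (fun n : ℕ => 0 < (N : ℤ) - (C (m : ℤ) * X : ℤ[X]).eval (n : ℤ)) = Icc 1 ((N - 1) / m) := by
    ext n
    rw [mem_filter, mem_Icc, mem_Icc]
    have h := seg_mul m N hm hN n
    have h2 : (N - 1) / m ≤ N - 1 := Nat.div_le_self _ _
    constructor
    · rintro ⟨h3, h4⟩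
      exact ⟨h3.1, h.1 (by omega)⟩
    · rintro ⟨h3, h4⟩
      exact ⟨⟨h3, by omega⟩, by have := h.2 h4; omega⟩
  rw [e, Nat.card_Icc, Nat.add_sub_cancel]

/-- the primes `p` with `N - m p` prime and the values `F i (p)` without small prime factors, from the smallness of a sum -/
theorem det_one (D : ℕ) (ε : ℝ) (hε : 0 < ε) : ∃ K : ℕ, 1 ≤ K ∧ ∀ J : ℕ, ∃ V : ℕ, ∀ E : ℕ, ∃ x0 : ℕ, ∀ N : ℕ, x0 ≤ N →
    ∀ (g : ℕ) (F : Fin g → ℤ[X]), (∀ i, 1 ≤ (F i).natDegree) → (∀ i, 0 < (F i).leadingCoeff) → ∑ i, (F i).natDegree + 1 ≤ D →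
    ∀ m : ℕ, 1 ≤ m → (m : ℝ) ≤ Real.log N ^ J → ∀ z y : ℕ, Real.log N ≤ z → (z : ℝ) ≤ Real.log N ^ E → z ≤ y → y ^ K ≤ N →
    NoFixed (PArg.eF F) (C (m : ℤ) * X) N →
    |∑ n ∈ Icc 1 N, (lamP (n : ℤ) * rw1 F y n) * (lamP ((N : ℤ) - (C (m : ℤ) * X : ℤ[X]).eval (n : ℤ)) -
      lamzI z ((N : ℤ) - (C (m : ℤ) * X : ℤ[X]).eval (n : ℤ)))| ≤ N / Real.log N ^ V →
    |WP F (C (m : ℤ) * X) N y N - TP F (C (m : ℤ) * X) N z y N| ≤ ε * TP F (C (m : ℤ) * X) N z y N := by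
  obtain ⟨δ, hδd⟩ : ∃ δ : ℝ, δ = (min ε 1) / 2 := ⟨_, rfl⟩
  have hmin : 0 < min ε 1 := lt_min hε one_pos
  have hmin1 : min ε 1 ≤ 1 := min_le_right _ _
  have hδ : 0 < δ := by rw [hδd]; positivity
  have hδ1 : δ ≤ 1 := by rw [hδd]; linarith
  obtain ⟨K, hK1, hfund'⟩ := lam_fund (D + 1) (by omega) δ hδ
  refine ⟨K, hK1, fun J => ?_⟩
  obtain ⟨c0, C2, N2, hc0, hlowT⟩ := main_lowU D
  obtain ⟨xs, hfund⟩ := hfund' ((C2 + J + 4) + 1)
  refine ⟨C2 + J + 4, fun E => ?_⟩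
  obtain ⟨n2a, h2a⟩ := ev_L' 4
  obtain ⟨n2b, h2b⟩ := ev_L' (6 / (δ * c0))
  obtain ⟨n2e, h2e⟩ := ev_L' (xs + N2)
  obtain ⟨n4, h4⟩ := Vz_inv_small E
  obtain ⟨n5, h5⟩ := ev_log' (2 + (C2 + J + 4)) (3 * (1 : ℕ) + 2)
  refine ⟨n2a + n2b + n2e + n4 + n5 + 2, fun N hN g F hF hFl hD m hm hmJ z y hz1 hz2 hzy hyK hNF g1 => ?_⟩
  have hL4 := h2a N (by omega)
  have hLb := h2b N (by omega)
  have hLe := h2e N (by omega)
  have a5 := h5 N (by omega)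
  have hVz := h4 N (by omega) z
  have hx2 : 2 ≤ N := by omega
  have hG1 := GG_deg m hm
  have hGl := GG_lc m hm
  have hlowT' := hlowT g F hF hFl (C (m : ℤ) * X) (by rw [hG1]) hGl (by rw [hG1]; exact hD) N z y N
  have hxs0 : (0 : ℝ) ≤ xs := Nat.cast_nonneg _
  have hN20 : (0 : ℝ) ≤ N2 := Nat.cast_nonneg _
  have hyr0 : Real.log N ≤ y := hz1.trans (by exact_mod_cast hzy)
  have hfund2 := fun Q hQ X hX => hfund N y (by
    have : (xs : ℝ) ≤ y := by linarith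
    exact_mod_cast this) hyK Q hQ X hX
  have hX' : (N - 1) / m ≤ N := (Nat.div_le_self _ _).trans (by omega)
  have hPer := perA_of F hF hFl (C (m : ℤ) * X) (by rw [hG1]) hGl N z hNF (D + 1) (by rw [hG1]; omega)
  have hfd := hfund2 (Qc F (C (m : ℤ) * X) N z) hPer ((N - 1) / m) hX'
  have hmod := model_asymP F (C (m : ℤ) * X) N z y N 1 hzy (by omega) ((N - 1) / m) hX'
    (fun n _ => seg_mul m N hm (by omega) n) δ (N / Real.log N ^ ((C2 + J + 4) + 1)) (Real.log N) rfl (by linarith) hδ.le hδ1 hfd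
  clear hfund hfund' hfund2
  have hxc := XCount_mul m N hm (by omega)
  rw [WP_eq, TP_eq F _ N z y N hzy]
  generalize hLx : Real.log (N : ℝ) = L at *
  have hx0 : (0 : ℝ) < N := by exact_mod_cast (by omega : 0 < N)
  have hL0 : 0 < L := by linarith
  have hL1 : 1 ≤ L := by linarith
  have hz : 1 ≤ z := by
    have : (1 : ℝ) ≤ z := hL1.trans hz1
    exact_mod_cast this
  have hN2 : N2 ≤ y := by
    have : (N2 : ℝ) ≤ y := by linarith
    exact_mod_cast this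
  have hyx : y ≤ N := by
    calc y = y ^ 1 := (pow_one _).symm
      _ ≤ y ^ K := Nat.pow_le_pow_right (hz.trans hzy) hK1
      _ ≤ N := hyK
  have hV := hVz hz hz2
  have hV0 : 0 ≤ (Vz z)⁻¹ := (inv_pos.2 (Vz_pos z)).le
  have hd1 : 6 ≤ δ * c0 * L := by
    rw [div_le_iff₀ (by positivity)] at hLb
    linarith
  have hm0 : (0 : ℝ) < m := by exact_mod_cast (by omega : 0 < m)
  have hXlow : (N : ℝ) / (2 * L ^ J) ≤ SHN.XCount (C (m : ℤ) * X) N N := by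
    rw [hxc]
    have h1 : N ≤ m * ((N - 1) / m) + m := by
      have h3 := Nat.div_add_mod (N - 1) m
      have h4 := Nat.mod_lt (N - 1) (show 0 < m by omega)
      omega
    have h2 : (N : ℝ) ≤ m * ((N - 1) / m : ℕ) + m := by exact_mod_cast h1
    have h3 : 2 * L ^ J ≤ N := by
      have h4 : L ^ J ≤ L ^ (2 + (C2 + J + 4)) := pow_le_pow_right₀ hL1 (by omega)
      have h5 : 0 < L ^ J := by positivity
      have h6 : 2 * L ^ J ≤ √(N : ℝ) := by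
        push_cast at a5
        nlinarith
      have h7 : √(N : ℝ) ≤ N := by
        rw [Real.sqrt_le_left hx0.le]
        have : (1 : ℝ) ≤ N := by exact_mod_cast (by omega : 1 ≤ N)
        nlinarith
      linarith
    have h4 : (N : ℝ) / m ≤ ((N - 1) / m : ℕ) + 1 := by
      rw [div_le_iff₀ hm0]
      linarith
    have h5 : (N : ℝ) / L ^ J ≤ N / m := div_le_div_of_nonneg_left hx0.le hm0 hmJ
    have h6 : (1 : ℝ) ≤ N / (2 * L ^ J) := by
      rw [le_div_iff₀ (by positivity), one_mul]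
      exact h3
    have h7 : (N : ℝ) / L ^ J = 2 * (N / (2 * L ^ J)) := by field_simp
    linarith
  have hsum : ∑ n ∈ Icc 1 N, (lamP (n : ℤ) * rw1 F y n) * (lamP ((N : ℤ) - (C (m : ℤ) * X : ℤ[X]).eval (n : ℤ)) - lamzI z ((N : ℤ) - (C (m : ℤ) * X : ℤ[X]).eval (n : ℤ))) =
      ∑ n ∈ Icc 1 N, (lamP (n : ℤ) * rw1 F y n) * lamP ((N : ℤ) - (C (m : ℤ) * X : ℤ[X]).eval (n : ℤ)) - ∑ n ∈ Icc 1 N, (lamP (n : ℤ) * rw1 F y n) * lamzI z ((N : ℤ) - (C (m : ℤ) * X : ℤ[X]).eval (n : ℤ)) := by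
    rw [← sum_sub_distrib]
    apply sum_congr rfl
    intro n _
    ring
  rw [hsum] at g1
  have hp := pointQ _ _ _ _ _ N L δ c0 C2 J (by exact_mod_cast hx2) hL4 hδ hc0 hd1 hV hV0 (by exact_mod_cast a5)
    (hlowT' hN2 hyx hNF) hmod g1 hXlow
  refine hp.trans ?_
  have h5δ : 2 * δ = min ε 1 := by rw [hδd]; ring
  rw [h5δ] at hp ⊢
  have h7 := (abs_nonneg _).trans hp
  exact mul_le_mul_of_nonneg_right (min_le_left _ _) (nonneg_of_mul_nonneg_right h7 hmin)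

end Pool.Agent.N625.PT
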