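import Pool.Agent.N625.PT.R

set_option autoImplicit false

/-! The link between the two sums, and the principle for the primes `p` with `N - m p` prime. -/

namespace Pool.Agent.N625.PT
open Finset Polynomial
open Pool.Agent.H373R2.T7
open Pool.Agent.H373R2.T7.TB Pool.Agent.H373R2.T7.PB

/-- the multiples of `m` -/
lemma sum_mult (f : ℕ → ℝ) (h : ℤ → ℝ) (hh : ∀ v : ℤ, v ≤ 0 → h v = 0) (m N X : ℕ) (hm : 1 ≤ m) (hNX : N ≤ X) :
    ∑ j ∈ Icc 1 X, (if m ∣ j then f (j / m) else 0) * h ((N : ℤ) - j) = ∑ n ∈ Icc 1 N, f n * h ((N : ℤ) - m * n) := by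
  have e1 : ∑ j ∈ Icc 1 X, (if m ∣ j then f (j / m) else 0) * h ((N : ℤ) - j) =
      ∑ j ∈ (Icc 1 X).filter (fun j => m ∣ j ∧ j < N), f (j / m) * h ((N : ℤ) - j) := by
    rw [sum_filter]
    apply sum_congr rfl
    intro j _
    by_cases h1 : m ∣ j
    · by_cases h2 : j < N
      · rw [if_pos h1, if_pos ⟨h1, h2⟩]
      · rw [if_neg (fun h' : m ∣ j ∧ j < N => h2 h'.2), hh _ (by omega), mul_zero]
    · rw [if_neg h1, if_neg (fun h' : m ∣ j ∧ j < N => h1 h'.1), zero_mul]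
  have e2 : ∑ n ∈ Icc 1 N, f n * h ((N : ℤ) - m * n) = ∑ n ∈ (Icc 1 N).filter (fun n => m * n < N), f n * h ((N : ℤ) - m * n) := by
    rw [sum_filter]
    apply sum_congr rfl
    intro n _
    by_cases h2 : m * n < N
    · rw [if_pos h2]
    · have h3 : (N : ℤ) - m * n ≤ 0 := by
        have : (N : ℤ) ≤ ((m * n : ℕ) : ℤ) := by exact_mod_cast (by omega : N ≤ m * n)
        push_cast at this
        linarith
      rw [if_neg h2, hh _ h3, mul_zero]
  rw [e1, e2]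
  refine sum_nbij' (fun j => j / m) (fun n => m * n) ?_ ?_ ?_ ?_ ?_
  · intro j hj
    rw [mem_filter, mem_Icc] at hj
    obtain ⟨⟨h1, h2⟩, ⟨c, hc⟩, h4⟩ := hj
    subst hc
    try simp only
    rw [Nat.mul_div_cancel_left _ (by omega), mem_filter, mem_Icc]
    have h5 : c ≠ 0 := by
      intro h5
      rw [h5] at h1
      omega
    have h6 : c ≤ m * c := Nat.le_mul_of_pos_left _ (by omega)
    exact ⟨⟨by omega, by omega⟩, h4⟩
  · intro n hn
    rw [mem_filter, mem_Icc] at hn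
    try simp only
    rw [mem_filter, mem_Icc]
    have h6 : n ≤ m * n := Nat.le_mul_of_pos_left _ (by omega)
    exact ⟨⟨by omega, by omega⟩, dvd_mul_right _ _, hn.2⟩
  · intro j hj
    rw [mem_filter] at hj
    exact Nat.mul_div_cancel' hj.2.1
  · intro n _
    exact Nat.mul_div_cancel_left _ (by omega)
  · intro j hj
    rw [mem_filter] at hj
    try simp only
    have : ((j : ℕ) : ℤ) = (m : ℤ) * ((j / m : ℕ) : ℤ) := by
      exact_mod_cast (Nat.mul_div_cancel' hj.2.1).symm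
    rw [← this]

lemma lamI_np (v : ℤ) (h : v ≤ 0) : lamI v = 0 := by
  unfold lamI
  rw [if_neg (by omega)]

lemma lamP_np (v : ℤ) (h : v ≤ 0) : lamP v = 0 := by
  unfold lamP
  rw [Int.toNat_of_nonpos h, if_neg Nat.not_prime_zero]

lemma lamzI_np (z : ℕ) (v : ℤ) (h : v ≤ 0) : lamzI z v = 0 := by
  unfold lamzI
  rw [if_neg (by omega)]

/-- the prime powers -/
lemma swap_mult (f : ℕ → ℝ) (L : ℝ) (m N : ℕ) (hm : 1 ≤ m) (hN : 1 ≤ N) (hL : 0 ≤ L) (hf : ∀ n ∈ Icc 1 N, |f n| ≤ L) :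
    |∑ n ∈ Icc 1 N, f n * lamI ((N : ℤ) - m * n) - ∑ n ∈ Icc 1 N, f n * lamP ((N : ℤ) - m * n)| ≤ L * (2 * √(N : ℝ) * Real.log N) := by
  rw [← sum_sub_distrib]
  refine (abs_sum_le_sum_abs _ _).trans ?_
  have hnn : ∀ v : ℤ, 0 ≤ lamI v - lamP v := fun v => by linarith [lamP_le v]
  have h1 : ∀ n ∈ Icc 1 N, |f n * lamI ((N : ℤ) - m * n) - f n * lamP ((N : ℤ) - m * n)| ≤
      L * (1 * (lamI ((N : ℤ) - m * n) - lamP ((N : ℤ) - m * n))) := by
    intro n hn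
    rw [← mul_sub, abs_mul, abs_of_nonneg (hnn _), one_mul]
    exact mul_le_mul_of_nonneg_right (hf n hn) (hnn _)
  refine (sum_le_sum h1).trans ?_
  rw [← mul_sum]
  apply mul_le_mul_of_nonneg_left _ hL
  have h2 := sum_mult (fun _ => 1) (fun v => lamI v - lamP v) (fun v hv => by
    try simp only
    rw [lamI_np v hv, lamP_np v hv, sub_zero]) m N N hm le_rfl
  try simp only at h2
  rw [← h2]
  have h3 : ∑ j ∈ Icc 1 N, (if m ∣ j then (1 : ℝ) else 0) * (lamI ((N : ℤ) - j) - lamP ((N : ℤ) - j)) ≤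
      ∑ j ∈ Icc 1 N, (lamI ((N : ℤ) - j) - lamP ((N : ℤ) - j)) := by
    apply sum_le_sum
    intro j _
    have := hnn ((N : ℤ) - j)
    split_ifs <;> linarith
  refine h3.trans ?_
  have h4 := pp_sum N N 0 hN (by
    intro n hn
    rw [mem_Icc] at hn
    rw [add_zero]
    exact_mod_cast hn.2)
  simp only [add_zero] at h4
  refine le_trans ?_ h4
  have h5 : ∑ j ∈ Icc 1 N, (lamI ((N : ℤ) - j) - lamP ((N : ℤ) - j)) = ∑ j ∈ (Icc 1 N).filter (fun j => j < N), (lamI ((N : ℤ) - j) - lamP ((N : ℤ) - j)) := by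
    rw [sum_filter]
    apply sum_congr rfl
    intro j _
    by_cases h6 : j < N
    · rw [if_pos h6]
    · rw [if_neg h6, lamI_np _ (by omega), lamP_np _ (by omega), sub_zero]
  have h6 : ∑ n ∈ Icc 1 N, (lamI (n : ℤ) - lamP (n : ℤ)) ≥ ∑ n ∈ (Icc 1 N).filter (fun j => j < N), (lamI (n : ℤ) - lamP (n : ℤ)) := by
    apply sum_le_sum_of_subset_of_nonneg (filter_subset _ _)
    intro n _ _
    exact hnn _
  rw [h5]
  refine le_trans (le_of_eq ?_) h6
  refine sum_nbij' (fun j => N - j) (fun j => N - j) ?_ ?_ ?_ ?_ ?_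
  · intro j hj
    rw [mem_filter, mem_Icc] at hj
    try simp only
    rw [mem_filter, mem_Icc]
    omega
  · intro j hj
    rw [mem_filter, mem_Icc] at hj
    try simp only
    rw [mem_filter, mem_Icc]
    omega
  · intro j hj
    rw [mem_filter, mem_Icc] at hj
    try simp only
    omega
  · intro j hj
    rw [mem_filter, mem_Icc] at hj
    try simp only
    omega
  · intro j hj
    rw [mem_filter, mem_Icc] at hj
    try simp only
    rw [Nat.cast_sub (by omega)]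

/-- the parameters: the slope `m` and the level `y` -/
def AdP (J K T : ℕ) (X : ℕ) (a : ℕ × ℕ) : Prop := 1 ≤ a.1 ∧ (a.1 : ℝ) ≤ Real.log X ^ J ∧ a.2 ^ (2 * K) ≤ X ∧ X ≤ a.2 ^ T

/-- numerical relations between `X` and the integers `N` of size about `X` -/
lemma size_rel (W Bz J K T V : ℕ) (hK : 1 ≤ K) (n₀ : ℕ) : ∃ X₀ : ℕ, ∀ X : ℕ, X₀ ≤ X → ∀ N : ℕ, (X : ℝ) / Real.log X ^ W ≤ N → N ≤ X →
    4 ≤ Real.log N ∧ n₀ ≤ N ∧ Real.log N ≤ Real.log X ∧ Real.log X ≤ 2 * Real.log N ∧ Real.log X ^ J ≤ Real.log N ^ (J + 1) ∧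
    (∀ y : ℕ, y ^ (2 * K) ≤ X → y ^ K ≤ N) ∧ Real.log X ^ (Bz + 3) ≤ Real.log N ^ (Bz + 4) ∧
    (X : ℝ) / Real.log X ^ (V + W + 1) + Real.log N * (2 * √(N : ℝ) * Real.log N) ≤ N / Real.log N ^ V ∧
    (∀ z y : ℕ, (z : ℝ) ≤ Real.log X ^ (Bz + 3) → X ≤ y ^ T → z ≤ y) := by
  obtain ⟨x1, h1⟩ := ev_L' (8 + n₀ + 2 ^ (J + Bz + 4))
  obtain ⟨x2, h2⟩ := ev_log' (W + 1) 1
  obtain ⟨x3, h3⟩ := ev_log' ((Bz + 3) * (T + 1)) 1
  obtain ⟨x4, h4⟩ := ev_log' (2 * V + 2 * W + 10) 8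
  refine ⟨x1 + x2 + x3 + x4 + 3, fun X hX N hN1 hN2 => ?_⟩
  have a1 := h1 X (by omega)
  have a2 := h2 X (by omega)
  have a3 := h3 X (by omega)
  have a4 := h4 X (by omega)
  rw [one_mul] at a2 a3
  have hX0 : (0 : ℝ) < X := by exact_mod_cast (by omega : 0 < X)
  have hX1 : (1 : ℝ) ≤ X := by exact_mod_cast (by omega : 1 ≤ X)
  obtain ⟨L, hL⟩ : ∃ L, L = Real.log (X : ℝ) := ⟨_, rfl⟩
  rw [← hL] at a1 a2 a3 a4 hN1
  have hn0 : (0 : ℝ) ≤ n₀ := Nat.cast_nonneg _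
  have h2p : (0 : ℝ) < 2 ^ (J + Bz + 4) := by positivity
  have hL8 : 8 ≤ L := by linarith
  have hL1 : 1 ≤ L := by linarith
  have hL0 : 0 < L := by linarith
  have hsq : √(X : ℝ) * √(X : ℝ) = X := Real.mul_self_sqrt hX0.le
  have hs0 : 0 < √(X : ℝ) := Real.sqrt_pos.2 hX0
  have hs1 : 1 ≤ √(X : ℝ) := by rw [show (1 : ℝ) = √1 by simp]; exact Real.sqrt_le_sqrt hX1
  have hNs : √(X : ℝ) * L ≤ N := by
    refine le_trans ?_ hN1
    rw [le_div_iff₀ (by positivity)]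
    calc √(X : ℝ) * L * L ^ W = √(X : ℝ) * L ^ (W + 1) := by rw [pow_succ]; ring
      _ ≤ √(X : ℝ) * √(X : ℝ) := mul_le_mul_of_nonneg_left a2 hs0.le
      _ = X := hsq
  have hNs' : √(X : ℝ) ≤ N := le_trans (le_mul_of_one_le_right hs0.le hL1) hNs
  have hN0 : (0 : ℝ) < N := lt_of_lt_of_le hs0 hNs'
  have hN2r : (N : ℝ) ≤ X := by exact_mod_cast hN2
  obtain ⟨l, hl⟩ : ∃ l, l = Real.log (N : ℝ) := ⟨_, rfl⟩
  have hlL : l ≤ L := by rw [hl, hL]; exact Real.log_le_log hN0 hN2r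
  have hLl : L ≤ 2 * l := by
    have := Real.log_le_log hs0 hNs'
    rw [Real.log_sqrt hX0.le, ← hL, ← hl] at this
    linarith
  rw [← hl]
  have hl4 : 4 ≤ l := by linarith
  have hl0 : 0 < l := by linarith
  have h2l : ∀ j : ℕ, j ≤ J + Bz + 3 → L ^ j ≤ l ^ (j + 1) := by
    intro j hj
    calc L ^ j ≤ (2 * l) ^ j := pow_le_pow_left₀ hL0.le hLl j
      _ = 2 ^ j * l ^ j := mul_pow _ _ _
      _ ≤ l * l ^ j := by
          apply mul_le_mul_of_nonneg_right _ (by positivity)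
          have h5 : (2 : ℝ) ^ (j + 1) ≤ 2 ^ (J + Bz + 4) := pow_le_pow_right₀ (by norm_num) (by omega)
          rw [pow_succ] at h5
          linarith
      _ = l ^ (j + 1) := by rw [pow_succ]; ring
  refine ⟨hl4, ?_, by rw [← hL]; exact hlL, by rw [← hL]; exact hLl, by rw [← hL]; exact h2l J (by omega), ?_, ?_, ?_, ?_⟩
  · have h5 : (n₀ : ℝ) ≤ N := by
      have : L ≤ √(X : ℝ) * L := le_mul_of_one_le_left hL0.le hs1
      linarith
    exact_mod_cast h5
  · intro y hy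
    have h5 : ((y : ℝ) ^ K) ^ 2 ≤ X := by
      rw [← pow_mul, mul_comm K 2]
      exact_mod_cast hy
    have h6 : (y : ℝ) ^ K ≤ √(X : ℝ) := Real.le_sqrt_of_sq_le h5
    exact_mod_cast h6.trans hNs'
  · rw [← hL]; exact h2l (Bz + 3) (by omega)
  · rw [← hL]
    have h5 : (X : ℝ) / L ^ (V + W + 1) ≤ (1 / 2) * (N / l ^ V) := by
      have h6 : (X : ℝ) ≤ N * L ^ W := by
        rw [div_le_iff₀ (by positivity)] at hN1
        exact hN1
      have h7 : l ^ V ≤ L ^ V := pow_le_pow_left₀ hl0.le hlL _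
      rw [div_le_iff₀ (by positivity)]
      calc (X : ℝ) ≤ N * L ^ W := h6
        _ = N * L ^ W * 1 := (mul_one _).symm
        _ ≤ N * L ^ W * (1 / 2 * L) := by
            apply mul_le_mul_of_nonneg_left _ (by positivity)
            linarith
        _ = (1 / 2) * (N / L ^ V) * L ^ (V + W + 1) := by
            rw [show V + W + 1 = V + (W + 1) by ring, pow_add L V, pow_succ]
            field_simp
        _ ≤ (1 / 2) * (N / l ^ V) * L ^ (V + W + 1) := by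
            gcongr
    have h8 : l * (2 * √(N : ℝ) * l) ≤ (1 / 2) * (N / l ^ V) := by
      have h9 : √(N : ℝ) * √(N : ℝ) = N := Real.mul_self_sqrt hN0.le
      have h10 : 0 < √(N : ℝ) := Real.sqrt_pos.2 hN0
      have h11 : 4 * l ^ (V + 2) ≤ √(N : ℝ) := by
        apply Real.le_sqrt_of_sq_le
        calc (4 * l ^ (V + 2)) ^ 2 = 16 * l ^ (2 * V + 4) := by rw [mul_pow, ← pow_mul, show (V + 2) * 2 = 2 * V + 4 by ring]; norm_num
          _ ≤ 16 * L ^ (2 * V + 4) := by gcongr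
          _ ≤ 16 * L ^ (2 * V + 2 * W + 9) := by
              apply mul_le_mul_of_nonneg_left _ (by norm_num)
              exact pow_le_pow_right₀ hL1 (by omega)
          _ ≤ 8 * L ^ (2 * V + 2 * W + 10) := by
              rw [pow_succ L (2 * V + 2 * W + 9)]
              have : 0 < L ^ (2 * V + 2 * W + 9) := by positivity
              nlinarith
          _ ≤ √(X : ℝ) := a4
          _ ≤ N := hNs'
      rw [mul_div_assoc', le_div_iff₀ (by positivity)]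
      calc l * (2 * √(N : ℝ) * l) * l ^ V = (1 / 2) * (√(N : ℝ) * (4 * l ^ (V + 2))) := by rw [pow_add]; ring
        _ ≤ (1 / 2) * (√(N : ℝ) * √(N : ℝ)) := by gcongr
        _ = 1 / 2 * N := by rw [h9]
    linarith
  · intro z y hz hy
    rw [← hL] at hz
    by_contra hcon
    push Not at hcon
    have h5 : (y : ℝ) ^ (T + 1) ≤ (z : ℝ) ^ (T + 1) := pow_le_pow_left₀ (Nat.cast_nonneg _) (by exact_mod_cast hcon.le) _
    have h6 : (z : ℝ) ^ (T + 1) ≤ √(X : ℝ) := by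
      calc (z : ℝ) ^ (T + 1) ≤ (L ^ (Bz + 3)) ^ (T + 1) := pow_le_pow_left₀ (Nat.cast_nonneg _) hz _
        _ = L ^ ((Bz + 3) * (T + 1)) := by rw [← pow_mul]
        _ ≤ √(X : ℝ) := a3
    have hy1 : 1 ≤ y := by
      rcases Nat.eq_zero_or_pos y with h | h
      · rw [h] at hy
        rcases Nat.eq_zero_or_pos T with hT | hT
        · rw [hT, pow_zero] at hy
          omega
        · rw [zero_pow (by omega)] at hy
          omega
      · exact h
    have h7 : (X : ℝ) ≤ (y : ℝ) ^ (T + 1) := by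
      have h8 : (X : ℝ) ≤ (y : ℝ) ^ T := by exact_mod_cast hy
      refine h8.trans ?_
      exact pow_le_pow_right₀ (by exact_mod_cast hy1) (by omega)
    have h8 : √(X : ℝ) < X := by
      have h9 : 2 ≤ √(X : ℝ) := by
        have : L ^ (W + 1) ≥ L := by
          calc L = L ^ 1 := (pow_one L).symm
            _ ≤ L ^ (W + 1) := pow_le_pow_right₀ hL1 (by omega)
        linarith
      nlinarith
    linarith

/-- the principle for the primes `p` with `N - m p` prime -/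
theorem det_P (D : ℕ) (ε : ℝ) (hε : 0 < ε) : ∃ K : ℕ, 1 ≤ K ∧ ∀ (g : ℕ) (F : Fin g → ℤ[X]), (∀ i, 1 ≤ (F i).natDegree) →
    (∀ i, 0 < (F i).leadingCoeff) → ∑ i, (F i).natDegree + 1 ≤ D → ∀ J T : ℕ, ∀ P : ℕ × ℕ → ℕ → Prop,
    (∃ n₀ : ℕ, ∀ N : ℕ, n₀ ≤ N → ∀ m z y : ℕ, 1 ≤ m → (m : ℝ) ≤ Real.log N ^ (J + 1) → Real.log N ^ (J + 3) ≤ z → z ≤ y → y ^ K ≤ N → N ≤ y ^ T →
      (NoFixed (PArg.eF F) (C (m : ℤ) * X) N →
        |WP F (C (m : ℤ) * X) N y N - TP F (C (m : ℤ) * X) N z y N| ≤ ε * TP F (C (m : ℤ) * X) N z y N) → P (m, y) N) →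
    Det (AdP J K T) P := by
  obtain ⟨K, hK, hdet⟩ := det_one D ε hε
  refine ⟨K, hK, fun g F hF hFl hD J T P ⟨n₀, hP⟩ W => ?_⟩
  obtain ⟨V, hV⟩ := hdet (J + 1)
  refine ⟨V + W + 1, 1, fun Bz0 => ?_⟩
  obtain ⟨Bz, hBz⟩ : ∃ Bz, Bz = Bz0 + J + 3 := ⟨_, rfl⟩
  obtain ⟨x0, h0⟩ := hV (Bz + 4)
  obtain ⟨X₀, h1⟩ := size_rel W Bz J K T V hK (n₀ + x0)
  obtain ⟨X₁, h2⟩ := ev_L' 2
  refine ⟨Bz + 3, X₀ + X₁ + 1, fun X hX a hAd => ?_⟩
  obtain ⟨m, y⟩ := a
  obtain ⟨hm, hmJ, hyK, hyT⟩ := hAd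
  simp only at hm hmJ hyK hyT
  have hLX := h2 X (by omega)
  obtain ⟨L, hL⟩ : ∃ L, L = Real.log (X : ℝ) := ⟨_, rfl⟩
  rw [← hL] at hLX
  have hL0 : 0 < L := by linarith
  have hL1 : 1 ≤ L := by linarith
  obtain ⟨z, hz⟩ : ∃ z, z = ⌈L ^ (Bz + 2)⌉₊ := ⟨_, rfl⟩
  have hz1 : L ^ (Bz + 2) ≤ z := by rw [hz]; exact Nat.le_ceil _
  have hz2 : (z : ℝ) ≤ L ^ (Bz + 3) := by
    have h5 : (z : ℝ) < L ^ (Bz + 2) + 1 := by rw [hz]; exact Nat.ceil_lt_add_one (by positivity)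
    have h6 : 1 ≤ L ^ (Bz + 2) := one_le_pow₀ hL1
    calc (z : ℝ) ≤ L ^ (Bz + 2) + 1 := h5.le
      _ ≤ L ^ (Bz + 2) * 2 := by linarith
      _ ≤ L ^ (Bz + 2) * L := mul_le_mul_of_nonneg_left hLX (by positivity)
      _ = L ^ (Bz + 3) := by rw [← pow_succ]
  have hX0 : (0 : ℝ) < X := by exact_mod_cast (by omega : 0 < X)
  have hfX : ∀ n : ℕ, 1 ≤ n → n ≤ X → |lamP (n : ℤ) * rw1 F y n| ≤ L := by
    intro n hn1 hn2
    rw [abs_of_nonneg (mul_nonneg (lamP_nonneg _) (rw1_nonneg F y n))]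
    have h6 : lamP (n : ℤ) ≤ L := by
      unfold lamP
      rw [Int.toNat_natCast, hL]
      split_ifs
      · exact Real.log_le_log (by exact_mod_cast hn1) (by exact_mod_cast hn2)
      · rw [← hL]; linarith
    calc lamP (n : ℤ) * rw1 F y n ≤ lamP (n : ℤ) * 1 := mul_le_mul_of_nonneg_left (rw1_le F y n) (lamP_nonneg _)
      _ ≤ L := by rw [mul_one]; exact h6
  refine ⟨z, fun j => if m ∣ j then lamP ((j / m : ℕ) : ℤ) * rw1 F y (j / m) else 0, ?_, by rw [← hL]; exact hz2, ?_, ?_⟩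
  · rw [← hL]
    exact le_trans (pow_le_pow_right₀ hL1 (by omega)) hz1
  · intro j hj
    rw [mem_Icc] at hj
    rw [← hL, pow_one]
    beta_reduce
    split_ifs with hd
    · obtain ⟨c, hc⟩ := hd
      have hc1 : 1 ≤ c := by
        rcases Nat.eq_zero_or_pos c with h | h
        · rw [h] at hc
          omega
        · exact h
      have hc2 : c ≤ m * c := Nat.le_mul_of_pos_left _ (by omega)
      rw [hc, Nat.mul_div_cancel_left _ (by omega)]
      exact hfX c hc1 (by omega)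
    · rw [abs_zero]
      linarith
  · intro N hN1 hN2 hsum
    obtain ⟨b1, b2, b3, b4, b5, b6, b7, b8, b9⟩ := h1 X (by omega) N hN1 hN2
    rw [← hL] at b3 b4 b5 b7 b8 b9 hmJ hsum
    have hN1' : 1 ≤ N := by
      rcases Nat.eq_zero_or_pos N with h | h
      · rw [h] at b1
        norm_num at b1
      · exact h
    have hzN : Real.log N ^ (J + 3) ≤ z := by
      calc Real.log N ^ (J + 3) ≤ L ^ (J + 3) := pow_le_pow_left₀ (by linarith) b3 _
        _ ≤ L ^ (Bz + 2) := pow_le_pow_right₀ hL1 (by omega)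
        _ ≤ z := hz1
    have hzN' : Real.log N ≤ z := by
      refine le_trans ?_ hzN
      calc Real.log N = Real.log N ^ 1 := (pow_one _).symm
        _ ≤ Real.log N ^ (J + 3) := pow_le_pow_right₀ (by linarith) (by omega)
    have hzy : z ≤ y := b9 z y hz2 hyT
    have hmN : (m : ℝ) ≤ Real.log N ^ (J + 1) := hmJ.trans b5
    have hyK' := b6 y hyK
    refine hP N (by omega) m z y hm hmN hzN hzy hyK' (hN2.trans hyT) ?_
    intro hNF
    refine h0 N (by omega) g F hF hFl hD m hm hmN z y hzN' (hz2.trans b7) hzy hyK' hNF ?_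
    have e1 := sum_mult (fun n => lamP (n : ℤ) * rw1 F y n) (fun v => lamI v - lamzI z v) (fun v hv => by
      try simp only
      rw [lamI_np v hv, lamzI_np z v hv, sub_zero]) m N X hm hN2
    try simp only at e1
    try simp only at hsum
    rw [e1] at hsum
    have e2 := swap_mult (fun n => lamP (n : ℤ) * rw1 F y n) (Real.log N) m N hm hN1' (by linarith) (by
      intro n hn
      rw [mem_Icc] at hn
      rw [abs_of_nonneg (mul_nonneg (lamP_nonneg _) (rw1_nonneg F y n))]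
      have h6 : lamP (n : ℤ) ≤ Real.log N := by
        unfold lamP
        rw [Int.toNat_natCast]
        split_ifs
        · exact Real.log_le_log (by exact_mod_cast hn.1) (by exact_mod_cast hn.2)
        · linarith
      calc lamP (n : ℤ) * rw1 F y n ≤ lamP (n : ℤ) * 1 := mul_le_mul_of_nonneg_left (rw1_le F y n) (lamP_nonneg _)
        _ ≤ Real.log N := by rw [mul_one]; exact h6)
    try simp only at e2
    simp only [GG_ev]
    refine le_trans ?_ b8
    have e3 : ∑ n ∈ Icc 1 N, lamP (n : ℤ) * rw1 F y n * (lamP ((N : ℤ) - m * n) - lamzI z ((N : ℤ) - m * n)) =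
        ∑ n ∈ Icc 1 N, lamP (n : ℤ) * rw1 F y n * (lamI ((N : ℤ) - m * n) - lamzI z ((N : ℤ) - m * n)) -
        (∑ n ∈ Icc 1 N, lamP (n : ℤ) * rw1 F y n * lamI ((N : ℤ) - m * n) - ∑ n ∈ Icc 1 N, lamP (n : ℤ) * rw1 F y n * lamP ((N : ℤ) - m * n)) := by
      rw [← sum_sub_distrib, ← sum_sub_distrib]
      apply sum_congr rfl
      intro n _
      ring
    rw [e3]
    refine (abs_sub _ _).trans ?_
    exact add_le_add hsum e2

end Pool.Agent.N625.PT
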