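import Pool.Agent.N625.PT.S

set_option autoImplicit false

/-! The local factors at the large primes. -/

namespace Pool.Agent.N625.PT
open Finset Polynomial
open Pool.Agent.H373R2.T7
open Pool.Agent.H373R2.T7.TB Pool.Agent.H373R2.T7.PB

variable {g : ℕ}

/-- products of nearly equal factors -/
lemma prod_near (S : Finset ℕ) (A B u : ℕ → ℝ) (hA : ∀ i ∈ S, 0 ≤ A i) (hu0 : ∀ i ∈ S, 0 ≤ u i)
    (hu1 : ∀ i ∈ S, u i ≤ 1) (h1 : ∀ i ∈ S, (1 - u i) * A i ≤ B i) (h2 : ∀ i ∈ S, B i ≤ (1 + u i) * A i) :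
    0 ≤ ∏ i ∈ S, B i ∧ (1 - ∑ i ∈ S, u i) * ∏ i ∈ S, A i ≤ ∏ i ∈ S, B i ∧ ∏ i ∈ S, B i ≤ Real.exp (∑ i ∈ S, u i) * ∏ i ∈ S, A i := by
  induction S using Finset.induction_on with
  | empty => simp
  | insert a s ha ih =>
    rw [prod_insert ha, prod_insert ha, sum_insert ha]
    obtain ⟨i0, i1, i2⟩ := ih (fun i hi => hA i (mem_insert_of_mem hi)) (fun i hi => hu0 i (mem_insert_of_mem hi))
      (fun i hi => hu1 i (mem_insert_of_mem hi)) (fun i hi => h1 i (mem_insert_of_mem hi)) (fun i hi => h2 i (mem_insert_of_mem hi))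
    have a0 := hA a (mem_insert_self a s)
    have a1 := hu0 a (mem_insert_self a s)
    have a2 := hu1 a (mem_insert_self a s)
    have a3 := h1 a (mem_insert_self a s)
    have a4 := h2 a (mem_insert_self a s)
    have s0 : 0 ≤ ∑ i ∈ s, u i := sum_nonneg fun i hi => hu0 i (mem_insert_of_mem hi)
    have p0 : 0 ≤ ∏ i ∈ s, A i := prod_nonneg fun i hi => hA i (mem_insert_of_mem hi)
    generalize ∏ i ∈ s, A i = PA at *
    generalize ∏ i ∈ s, B i = PB at *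
    generalize ∑ i ∈ s, u i = σ at *
    have b0 : 0 ≤ (1 - u a) * A a := mul_nonneg (by linarith) a0
    have bB : 0 ≤ B a := b0.trans a3
    refine ⟨mul_nonneg bB i0, ?_, ?_⟩
    · calc (1 - (u a + σ)) * (A a * PA) ≤ ((1 - u a) * (1 - σ)) * (A a * PA) := by
            apply mul_le_mul_of_nonneg_right _ (mul_nonneg a0 p0)
            nlinarith [mul_nonneg a1 s0]
        _ = ((1 - u a) * A a) * ((1 - σ) * PA) := by ring
        _ ≤ ((1 - u a) * A a) * PB := mul_le_mul_of_nonneg_left i1 b0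
        _ ≤ B a * PB := mul_le_mul_of_nonneg_right a3 i0
    · rw [Real.exp_add]
      have e1 : 1 + u a ≤ Real.exp (u a) := by
        have := Real.add_one_le_exp (u a)
        linarith
      calc B a * PB ≤ ((1 + u a) * A a) * (Real.exp σ * PA) := mul_le_mul a4 i2 i0 (mul_nonneg (by linarith) a0)
        _ = (1 + u a) * (A a * (Real.exp σ * PA)) := by ring
        _ ≤ Real.exp (u a) * (A a * (Real.exp σ * PA)) := by
            apply mul_le_mul_of_nonneg_right e1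
            exact mul_nonneg a0 (mul_nonneg (Real.exp_pos _).le p0)
        _ = _ := by ring

/-- the values of the homogenized polynomials -/
lemma scale_bounds (f : ℤ[X]) (hf : 1 ≤ f.natDegree) (hl : 0 < f.leadingCoeff) (J : ℕ) : ∃ A n₀ : ℕ, 1 ≤ A ∧ ∀ N : ℕ, n₀ ≤ N →
    ∀ m : ℕ, 1 ≤ m → (m : ℝ) ≤ Real.log N ^ J →
    0 < (f.scaleRoots (m : ℤ)).eval (N : ℤ) ∧ (f.scaleRoots (m : ℤ)).eval (N : ℤ) ≤ (A : ℤ) * (N : ℤ) ^ f.natDegree := by
  obtain ⟨d, hd⟩ : ∃ d, f.natDegree = d + 1 := ⟨f.natDegree - 1, by omega⟩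
  obtain ⟨S, hS⟩ : ∃ S : ℕ, S = ∑ i ∈ range (d + 1), (f.coeff i).natAbs := ⟨_, rfl⟩
  obtain ⟨n₀, h0⟩ := ev_log' (J * (d + 1)) (S + 1)
  refine ⟨f.leadingCoeff.natAbs + 1, n₀ + 1, by omega, fun N hN m hm hmJ => ?_⟩
  have a0 := h0 N (by omega)
  have hN1 : 1 ≤ N := by omega
  have hNr : (1 : ℝ) ≤ N := by exact_mod_cast hN1
  have hSm : (S + 1) * m ^ (d + 1) ≤ N := by
    have h1 : ((S : ℝ) + 1) * (m : ℝ) ^ (d + 1) ≤ N := by
      calc ((S : ℝ) + 1) * (m : ℝ) ^ (d + 1) ≤ (S + 1) * (Real.log N ^ J) ^ (d + 1) := by gcongr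
        _ = (S + 1) * Real.log N ^ (J * (d + 1)) := by rw [← pow_mul]
        _ ≤ √(N : ℝ) := a0
        _ ≤ N := by
          rw [Real.sqrt_le_left (by linarith)]
          nlinarith
    exact_mod_cast h1
  have hSm' : (S : ℤ) * (m : ℤ) ^ (d + 1) ≤ N - 1 := by
    have h1 : 1 ≤ m ^ (d + 1) := Nat.one_le_pow _ _ hm
    have h2 : S * m ^ (d + 1) + 1 ≤ N := by nlinarith
    have h3 : ((S * m ^ (d + 1) + 1 : ℕ) : ℤ) ≤ N := by exact_mod_cast h2
    push_cast at h3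
    linarith
  rw [eval_eq_sum_range, natDegree_scaleRoots, hd, sum_range_succ]
  simp only [coeff_scaleRoots]
  rw [hd]
  have htop : f.coeff (d + 1) * (m : ℤ) ^ (d + 1 - (d + 1)) * (N : ℤ) ^ (d + 1) = f.leadingCoeff * (N : ℤ) ^ (d + 1) := by
    rw [Nat.sub_self, pow_zero, mul_one, leadingCoeff, hd]
  rw [htop]
  have hmz : (1 : ℤ) ≤ m := by exact_mod_cast hm
  have hNz : (1 : ℤ) ≤ N := by exact_mod_cast hN1
  have hrest : |∑ i ∈ range (d + 1), f.coeff i * (m : ℤ) ^ (d + 1 - i) * (N : ℤ) ^ i| ≤ (N - 1) * (N : ℤ) ^ d := by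
    refine (abs_sum_le_sum_abs _ _).trans ?_
    have h1 : ∀ i ∈ range (d + 1), |f.coeff i * (m : ℤ) ^ (d + 1 - i) * (N : ℤ) ^ i| ≤ ((f.coeff i).natAbs : ℤ) * ((m : ℤ) ^ (d + 1) * (N : ℤ) ^ d) := by
      intro i hi
      rw [mem_range] at hi
      rw [abs_mul, abs_mul, Int.abs_eq_natAbs (f.coeff i), abs_of_nonneg (by positivity), abs_of_nonneg (by positivity), mul_assoc]
      apply mul_le_mul_of_nonneg_left _ (Int.natCast_nonneg _)
      apply mul_le_mul (pow_le_pow_right₀ hmz (by omega)) (pow_le_pow_right₀ hNz (by omega)) (by positivity) (by positivity)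
    refine (sum_le_sum h1).trans ?_
    rw [← sum_mul, ← mul_assoc]
    apply mul_le_mul_of_nonneg_right _ (by positivity)
    have h2 : ∑ i ∈ range (d + 1), ((f.coeff i).natAbs : ℤ) = S := by
      rw [hS]
      push_cast
      rfl
    rw [h2]
    exact hSm'
  rw [abs_le] at hrest
  have hl1 : (1 : ℤ) ≤ f.leadingCoeff := by omega
  have hpow : (N : ℤ) ^ (d + 1) = N * (N : ℤ) ^ d := by rw [pow_succ]; ring
  have hNd : 0 < (N : ℤ) ^ d := by positivity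
  have hlc : ((f.leadingCoeff.natAbs : ℕ) : ℤ) = f.leadingCoeff := by omega
  generalize ∑ i ∈ range (d + 1), f.coeff i * (m : ℤ) ^ (d + 1 - i) * (N : ℤ) ^ i = R at *
  constructor
  · have h1 : (N : ℤ) ^ (d + 1) ≤ f.leadingCoeff * (N : ℤ) ^ (d + 1) := le_mul_of_one_le_left (by positivity) hl1
    nlinarith [hrest.1]
  · have h1 : ((f.leadingCoeff.natAbs + 1 : ℕ) : ℤ) = f.leadingCoeff + 1 := by rw [Nat.cast_add, Nat.cast_one, hlc]
    rw [h1, add_mul, one_mul]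
    nlinarith [hrest.2]

/-- few prime divisors -/
lemma few_primes (H : ℤ) (hH : 0 < H) (z y : ℕ) : 2 ^ ((Ioc z y).filter (fun p : ℕ => p.Prime ∧ (p : ℤ) ∣ H)).card ≤ H.toNat := by
  obtain ⟨n, hn⟩ : ∃ n : ℕ, (n : ℤ) = H := ⟨H.toNat, Int.toNat_of_nonneg hH.le⟩
  rw [← hn] at hH ⊢
  rw [Int.toNat_natCast]
  have hn0 : 0 < n := by exact_mod_cast hH
  have h1 : ∏ p ∈ (Ioc z y).filter (fun p : ℕ => p.Prime ∧ (p : ℤ) ∣ (n : ℤ)), p ∣ n := by
    apply Finset.prod_primes_dvd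
    · intro p hp
      rw [mem_filter] at hp
      exact Nat.prime_iff.1 hp.2.1
    · intro p hp
      rw [mem_filter] at hp
      exact_mod_cast hp.2.2
  refine le_trans ?_ (Nat.le_of_dvd hn0 h1)
  apply Finset.pow_card_le_prod
  intro p hp
  rw [mem_filter] at hp
  exact hp.2.1.two_le

/-- the numbers of residues at the primes which do not divide the slope -/
lemma omega_cases (F : Fin g → ℤ[X]) (m N p : ℕ) (hp : p.Prime) (hpm : ¬ p ∣ m) :
    omegaN F (C (m : ℤ) * X) N p ≤ omegaF F p + 1 ∧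
    (¬ (p : ℤ) ∣ ∏ i, ((F i).scaleRoots (m : ℤ)).eval (N : ℤ) → omegaN F (C (m : ℤ) * X) N p = omegaF F p + 1) := by
  classical
  have hpp : Prime (p : ℤ) := Nat.prime_iff_prime_int.1 hp
  have hpm' : ¬ (p : ℤ) ∣ (m : ℤ) := fun h => hpm (by exact_mod_cast h)
  obtain ⟨E, hE⟩ : ∃ E, E = (range p).filter (fun r : ℕ => (p : ℤ) ∣ (N : ℤ) - m * r ∧ ¬ (p : ℤ) ∣ ∏ i, (F i).eval (r : ℤ)) := ⟨_, rfl⟩
  have h1 : omegaN F (C (m : ℤ) * X) N p = omegaF F p + E.card := by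
    unfold omegaN omegaF
    rw [← card_union_of_disjoint]
    · congr 1
      ext r
      rw [mem_union, mem_filter, mem_filter, hE, mem_filter, GG_ev]
      constructor
      · rintro ⟨h1, h2⟩
        by_cases h3 : (p : ℤ) ∣ ∏ i, (F i).eval (r : ℤ)
        · exact Or.inl ⟨h1, h3⟩
        · exact Or.inr ⟨h1, (hpp.dvd_or_dvd h2).resolve_left h3, h3⟩
      · rintro (⟨h1, h2⟩ | ⟨h1, h2, _⟩)
        · exact ⟨h1, Dvd.dvd.mul_right h2 _⟩
        · exact ⟨h1, Dvd.dvd.mul_left h2 _⟩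
    · rw [disjoint_left]
      intro r hr hr2
      rw [mem_filter] at hr
      rw [hE, mem_filter] at hr2
      exact hr2.2.2 hr.2
  have h2 : E.card ≤ 1 := by
    rw [card_le_one]
    intro r hr s hs
    rw [hE, mem_filter, mem_range] at hr hs
    have h3 : (p : ℤ) ∣ (m : ℤ) * ((r : ℤ) - s) := by
      have := dvd_sub hs.2.1 hr.2.1
      have e : (N : ℤ) - m * s - (N - m * r) = m * ((r : ℤ) - s) := by ring
      rwa [e] at this
    have h4 := (hpp.dvd_or_dvd h3).resolve_left hpm'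
    have h5 : ((r : ℤ) - s) = 0 := by
      apply Int.eq_zero_of_abs_lt_dvd h4
      rw [abs_lt]
      constructor <;> omega
    omega
  refine ⟨by omega, fun hgood => ?_⟩
  have h3 : 1 ≤ E.card := by
    rw [Nat.one_le_iff_ne_zero, ← Nat.pos_iff_ne_zero, card_pos]
    have := Fact.mk hp
    have hm0 : (m : ZMod p) ≠ 0 := by
      intro h
      exact hpm ((ZMod.natCast_eq_zero_iff _ _).1 h)
    refine ⟨((N : ZMod p) * (m : ZMod p)⁻¹).val, ?_⟩
    obtain ⟨r, hr⟩ : ∃ r, r = ((N : ZMod p) * (m : ZMod p)⁻¹).val := ⟨_, rfl⟩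
    have hr1 : (r : ZMod p) = (N : ZMod p) * (m : ZMod p)⁻¹ := by
      rw [hr, ZMod.natCast_zmod_val]
    have hr2 : (p : ℤ) ∣ (N : ℤ) - m * r := by
      rw [← ZMod.intCast_zmod_eq_zero_iff_dvd]
      push_cast
      rw [hr1]
      field_simp
      ring
    rw [← hr, hE, mem_filter, mem_range]
    refine ⟨by rw [hr]; exact ZMod.val_lt _, hr2, ?_⟩
    intro hd
    obtain ⟨i, _, hi⟩ := (Prime.dvd_finsetProd_iff hpp _).1 hd
    apply hgood
    refine dvd_trans ?_ (dvd_prod_of_mem (fun i => ((F i).scaleRoots (m : ℤ)).eval (N : ℤ)) (mem_univ i))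
    have e1 := scaleRoots_eval_mul (F i) (r : ℤ) (m : ℤ)
    have e2 : (p : ℤ) ∣ ((F i).scaleRoots (m : ℤ)).eval ((m : ℤ) * r) := by
      rw [e1]
      exact Dvd.dvd.mul_left hi _
    have e3 : ((N : ℤ) - m * r) ∣ ((F i).scaleRoots (m : ℤ)).eval (N : ℤ) - ((F i).scaleRoots (m : ℤ)).eval ((m : ℤ) * r) :=
      sub_dvd_eval_sub _ _ _
    exact (dvd_iff_dvd_of_dvd_sub (hr2.trans e3)).2 e2
  omega

/-- few roots -/
lemma omegaF_le (F : Fin g → ℤ[X]) (G : ℤ[X]) (N p D : ℕ) (hp : p.Prime) (hNF : NoFixed F G N) (hD : ∑ i, (F i).natDegree ≤ D) :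
    omegaF F p ≤ D := by
  classical
  have hpp : Prime (p : ℤ) := Nat.prime_iff_prime_int.1 hp
  obtain ⟨n, hn⟩ := hNF p hp
  have hnF : ∀ i, ¬ (p : ℤ) ∣ (F i).eval n := by
    intro i hi
    apply hn
    apply Dvd.dvd.mul_right
    exact dvd_trans hi (dvd_prod_of_mem (fun i => (F i).eval n) (mem_univ i))
  have h1 : omegaF F p ≤ (univ.biUnion (fun i : Fin g => (range p).filter (fun r : ℕ => (p : ℤ) ∣ (F i).eval (r : ℤ)))).card := by
    unfold omegaF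
    apply card_le_card
    intro r hr
    rw [mem_filter] at hr
    obtain ⟨i, _, hi⟩ := (Prime.dvd_finsetProd_iff hpp _).1 hr.2
    rw [mem_biUnion]
    exact ⟨i, mem_univ _, mem_filter.2 ⟨hr.1, hi⟩⟩
  refine h1.trans (card_biUnion_le.trans (le_trans ?_ hD))
  exact sum_le_sum fun i _ => roots_nz (F i) p hp ⟨n, hnF i⟩

/-- the numerical comparison of a factor -/
lemma fac_cmp (p w wN D : ℕ) (bad : Prop) [Decidable bad] (hp : 4 * D + 4 ≤ p) (hw : w ≤ D) (h1 : w ≤ wN) (h2 : wN ≤ w + 1)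
    (h3 : ¬ bad → wN = w + 1) :
    0 ≤ 1 - (w : ℝ) / p ∧ 0 ≤ (if bad then 2 / (p : ℝ) else 4 * D / (p : ℝ) ^ 2) ∧ (if bad then 2 / (p : ℝ) else 4 * D / (p : ℝ) ^ 2) ≤ 1 ∧
    (1 - (if bad then 2 / (p : ℝ) else 4 * D / (p : ℝ) ^ 2)) * (1 - (w : ℝ) / p) ≤ (1 - (wN : ℝ) / p) / (1 - 1 / (p : ℝ)) ∧
    (1 - (wN : ℝ) / p) / (1 - 1 / (p : ℝ)) ≤ (1 + (if bad then 2 / (p : ℝ) else 4 * D / (p : ℝ) ^ 2)) * (1 - (w : ℝ) / p) := by
  have hpr : 4 * (D : ℝ) + 4 ≤ p := by exact_mod_cast hp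
  have hD0 : (0 : ℝ) ≤ D := Nat.cast_nonneg _
  have hw0 : (0 : ℝ) ≤ w := Nat.cast_nonneg _
  have hwD : (w : ℝ) ≤ D := by exact_mod_cast hw
  have hp0 : (0 : ℝ) < p := by linarith
  have hp1 : (0 : ℝ) < p - 1 := by linarith
  have hu1 : 4 * (D : ℝ) / (p : ℝ) ^ 2 ≤ 1 := by
    rw [div_le_one (by positivity)]
    nlinarith
  have hA0 : 0 ≤ 1 - (w : ℝ) / p := by
    rw [sub_nonneg, div_le_one hp0]
    linarith
  have hB : (1 - (wN : ℝ) / p) / (1 - 1 / (p : ℝ)) = (p - wN) / (p - 1) := by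
    field_simp
  have hA : 1 - (w : ℝ) / p = (p - w) / p := by field_simp
  have h1r : (w : ℝ) ≤ wN := by exact_mod_cast h1
  have h2r : (wN : ℝ) ≤ w + 1 := by exact_mod_cast h2
  have hlow : (1 - 4 * D / (p : ℝ) ^ 2) * ((p - w) / p) ≤ (p - wN) / (p - 1) := by
    have e1 : (p - (w + 1) : ℝ) / (p - 1) ≤ (p - wN) / (p - 1) := by
      apply div_le_div_of_nonneg_right _ hp1.le
      linarith
    refine le_trans ?_ e1
    have e2 : (p - (w + 1) : ℝ) / (p - 1) = (p - w) / p - w / (p * (p - 1)) := by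
      field_simp
      ring
    rw [e2, sub_mul, one_mul]
    have e3 : (w : ℝ) / (p * (p - 1)) ≤ 4 * D / (p : ℝ) ^ 2 * ((p - w) / p) := by
      rw [div_mul_div_comm, div_le_div_iff₀ (by positivity) (by positivity)]
      have e4 : (p : ℝ) ≤ 2 * (p - w) := by linarith
      have e5 : (p : ℝ) ≤ 2 * (p - 1) := by linarith
      calc (w : ℝ) * ((p : ℝ) ^ 2 * (p : ℝ)) ≤ (D : ℝ) * ((p : ℝ) ^ 2 * (p : ℝ)) := by gcongr
        _ = ((D : ℝ) * (p : ℝ)) * ((p : ℝ) * (p : ℝ)) := by ring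
        _ ≤ ((D : ℝ) * (p : ℝ)) * ((2 * ((p : ℝ) - w)) * (2 * ((p : ℝ) - 1))) := by
            apply mul_le_mul_of_nonneg_left _ (by positivity)
            exact mul_le_mul e4 e5 hp0.le (by linarith)
        _ = 4 * (D : ℝ) * ((p : ℝ) - w) * ((p : ℝ) * ((p : ℝ) - 1)) := by ring
    linarith
  rw [hB, hA]
  rw [hA] at hA0
  by_cases hb : bad
  · rw [if_pos hb]
    have e2 : 2 / (p : ℝ) ≤ 1 := by
      rw [div_le_one hp0]
      linarith
    refine ⟨hA0, by positivity, e2, ?_, ?_⟩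
    · refine le_trans ?_ hlow
      apply mul_le_mul_of_nonneg_right _ hA0
      have e3 : 4 * (D : ℝ) / (p : ℝ) ^ 2 ≤ 2 / p := by
        rw [div_le_div_iff₀ (by positivity) hp0]
        nlinarith
      linarith
    · have e3 : (p - wN : ℝ) / (p - 1) ≤ (p - w) / (p - 1) := by
        apply div_le_div_of_nonneg_right _ hp1.le
        linarith
      refine e3.trans ?_
      have e4 : (p - w : ℝ) / (p - 1) = (1 + 1 / (p - 1)) * ((p - w) / p) := by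
        field_simp
        ring
      rw [e4]
      apply mul_le_mul_of_nonneg_right _ hA0
      have e5 : 1 / (p - 1 : ℝ) ≤ 2 / p := by
        rw [div_le_div_iff₀ hp1 hp0]
        linarith
      linarith
  · rw [if_neg hb]
    have h4 := h3 hb
    have h4r : (wN : ℝ) = w + 1 := by exact_mod_cast h4
    refine ⟨hA0, by positivity, hu1, hlow, ?_⟩
    have e1 : (p - wN : ℝ) / (p - 1) ≤ (p - w) / p := by
      rw [h4r, div_le_div_iff₀ hp1 hp0]
      nlinarith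
    refine e1.trans ?_
    apply le_mul_of_one_le_left hA0
    have : 0 ≤ 4 * (D : ℝ) / (p : ℝ) ^ 2 := by positivity
    linarith

/-- the numerical end -/
lemma fin_tail (P0 PA PB σ δ ε : ℝ) (hP0 : 0 ≤ P0) (hA0 : 0 ≤ PA) (hsumu0 : 0 ≤ σ) (hsumu : σ ≤ δ) (hδ : δ = (min ε 1) / 2) (hδ0 : 0 < δ)
    (q1 : (1 - σ) * PA ≤ PB) (q2 : PB ≤ Real.exp σ * PA) : |P0 * PB - P0 * PA| ≤ ε * (P0 * PA) := by
  have hδ1 : δ ≤ 1 / 2 := by
    rw [hδ]
    have := min_le_right ε 1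
    linarith
  have hexp := Real.abs_exp_sub_one_le (x := σ) (by rw [abs_of_nonneg hsumu0]; linarith)
  rw [abs_of_nonneg hsumu0] at hexp
  have hexp2 := (abs_le.1 hexp).2
  have e1 : P0 * PB - P0 * PA = P0 * (PB - PA) := by ring
  rw [e1, abs_mul, abs_of_nonneg hP0]
  have e2 : |PB - PA| ≤ ε * PA := by
    have h2δ : 2 * δ ≤ ε := by
      rw [hδ]
      have := min_le_left ε 1
      linarith
    have e3 : 2 * δ * PA ≤ ε * PA := mul_le_mul_of_nonneg_right h2δ hA0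
    refine le_trans ?_ e3
    rw [abs_le]
    constructor
    · have e4 : (1 - σ) * PA ≤ PB := q1
      have e5 : σ * PA ≤ δ * PA := mul_le_mul_of_nonneg_right hsumu hA0
      have e6 : 0 ≤ δ * PA := mul_nonneg hδ0.le hA0
      linarith
    · have e4 : Real.exp σ * PA ≤ (1 + 2 * σ) * PA := mul_le_mul_of_nonneg_right (by linarith) hA0
      have e5 : σ * PA ≤ δ * PA := mul_le_mul_of_nonneg_right hsumu hA0
      linarith
  calc P0 * |PB - PA| ≤ P0 * (ε * PA) := mul_le_mul_of_nonneg_left e2 hP0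
    _ = _ := by ring

/-- the local factors up to `z` and up to `y` -/
theorem tail_cmp (F : Fin g → ℤ[X]) (hF : ∀ i, 1 ≤ (F i).natDegree) (hFl : ∀ i, 0 < (F i).leadingCoeff) (J : ℕ) (ε : ℝ) (hε : 0 < ε) :
    ∃ n₀ : ℕ, ∀ N : ℕ, n₀ ≤ N → ∀ m z y : ℕ, 1 ≤ m → (m : ℝ) ≤ Real.log N ^ J → Real.log N ^ (J + 2) ≤ z → z ≤ y →
      NoFixed F (C (m : ℤ) * X) N →
      |∏ p ∈ (Icc 1 y).filter Nat.Prime, (1 - (omegaN F (C (m : ℤ) * X) N p : ℝ) / p) / (1 - 1 / (p : ℝ)) -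
        (∏ p ∈ (Icc 1 z).filter Nat.Prime, (1 - (omegaN F (C (m : ℤ) * X) N p : ℝ) / p) / (1 - 1 / (p : ℝ))) *
          ∏ p ∈ (Ioc z y).filter Nat.Prime, (1 - (omegaF F p : ℝ) / p)| ≤
      ε * ((∏ p ∈ (Icc 1 z).filter Nat.Prime, (1 - (omegaN F (C (m : ℤ) * X) N p : ℝ) / p) / (1 - 1 / (p : ℝ))) *
          ∏ p ∈ (Ioc z y).filter Nat.Prime, (1 - (omegaF F p : ℝ) / p)) := by
  classical
  obtain ⟨D, hD⟩ : ∃ D, D = ∑ i, (F i).natDegree := ⟨_, rfl⟩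
  have hsc := fun i => scale_bounds (F i) (hF i) (hFl i) J
  choose A n1 hA hsc' using hsc
  obtain ⟨δ, hδ⟩ : ∃ δ : ℝ, δ = (min ε 1) / 2 := ⟨_, rfl⟩
  have hmin : 0 < min ε 1 := lt_min hε one_pos
  have hδ0 : 0 < δ := by rw [hδ]; positivity
  obtain ⟨AA, hAA⟩ : ∃ AA, AA = ∏ i, A i := ⟨_, rfl⟩
  obtain ⟨x1, h1⟩ := ev_L' (Real.log AA + 2 + (4 * D + 4 * (D + 1)) / δ + (4 * D + 4))
  refine ⟨∑ i, n1 i + x1 + 3, fun N hN m z y hm hmJ hz hzy hNF => ?_⟩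
  have a1 := h1 N (by omega)
  have hlAA : 0 ≤ Real.log (AA : ℝ) := Real.log_natCast_nonneg _
  have hDr : (0 : ℝ) ≤ D := Nat.cast_nonneg _
  have hfr : 0 ≤ (4 * (D : ℝ) + 4 * (D + 1)) / δ := by positivity
  obtain ⟨L, hL⟩ : ∃ L, L = Real.log (N : ℝ) := ⟨_, rfl⟩
  rw [← hL] at a1 hz hmJ
  have hL2 : 2 ≤ L := by linarith
  have hL1 : 1 ≤ L := by linarith
  have hL0 : 0 < L := by linarith
  have hLJ : L ^ (J + 2) = L ^ J * (L * L) := by rw [pow_add]; ring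
  have hLJ1 : 1 ≤ L ^ J := one_le_pow₀ hL1
  have hzr : L * L ≤ z := by
    refine le_trans ?_ hz
    rw [hLJ]
    exact le_mul_of_one_le_left (by positivity) hLJ1
  have hz0 : (0 : ℝ) < z := lt_of_lt_of_le (by positivity) hzr
  have hzpos : 0 < z := by exact_mod_cast hz0
  have hmz : m < z := by
    have h2 : (m : ℝ) < z := by
      calc (m : ℝ) ≤ L ^ J := hmJ
        _ < L ^ J * (L * L) := by
            apply lt_mul_of_one_lt_right (by positivity)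
            nlinarith
        _ ≤ z := by rw [← hLJ]; exact hz
    exact_mod_cast h2
  have hzD : 4 * D + 4 ≤ z := by
    have h2 : 4 * (D : ℝ) + 4 ≤ L := by linarith
    have h3 : L ≤ L * L := by nlinarith
    have h4 : ((4 * D + 4 : ℕ) : ℝ) ≤ z := by push_cast; linarith
    exact_mod_cast h4
  -- the size of the product
  obtain ⟨H, hH⟩ : ∃ H : ℤ, H = ∏ i, ((F i).scaleRoots (m : ℤ)).eval (N : ℤ) := ⟨_, rfl⟩
  have hsc'' : ∀ i, 0 < ((F i).scaleRoots (m : ℤ)).eval (N : ℤ) ∧ ((F i).scaleRoots (m : ℤ)).eval (N : ℤ) ≤ (A i : ℤ) * (N : ℤ) ^ (F i).natDegree := by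
    intro i
    apply hsc' i N _ m hm (by rw [← hL]; exact hmJ)
    have : n1 i ≤ ∑ i, n1 i := single_le_sum (fun _ _ => Nat.zero_le _) (mem_univ i)
    omega
  have hH0 : 0 < H := by
    rw [hH]
    exact prod_pos fun i _ => (hsc'' i).1
  have hH1 : H ≤ (AA : ℤ) * (N : ℤ) ^ D := by
    rw [hH, hAA, hD]
    push_cast
    rw [← prod_pow_eq_pow_sum, ← prod_mul_distrib]
    exact prod_le_prod (fun i _ => (hsc'' i).1.le) (fun i _ => (hsc'' i).2)
  obtain ⟨S, hS⟩ : ∃ S, S = (Ioc z y).filter Nat.Prime := ⟨_, rfl⟩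
  obtain ⟨u, hu⟩ : ∃ u : ℕ → ℝ, u = fun p : ℕ => if (p : ℤ) ∣ H then 2 / (p : ℝ) else 4 * D / (p : ℝ) ^ 2 := ⟨_, rfl⟩
  have hpS : ∀ p ∈ S, p.Prime ∧ z < p := by
    intro p hp
    rw [hS, mem_filter, mem_Ioc] at hp
    exact ⟨hp.2, hp.1.1⟩
  have hfac : ∀ p ∈ S, 0 ≤ 1 - (omegaF F p : ℝ) / p ∧ 0 ≤ u p ∧ u p ≤ 1 ∧
      (1 - u p) * (1 - (omegaF F p : ℝ) / p) ≤ (1 - (omegaN F (C (m : ℤ) * X) N p : ℝ) / p) / (1 - 1 / (p : ℝ)) ∧
      (1 - (omegaN F (C (m : ℤ) * X) N p : ℝ) / p) / (1 - 1 / (p : ℝ)) ≤ (1 + u p) * (1 - (omegaF F p : ℝ) / p) := by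
    intro p hp
    obtain ⟨hpp, hpz⟩ := hpS p hp
    have hpm : ¬ p ∣ m := fun h => by
      have := Nat.le_of_dvd (by omega) h
      omega
    obtain ⟨c1, c2⟩ := omega_cases F m N p hpp hpm
    rw [← hH] at c2
    rw [hu]
    exact fac_cmp p (omegaF F p) (omegaN F (C (m : ℤ) * X) N p) D ((p : ℤ) ∣ H) (by omega)
      (omegaF_le F _ N p D hpp hNF (by omega)) (omega_rel F _ N p) c1 c2
  obtain ⟨q0, q1, q2⟩ := prod_near S (fun p => 1 - (omegaF F p : ℝ) / p) (fun p => (1 - (omegaN F (C (m : ℤ) * X) N p : ℝ) / p) / (1 - 1 / (p : ℝ))) u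
    (fun p hp => (hfac p hp).1) (fun p hp => (hfac p hp).2.1) (fun p hp => (hfac p hp).2.2.1) (fun p hp => (hfac p hp).2.2.2.1)
    (fun p hp => (hfac p hp).2.2.2.2)
  -- the sum of the u
  have hcard : (((Ioc z y).filter (fun p : ℕ => p.Prime ∧ (p : ℤ) ∣ H)).card : ℝ) ≤ 2 * (D + 1) * L := by
    have c1 := few_primes H hH0 z y
    obtain ⟨n, hn⟩ : ∃ n : ℕ, (n : ℤ) = H := ⟨H.toNat, Int.toNat_of_nonneg hH0.le⟩
    rw [← hn, Int.toNat_natCast] at c1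
    rw [← hn] at hH1 hH0
    have hH1' : n ≤ AA * N ^ D := by exact_mod_cast hH1
    have c2 : ((2 : ℝ)) ^ ((Ioc z y).filter (fun p : ℕ => p.Prime ∧ (p : ℤ) ∣ (n : ℤ))).card ≤ AA * (N : ℝ) ^ D := by
      exact_mod_cast c1.trans hH1'
    have hAA1 : 1 ≤ AA := by
      rw [hAA]
      exact Finset.one_le_prod' fun i _ => hA i
    have hAAr : (0 : ℝ) < AA := by exact_mod_cast (by omega : 0 < AA)
    have hN0 : (0 : ℝ) < N := by exact_mod_cast (by omega : 0 < N)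
    have c3 := Real.log_le_log (by positivity) c2
    rw [Real.log_pow, Real.log_mul hAAr.ne' (by positivity), Real.log_pow, ← hL] at c3
    have c4 : (1 : ℝ) / 2 ≤ Real.log 2 := by have := Real.log_two_gt_d9; linarith
    have c5 : (0 : ℝ) ≤ (((Ioc z y).filter (fun p : ℕ => p.Prime ∧ (p : ℤ) ∣ (n : ℤ))).card : ℝ) := Nat.cast_nonneg _
    rw [← hn]
    nlinarith
  have hsumu : ∑ p ∈ S, u p ≤ δ := by
    have d1 : ∀ p ∈ S, u p ≤ (if (p : ℤ) ∣ H then 2 / (z : ℝ) else 0) + 4 * D * ((p : ℝ) ^ 2)⁻¹ := by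
      intro p hp
      have hpz := (hpS p hp).2
      have hpzr : (z : ℝ) ≤ p := by exact_mod_cast hpz.le
      rw [hu]
      simp only
      have d2 : 0 ≤ 4 * (D : ℝ) * ((p : ℝ) ^ 2)⁻¹ := by positivity
      split_ifs with h
      · have : 2 / (p : ℝ) ≤ 2 / z := div_le_div_of_nonneg_left (by norm_num) hz0 hpzr
        linarith
      · rw [div_eq_mul_inv]
        linarith
    refine (sum_le_sum d1).trans ?_
    rw [sum_add_distrib, ← mul_sum]
    have d3 : ∑ p ∈ S, (if (p : ℤ) ∣ H then 2 / (z : ℝ) else 0) ≤ 2 * (D + 1) * L * (2 / z) := by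
      rw [← sum_filter, sum_const, nsmul_eq_mul, hS, filter_filter]
      exact mul_le_mul_of_nonneg_right hcard (by positivity)
    have d4 : ∑ p ∈ S, ((p : ℝ) ^ 2)⁻¹ ≤ (z : ℝ)⁻¹ := by
      have d5 : ∑ p ∈ S, ((p : ℝ) ^ 2)⁻¹ ≤ ∑ p ∈ Ioc z y, ((p : ℝ) ^ 2)⁻¹ := by
        rw [hS]
        apply sum_le_sum_of_subset_of_nonneg (filter_subset _ _)
        intro p _ _
        positivity
      refine d5.trans ((sum_Ioc_inv_sq_le_sub (by omega) hzy).trans ?_)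
      have : (0 : ℝ) ≤ (y : ℝ)⁻¹ := by positivity
      linarith
    have d6 : 2 * (D + 1) * L * (2 / z) + 4 * D * (z : ℝ)⁻¹ ≤ (4 * D + 4 * (D + 1)) * L / z := by
      rw [le_div_iff₀ hz0]
      have e1 : (2 * ((D : ℝ) + 1) * L * (2 / z) + 4 * D * (z : ℝ)⁻¹) * z = 4 * (D + 1) * L + 4 * D := by
        field_simp
        ring
      rw [e1]
      nlinarith
    have d7 : (4 * (D : ℝ) + 4 * (D + 1)) * L / z ≤ δ := by
      rw [div_le_iff₀ hz0]
      have e1 : (4 * (D : ℝ) + 4 * (D + 1)) / δ ≤ L := by linarith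
      rw [div_le_iff₀ hδ0] at e1
      nlinarith
    have d8 := mul_le_mul_of_nonneg_left d4 (show 0 ≤ 4 * (D : ℝ) by positivity)
    linarith
  have hsumu0 : 0 ≤ ∑ p ∈ S, u p := sum_nonneg fun p hp => (hfac p hp).2.1
  have hsplit : ∏ p ∈ (Icc 1 y).filter Nat.Prime, (1 - (omegaN F (C (m : ℤ) * X) N p : ℝ) / p) / (1 - 1 / (p : ℝ)) =
      (∏ p ∈ (Icc 1 z).filter Nat.Prime, (1 - (omegaN F (C (m : ℤ) * X) N p : ℝ) / p) / (1 - 1 / (p : ℝ))) *
        ∏ p ∈ S, (1 - (omegaN F (C (m : ℤ) * X) N p : ℝ) / p) / (1 - 1 / (p : ℝ)) := by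
    rw [hS, ← prod_union]
    · congr 1
      ext p
      rw [mem_union, mem_filter, mem_filter, mem_filter, mem_Icc, mem_Icc, mem_Ioc]
      constructor
      · rintro ⟨h2, h3⟩
        rcases Nat.lt_or_ge z p with h | h
        · exact Or.inr ⟨⟨h, h2.2⟩, h3⟩
        · exact Or.inl ⟨⟨h2.1, h⟩, h3⟩
      · rintro (⟨h2, h3⟩ | ⟨h2, h3⟩)
        · exact ⟨⟨h2.1, by omega⟩, h3⟩
        · exact ⟨⟨by omega, h2.2⟩, h3⟩
    · rw [disjoint_left]
      intro p hp hp2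
      rw [mem_filter, mem_Icc] at hp
      rw [mem_filter, mem_Ioc] at hp2
      omega
  rw [hsplit, ← hS]
  have hP0 : 0 ≤ ∏ p ∈ (Icc 1 z).filter Nat.Prime, (1 - (omegaN F (C (m : ℤ) * X) N p : ℝ) / p) / (1 - 1 / (p : ℝ)) := by
    apply prod_nonneg
    intro p hp
    rw [mem_filter] at hp
    have hp2 : (2 : ℝ) ≤ p := by exact_mod_cast hp.2.two_le
    have h2 := omegaN_lt F _ N hNF p hp.2
    have h3 : (omegaN F (C (m : ℤ) * X) N p : ℝ) / p ≤ 1 := by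
      rw [div_le_one (by linarith)]
      exact_mod_cast h2.le
    have h4 : 1 / (p : ℝ) ≤ 1 := by
      rw [div_le_one (by linarith)]
      linarith
    exact div_nonneg (by linarith) (by linarith)
  have hA0 : 0 ≤ ∏ p ∈ S, (1 - (omegaF F p : ℝ) / p) := prod_nonneg fun p hp => (hfac p hp).1
  try simp only at q1 q2
  generalize ∏ p ∈ (Icc 1 z).filter Nat.Prime, (1 - (omegaN F (C (m : ℤ) * X) N p : ℝ) / p) / (1 - 1 / (p : ℝ)) = P0 at *
  generalize ∏ p ∈ S, (1 - (omegaN F (C (m : ℤ) * X) N p : ℝ) / p) / (1 - 1 / (p : ℝ)) = PB at *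
  generalize ∏ p ∈ S, (1 - (omegaF F p : ℝ) / p) = PA at *
  generalize ∑ p ∈ S, u p = σ at *
  exact fin_tail P0 PA PB σ δ ε hP0 hA0 hsumu0 hsumu hδ hδ0 q1 q2

/-- the expected number with all the local factors up to `y` -/
noncomputable def TPF (F : Fin g → ℤ[X]) (m N y : ℕ) : ℝ :=
  (((N - 1) / m : ℕ) : ℝ) * (Vz y)⁻¹ *
    ∏ p ∈ (Icc 1 y).filter Nat.Prime, (1 - (omegaN (PArg.eF F) (C (m : ℤ) * X) N p : ℝ) / p) / (1 - 1 / (p : ℝ))

lemma cmp_two (W T T' ε δ : ℝ) (hε : 0 < ε) (hδ : δ = (min ε 1) / 4) (h1 : |W - T| ≤ δ * T) (h2 : |T' - T| ≤ δ * T) :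
    |W - T'| ≤ ε * T' := by
  have hmin : 0 < min ε 1 := lt_min hε one_pos
  have hδ0 : 0 < δ := by rw [hδ]; positivity
  have hδ1 : δ ≤ 1 / 4 := by rw [hδ]; linarith [min_le_right ε 1]
  have hδε : 4 * δ ≤ ε := by rw [hδ]; linarith [min_le_left ε 1]
  have hT : 0 ≤ T := nonneg_of_mul_nonneg_right ((abs_nonneg _).trans h1) hδ0
  have h3 := (abs_le.1 h2).1
  have h4 : δ * T ≤ 1 / 4 * T := mul_le_mul_of_nonneg_right hδ1 hT
  have hT' : T ≤ 2 * T' := by linarith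
  have h5 : |W - T'| ≤ 2 * (δ * T) := by
    have e : W - T' = (W - T) - (T' - T) := by ring
    rw [e]
    refine (abs_sub _ _).trans ?_
    linarith
  calc |W - T'| ≤ 2 * (δ * T) := h5
    _ ≤ 2 * (δ * (2 * T')) := by
        apply mul_le_mul_of_nonneg_left _ (by norm_num)
        exact mul_le_mul_of_nonneg_left hT' hδ0.le
    _ = (4 * δ) * T' := by ring
    _ ≤ ε * T' := mul_le_mul_of_nonneg_right hδε (by linarith)

/-- the principle, with all the local factors up to `y` -/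
theorem det_PF (D : ℕ) (ε : ℝ) (hε : 0 < ε) : ∃ K : ℕ, 1 ≤ K ∧ ∀ (g : ℕ) (F : Fin g → ℤ[X]), (∀ i, 1 ≤ (F i).natDegree) →
    (∀ i, 0 < (F i).leadingCoeff) → ∑ i, (F i).natDegree + 1 ≤ D → ∀ J T : ℕ,
    Det (AdP J K T) (fun a N => NoFixed (PArg.eF F) (C (a.1 : ℤ) * X) N →
      |WP F (C (a.1 : ℤ) * X) N a.2 N - TPF F a.1 N a.2| ≤ ε * TPF F a.1 N a.2) := by
  obtain ⟨δ, hδ⟩ : ∃ δ : ℝ, δ = (min ε 1) / 4 := ⟨_, rfl⟩
  have hmin : 0 < min ε 1 := lt_min hε one_pos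
  have hδ0 : 0 < δ := by rw [hδ]; positivity
  obtain ⟨K, hK, hmain⟩ := det_P D δ hδ0
  refine ⟨K, hK, fun g F hF hFl hD J T => ?_⟩
  obtain ⟨n1, h1⟩ := tail_cmp (PArg.eF F) (PArg.eF_deg F hF) (PArg.eF_lc F hFl) (J + 1) δ hδ0
  apply hmain g F hF hFl hD J T
  refine ⟨n1 + 1, fun N hN m z y hm hmJ hz hzy hyK _ hasy hNF => ?_⟩
  simp only at hNF ⊢
  have h2 := h1 N (by omega) m z y hm hmJ hz hzy hNF
  have h3 := hasy hNF
  apply cmp_two _ _ _ ε δ hε hδ h3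
  have hX := XCount_mul m N hm (by omega)
  have eV : (∏ p ∈ (Icc 1 y).filter Nat.Prime, (1 - 1 / (p : ℝ)))⁻¹ = (Vz y)⁻¹ := rfl
  unfold TPF TP
  rw [hX, eV]
  generalize ∏ p ∈ (Icc 1 y).filter Nat.Prime, (1 - (omegaN (PArg.eF F) (C (m : ℤ) * X) N p : ℝ) / p) / (1 - 1 / (p : ℝ)) = Pf at *
  generalize ∏ p ∈ (Icc 1 z).filter Nat.Prime, (1 - (omegaN (PArg.eF F) (C (m : ℤ) * X) N p : ℝ) / p) / (1 - 1 / (p : ℝ)) = Pz at *
  generalize ∏ p ∈ (Ioc z y).filter Nat.Prime, (1 - (omegaF (PArg.eF F) p : ℝ) / p) = Pa at *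
  have hc : 0 ≤ (((N - 1) / m : ℕ) : ℝ) * (Vz y)⁻¹ := mul_nonneg (Nat.cast_nonneg _) (inv_pos.2 (Vz_pos y)).le
  generalize (((N - 1) / m : ℕ) : ℝ) * (Vz y)⁻¹ = c at *
  have e1 : c * Pf - c * Pz * Pa = c * (Pf - Pz * Pa) := by ring
  rw [e1, abs_mul, abs_of_nonneg hc]
  calc c * |Pf - Pz * Pa| ≤ c * (δ * (Pz * Pa)) := mul_le_mul_of_nonneg_left h2 hc
    _ = _ := by ring

end Pool.Agent.N625.PT
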