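import Pool.Agent.N625.PT.Q

set_option autoImplicit false

/-! Goldbach's problem for random integers: multiples, neighbours and offsets. -/

namespace Pool.Agent.N625.PT
open Finset
open Pool.Agent.Y885 (TLaw)

open Classical in
open Pool.Agent.W93.PG (WinP) in
/-- Goldbach's problem for all the integers near all the multiples of the integers near a random integer, with offsets -/
theorem t_windows2 {b : ℕ} {κ : ℤ} {C : ℕ → (ℕ → ℝ) → Prop} (hC : TCls b κ C) (B J W A U m₀ : ℕ) (ε : ℝ) (hε : 0 < ε)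
    (P : ℕ → Prop) (hP : ∀ m : ℕ, m₀ ≤ m → 2 ∣ m → WinP ε A m → P m) : ∃ k₀ : ℕ, ∀ k : ℕ, k₀ ≤ k → ∀ p, C k p →
    ∀ c : ℤ, |c| ≤ B * (b : ℤ) ^ k →
    ∀ Q : ℕ → Prop, (∀ v, ¬ Q v → ∃ h : ℕ, 1 ≤ h ∧ h ≤ k ^ J ∧ ∃ s : ℤ, |s| ≤ (k : ℤ) ^ W ∧ ∃ o : ℤ, |o| ≤ (k : ℤ) ^ W ∧
      0 < (h : ℤ) * (c + s + κ * v) + o ∧ 2 ∣ (h : ℤ) * (c + s + κ * v) + o ∧ ¬ P ((h : ℤ) * (c + s + κ * v) + o).toNat) →
    ∑ v ∈ range (b ^ k), (if Q v then 0 else p v) ≤ 1 / (k : ℝ) ^ U := by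
  have hb := hC.two
  obtain ⟨F, hF, hlaw⟩ := hC.law
  obtain ⟨U', hU'⟩ : ∃ U', U' = U + J + W + 1 + W + 1 := ⟨_, rfl⟩
  obtain ⟨e₀, he₀⟩ : ∃ e₀, e₀ = F + (B + κ.natAbs + 1) + 4 := ⟨_, rfl⟩
  obtain ⟨c₁, m₁, h1⟩ := hlaw (3 * J + e₀) (U' + 3)
  obtain ⟨V, hV⟩ := Pool.Agent.Y885.tl_windows b hb 15 c₁ A U' m₀ (by norm_num) ε hε P hP
  obtain ⟨c₂, m₂, h2⟩ := hlaw (3 * J + e₀) V
  obtain ⟨K₀, h3⟩ := hV c₂
  obtain ⟨k4, h4⟩ := pow_le_pow_digits b hb W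
  refine ⟨m₁ + m₂ + K₀ + k4 + 3, fun k hk p hp c hc Q hQ => ?_⟩
  refine union J W U k (by omega) (b ^ k) p (hC.nonneg k p hp)
    (fun h s v => ∃ o : ℤ, |o| ≤ (k : ℤ) ^ W ∧ (0 < (h : ℤ) * (c + s + κ * v) + o ∧ 2 ∣ (h : ℤ) * (c + s + κ * v) + o ∧
      ¬ P ((h : ℤ) * (c + s + κ * v) + o).toNat)) Q hQ ?_
  intro h hh1 hh2 s hs
  refine union_off W (U + J + W + 1) k (by omega) (b ^ k) p (hC.nonneg k p hp)
    (fun o v => 0 < (h : ℤ) * (c + s + κ * v) + o ∧ 2 ∣ (h : ℤ) * (c + s + κ * v) + o ∧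
      ¬ P ((h : ℤ) * (c + s + κ * v) + o).toNat) ?_
  intro o ho
  obtain ⟨e, he⟩ : ∃ e, e = ex b J e₀ k := ⟨_, rfl⟩
  have hee : e = J * (Nat.log b k + 1) + e₀ := by rw [he]; rfl
  have hlogF := log_ex b J F hb k h hF hh1 hh2
  have heW : (e : ℝ) ≤ ((3 * J + e₀ : ℕ) : ℝ) * Real.log k := by rw [he]; exact ex_le b J e₀ hb k (by omega)
  obtain ⟨K, hK⟩ : ∃ K, K = k + e - 2 := ⟨_, rfl⟩
  have hK2 : K + 2 = k + e := by omega
  have t1 := (h1 k (by omega) e heW h hh1 (by omega) p hp (c + s)).add o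
  have t2 := (h2 k (by omega) e heW h hh1 (by omega) p hp (c + s)).add o
  rw [← hK2] at t1 t2
  have key := h3 K (by omega) ℕ (range (b ^ k)) p _ t1 t2 (by
    intro v hv
    rw [mem_range] at hv
    have q1 := val_ex b J W B hb κ k (h4 k (by omega)) c s hc hs h hh2 v hv
    have q2 : (k : ℤ) ^ W ≤ (b : ℤ) ^ k := by exact_mod_cast h4 k (by omega)
    have q3 : (b : ℤ) ^ k ≤ (b : ℤ) ^ (k + (J * (Nat.log b k + 1) + (B + κ.natAbs + 1))) := by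
      apply pow_le_pow_right₀ (by exact_mod_cast (by omega : 1 ≤ b))
      omega
    have q4 := abs_add_le ((h : ℤ) * (c + s + κ * v)) o
    have q5 : (2 : ℤ) ≤ b := by exact_mod_cast hb
    have q6 : (b : ℤ) ^ (k + (J * (Nat.log b k + 1) + (B + κ.natAbs + 1)) + 1) ≤ (b : ℤ) ^ K := by
      apply pow_le_pow_right₀ (by linarith)
      omega
    have q7 : 0 < (b : ℤ) ^ (k + (J * (Nat.log b k + 1) + (B + κ.natAbs + 1))) := by positivity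
    rw [pow_succ] at q6
    nlinarith) (fun v => 0 < (h : ℤ) * (c + s + κ * v) + o ∧ 2 ∣ (h : ℤ) * (c + s + κ * v) + o ∧
      ¬ P ((h : ℤ) * (c + s + κ * v) + o).toNat) (fun _ => Classical.propDecidable _) (fun v _ hv => hv)
  refine key.trans ?_
  have hk0 : (0 : ℝ) < k := by exact_mod_cast (by omega : 0 < k)
  rw [show U + J + W + 1 + W + 1 = U' by omega]
  apply one_div_le_one_div_of_le (by positivity)
  apply pow_le_pow_left₀ hk0.le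
  exact_mod_cast (by omega : k ≤ K)

end Pool.Agent.N625.PT
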