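import Pool.Agent.N625.PT.F
import Pool.Agent.N625.PT.D
import Pool.Agent.H373R2.T7.SysCount

set_option autoImplicit false

/-! Random integers whose blocks of digits can be exchanged: equidistribution in the classes modulo integers prime to the base. -/

namespace Pool.Agent.N625.PT
open Finset
open Pool.Agent.TH872
open Pool.Agent.Y958.SP (nn)
open Pool.Agent.H807R2.Dav
open Pool.Agent.H373R2.T7 (pz mem_pz nuB PerB count_sys)

/-- a run of positions near the integers -/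
lemma near_run (b : ℕ) (hb : 2 ≤ b) (F : ℕ) (θ : ℝ) (j m : ℕ)
    (h : ∀ i, j ≤ i → i < j + m → ¬ Mir.Far (1 / (b : ℝ) ^ 2) ((F : ℝ) * ((b : ℝ) ^ i * θ))) :
    nn ((F : ℝ) * ((b : ℝ) ^ j * θ)) * 2 ^ m ≤ nn ((F : ℝ) * ((b : ℝ) ^ (j + m) * θ)) := by
  induction m with
  | zero => simp
  | succ m ih =>
    have h1 := ih (fun i h2 h3 => h i h2 (by omega))
    have h2 := Pool.Agent.R501.SP.near_step b hb _ (h (j + m) (by omega) (by omega))
    have e1 : (b : ℝ) * ((F : ℝ) * ((b : ℝ) ^ (j + m) * θ)) = (F : ℝ) * ((b : ℝ) ^ (j + (m + 1)) * θ) := by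
      rw [← add_assoc, pow_succ]; ring
    rw [e1] at h2
    have n1 := Pool.Agent.R501.SP.nn_nonneg ((F : ℝ) * ((b : ℝ) ^ (j + m) * θ))
    have n2 := Pool.Agent.R501.SP.nn_nonneg ((F : ℝ) * ((b : ℝ) ^ (j + (m + 1)) * θ))
    have h3 : nn ((F : ℝ) * ((b : ℝ) ^ (j + m) * θ)) * 2 ≤ nn ((F : ℝ) * ((b : ℝ) ^ (j + (m + 1)) * θ)) := by
      rw [← pow_le_pow_iff_left₀ (by positivity) n2 two_ne_zero]
      linarith
    calc nn ((F : ℝ) * ((b : ℝ) ^ j * θ)) * 2 ^ (m + 1) = (nn ((F : ℝ) * ((b : ℝ) ^ j * θ)) * 2 ^ m) * 2 := by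
          rw [pow_succ]; ring
      _ ≤ nn ((F : ℝ) * ((b : ℝ) ^ (j + m) * θ)) * 2 := mul_le_mul_of_nonneg_right h1 (by norm_num)
      _ ≤ _ := h3

/-- many far positions -/
lemma far_low (b F k m : ℕ) (hb : 2 ≤ b) (θ : ℝ)
    (h : ∀ j : ℕ, 1 / 2 ^ m < nn ((F : ℝ) * ((b : ℝ) ^ j * θ))) : k / m ≤ Mir.farCount b F k θ := by
  classical
  unfold Mir.farCount
  have h1 : range (k / m) ⊆ ((range k).filter (fun j => Mir.Far (1 / (b : ℝ) ^ 2) ((F : ℝ) * ((b : ℝ) ^ j * θ)))).image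
      (fun j => j / m) := by
    intro i hi
    rw [mem_range] at hi
    have hik : (i + 1) * m ≤ k := (Nat.mul_le_mul_right m (by omega : i + 1 ≤ k / m)).trans (Nat.div_mul_le_self k m)
    by_contra hcon
    have h2 : ∀ j, i * m ≤ j → j < i * m + m → ¬ Mir.Far (1 / (b : ℝ) ^ 2) ((F : ℝ) * ((b : ℝ) ^ j * θ)) := by
      intro j hj1 hj2 hf
      apply hcon
      rw [mem_image]
      refine ⟨j, ?_, ?_⟩
      · rw [mem_filter, mem_range]
        refine ⟨?_, hf⟩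
        have : (i + 1) * m = i * m + m := by ring
        omega
      · apply Nat.div_eq_of_lt_le hj1
        have : (i + 1) * m = i * m + m := by ring
        omega
    have h3 := near_run b hb F θ (i * m) m h2
    have h4 := Pool.Agent.R501.SP.nn_half ((F : ℝ) * ((b : ℝ) ^ (i * m + m) * θ))
    have h5 := h (i * m)
    have h6 : (0 : ℝ) < 2 ^ m := by positivity
    rw [div_lt_iff₀ h6] at h5
    linarith
  have h7 := (card_le_card h1).trans card_image_le
  rw [card_range] at h7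
  convert h7

lemma nn_rat (x : ℤ) (d : ℕ) (hd : 1 ≤ d) (h : ¬ (d : ℤ) ∣ x) : 1 / (d : ℝ) ≤ nn ((x : ℝ) / d) := by
  unfold nn
  obtain ⟨r, hr⟩ : ∃ r : ℤ, r = round ((x : ℝ) / d) := ⟨_, rfl⟩
  rw [← hr]
  have hd0 : (0 : ℝ) < d := by exact_mod_cast hd
  have e1 : (x : ℝ) / d - r = ((x - r * d : ℤ) : ℝ) / d := by
    push_cast
    field_simp
  rw [e1, abs_div, abs_of_pos hd0]
  apply div_le_div_of_nonneg_right _ hd0.le
  have h1 : x - r * d ≠ 0 := by
    intro h0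
    apply h
    exact ⟨r, by linarith⟩
  exact_mod_cast Int.one_le_abs h1

lemma ee_one (x : ℝ) (h : ee x = 1) : ∃ n : ℤ, x = n := by
  unfold ee at h
  rw [Complex.exp_eq_one_iff] at h
  obtain ⟨n, hn⟩ := h
  refine ⟨n, ?_⟩
  have h1 : (2 * Real.pi * Complex.I : ℂ) ≠ 0 := by
    simp [Real.pi_ne_zero]
  have h2 : (2 * Real.pi * Complex.I : ℂ) * x = (2 * Real.pi * Complex.I : ℂ) * n := by rw [hn]; ring
  have h3 := mul_left_cancel₀ h1 h2
  exact_mod_cast h3

/-- the indicator of a class -/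
lemma cls_sum (d v r : ℕ) (hd : 1 ≤ d) (hr : r < d) :
    ∑ a ∈ range d, ee (-(a * (r : ℝ) / d)) * ee (v * ((a : ℝ) / d)) = if v % d = r then (d : ℂ) else 0 := by
  have hd0 : (d : ℝ) ≠ 0 := by exact_mod_cast (by omega : d ≠ 0)
  obtain ⟨z, hz⟩ : ∃ z, z = ee (((v : ℝ) - r) / d) := ⟨_, rfl⟩
  have h1 : ∀ a ∈ range d, ee (-(a * (r : ℝ) / d)) * ee (v * ((a : ℝ) / d)) = z ^ a := by
    intro a _
    rw [← ee_add, hz, ← ee_pow]
    congr 1
    ring
  rw [sum_congr rfl h1]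
  have hzd : z ^ d = 1 := by
    rw [hz, ← ee_pow]
    have : (d : ℝ) * (((v : ℝ) - r) / d) = (((v : ℤ) - r : ℤ) : ℝ) := by
      push_cast
      field_simp
    rw [this]
    exact ee_int _
  by_cases hc : v % d = r
  · rw [if_pos hc]
    have hz1 : z = 1 := by
      rw [hz]
      obtain ⟨q, hq⟩ : ∃ q, q = v / d := ⟨_, rfl⟩
      have h2 : (v : ℝ) = d * q + r := by
        have := Nat.div_add_mod v d
        rw [hc, ← hq] at this
        exact_mod_cast this.symm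
      have : ((v : ℝ) - r) / d = ((q : ℤ) : ℝ) := by
        rw [h2, div_eq_iff hd0]
        push_cast
        ring
      rw [this]
      exact ee_int _
    rw [hz1]
    simp
  · rw [if_neg hc]
    have hz1 : z ≠ 1 := by
      intro h
      rw [hz] at h
      obtain ⟨n, hn⟩ := ee_one _ h
      apply hc
      have h2 : (v : ℝ) - r = n * d := by
        rw [div_eq_iff hd0] at hn
        exact hn
      have h3 : (v : ℤ) - r = n * d := by exact_mod_cast h2
      have h4 : v ≡ r [MOD d] := by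
        apply Nat.ModEq.symm
        rw [Nat.modEq_iff_dvd]
        exact ⟨n, by rw [h3]; ring⟩
      have h5 : v % d = r % d := h4
      rw [h5, Nat.mod_eq_of_lt hr]
    have h3 := mul_geom_sum z d
    rw [hzd, sub_self] at h3
    rcases mul_eq_zero.1 h3 with h4 | h4
    · exact absurd (sub_eq_zero.1 h4) hz1
    · exact h4

/-- equidistribution in the classes -/
lemma equi (n d : ℕ) (hd : 1 ≤ d) (p : ℕ → ℝ) (hp1 : ∑ v ∈ range n, p v = 1) (Bd : ℝ)
    (hB : ∀ a : ℕ, 1 ≤ a → a < d → ‖∑ v ∈ range n, (p v : ℂ) * ee (v * ((a : ℝ) / d))‖ ≤ Bd) (hB0 : 0 ≤ Bd)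
    (R : Finset ℕ) (hR : R ⊆ range d) :
    |∑ v ∈ range n, (if v % d ∈ R then p v else 0) - R.card / d| ≤ R.card * Bd := by
  classical
  have hd0 : (0 : ℝ) < d := by exact_mod_cast hd
  have hone : ∀ r ∈ R, |∑ v ∈ range n, (if v % d = r then p v else 0) - 1 / d| ≤ Bd := by
    intro r hr
    have hrd := mem_range.1 (hR hr)
    have e1 : ((d : ℝ) : ℂ) * ((∑ v ∈ range n, (if v % d = r then p v else 0) : ℝ) : ℂ) =
        ∑ a ∈ range d, ee (-(a * (r : ℝ) / d)) * ∑ v ∈ range n, (p v : ℂ) * ee (v * ((a : ℝ) / d)) := by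
      simp_rw [mul_sum]
      rw [sum_comm]
      push_cast
      rw [mul_sum]
      apply sum_congr rfl
      intro v _
      have h1 := cls_sum d v r hd hrd
      have h2 : ∑ a ∈ range d, ee (-(a * (r : ℝ) / d)) * ((p v : ℂ) * ee (v * ((a : ℝ) / d))) =
          (p v : ℂ) * ∑ a ∈ range d, ee (-(a * (r : ℝ) / d)) * ee (v * ((a : ℝ) / d)) := by
        rw [mul_sum]
        apply sum_congr rfl
        intro a _
        ring
      rw [h2, h1]
      split_ifs
      · push_cast; ring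
      · simp
    obtain ⟨d', rfl⟩ : ∃ d', d = d' + 1 := ⟨d - 1, by omega⟩
    rw [sum_range_succ'] at e1
    have e2 : ee (-(((0 : ℕ) : ℝ) * (r : ℝ) / ((d' + 1 : ℕ) : ℝ))) * ∑ v ∈ range n, (p v : ℂ) * ee (v * (((0 : ℕ) : ℝ) / ((d' + 1 : ℕ) : ℝ))) = 1 := by
      rw [Nat.cast_zero, zero_mul, zero_div, neg_zero, ee_zero, one_mul]
      simp_rw [mul_zero, ee_zero, mul_one]
      exact_mod_cast hp1
    rw [e2] at e1
    obtain ⟨X, hX⟩ : ∃ X : ℝ, X = ∑ v ∈ range n, (if v % (d' + 1) = r then p v else 0) := ⟨_, rfl⟩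
    rw [← hX] at e1 ⊢
    have e3 : ‖(((d' + 1 : ℕ) : ℝ) : ℂ) * (X : ℂ) - 1‖ ≤ d' * Bd := by
      rw [e1, add_sub_cancel_right]
      refine (norm_sum_le _ _).trans ?_
      have : ∀ a ∈ range d', ‖ee (-(((a + 1 : ℕ) : ℝ) * (r : ℝ) / ((d' + 1 : ℕ) : ℝ))) *
          ∑ v ∈ range n, (p v : ℂ) * ee (v * (((a + 1 : ℕ) : ℝ) / ((d' + 1 : ℕ) : ℝ)))‖ ≤ Bd := by
        intro a ha
        rw [norm_mul, norm_ee, one_mul]
        exact hB (a + 1) (by omega) (by have := mem_range.1 ha; omega)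
      refine (sum_le_sum this).trans ?_
      rw [sum_const, nsmul_eq_mul, card_range]
    have e4 : |((d' + 1 : ℕ) : ℝ) * X - 1| ≤ d' * Bd := by
      rw [← Real.norm_eq_abs, ← Complex.norm_real]
      push_cast at e3 ⊢
      exact e3
    have e5 : X - 1 / ((d' + 1 : ℕ) : ℝ) = (((d' + 1 : ℕ) : ℝ) * X - 1) / ((d' + 1 : ℕ) : ℝ) := by
      field_simp
    rw [e5, abs_div, abs_of_pos hd0, div_le_iff₀ hd0]
    refine e4.trans ?_
    push_cast
    nlinarith
  have e1 : ∑ v ∈ range n, (if v % d ∈ R then p v else 0) = ∑ r ∈ R, ∑ v ∈ range n, (if v % d = r then p v else 0) := by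
    rw [sum_comm]
    apply sum_congr rfl
    intro v _
    rw [sum_ite_eq]
  have e2 : (R.card : ℝ) / d = ∑ _r ∈ R, 1 / (d : ℝ) := by
    rw [sum_const, nsmul_eq_mul]
    ring
  rw [e1, e2, ← sum_sub_distrib]
  refine (abs_sum_le_sum_abs _ _).trans ((sum_le_sum hone).trans (le_of_eq ?_))
  rw [sum_const, nsmul_eq_mul]

open Classical in
/-- the number of the classes modulo the product -/
lemma cls_card (Q : ℕ → ℕ → Prop) (hper : ∀ p n, Q p n ↔ Q p (n % p)) (S : Finset ℕ) (hS : ∀ p ∈ S, p.Prime) :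
    ((range (∏ p ∈ S, p)).filter (fun n => ∀ p ∈ S, Q p n)).card = ∏ p ∈ S, nuB Q p := by
  obtain ⟨d, hd⟩ : ∃ d, d = ∏ p ∈ S, p := ⟨_, rfl⟩
  have hd1 : 0 < d := by rw [hd]; exact prod_pos fun p hp => (hS p hp).pos
  obtain ⟨c, hc⟩ : ∃ c, c = ((range d).filter (fun n => ∀ p ∈ S, Q p n)).card := ⟨_, rfl⟩
  rw [← hd, ← hc]
  have hperd : Function.Periodic (fun n => ∀ p ∈ S, Q p n) d := by
    intro n
    apply propext
    apply forall₂_congr
    intro p hp
    rw [hper p (n + d), hper p n]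
    have : p ∣ d := by rw [hd]; exact dvd_prod_of_mem _ hp
    obtain ⟨q, hq⟩ := this
    rw [hq, Nat.add_mul_mod_self_left]
  have hcnt : ∀ t : ℕ, ((Ico 1 (1 + d * t)).filter (fun n => ∀ p ∈ S, Q p n)).card = t * c := by
    intro t
    induction t with
    | zero => simp
    | succ t ih =>
      have e1 : Ico 1 (1 + d * (t + 1)) = Ico 1 (1 + d * t) ∪ Ico (1 + d * t) (1 + d * t + d) := by
        rw [Ico_union_Ico_eq_Ico (by omega) (by omega)]
        congr 1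
        ring
      rw [e1, filter_union, card_union_of_disjoint, ih, Nat.filter_Ico_card_eq_of_periodic _ _ _ hperd]
      · have e2 : c = Nat.count (fun n => ∀ p ∈ S, Q p n) d := by
          rw [hc, Nat.count_eq_card_filter_range]
        rw [e2]
        ring
      · apply disjoint_filter_filter
        exact Ico_disjoint_Ico_consecutive _ _ _
  have key : ∀ t : ℕ, (t : ℝ) * |(c : ℝ) - ((∏ p ∈ S, nuB Q p : ℕ) : ℝ)| ≤ ((∏ p ∈ S, nuB Q p : ℕ) : ℝ) := by
    intro t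
    have h3 := count_sys (fun p a => Q p a) (d * t) S hS 1 le_rfl (fun p hp hd => (hS p hp).one_lt.ne' (Nat.dvd_one.1 hd)) 0
    have e1 : (Icc 1 (d * t)).filter (fun n => n ≡ 0 [MOD 1] ∧ ∀ p ∈ S, Q p (n % p)) =
        (Ico 1 (1 + d * t)).filter (fun n => ∀ p ∈ S, Q p n) := by
      ext n
      rw [mem_filter, mem_filter, mem_Icc, mem_Ico]
      constructor
      · rintro ⟨h1, _, h2⟩
        exact ⟨by omega, fun p hp => (hper p n).2 (h2 p hp)⟩
      · rintro ⟨h1, h2⟩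
        exact ⟨by omega, Nat.modEq_one, fun p hp => (hper p n).1 (h2 p hp)⟩
    rw [e1, hcnt] at h3
    have e2 : ∏ p ∈ S, (((range p).filter (fun a => Q p a)).card : ℝ) = ((∏ p ∈ S, nuB Q p : ℕ) : ℝ) := by
      rw [Nat.cast_prod]
      rfl
    have e3 : ((d * t : ℕ) : ℝ) / ((1 : ℕ) : ℝ) * ∏ p ∈ S, ((((range p).filter (fun a => Q p a)).card : ℝ) / p) =
        t * ((∏ p ∈ S, nuB Q p : ℕ) : ℝ) := by
      rw [prod_div_distrib, e2, Nat.cast_one, div_one]
      have : ∏ p ∈ S, (p : ℝ) = d := by rw [hd, Nat.cast_prod]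
      rw [this]
      have hd0 : (d : ℝ) ≠ 0 := by exact_mod_cast hd1.ne'
      push_cast
      field_simp
    rw [e3, e2] at h3
    have e4 : (((t * c : ℕ) : ℝ)) - t * ((∏ p ∈ S, nuB Q p : ℕ) : ℝ) = t * ((c : ℝ) - ((∏ p ∈ S, nuB Q p : ℕ) : ℝ)) := by
      push_cast
      ring
    rw [e4, abs_mul, abs_of_nonneg (Nat.cast_nonneg t)] at h3
    exact h3
  by_contra hne
  have h1 : (1 : ℝ) ≤ |(c : ℝ) - ((∏ p ∈ S, nuB Q p : ℕ) : ℝ)| := by
    have h2 : (c : ℤ) - ((∏ p ∈ S, nuB Q p : ℕ) : ℤ) ≠ 0 := by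
      intro h
      apply hne
      omega
    have h3 := Int.one_le_abs h2
    exact_mod_cast h3
  have h2 := key (∏ p ∈ S, nuB Q p + 1)
  push_cast at h1 h2
  have h3 : (0 : ℝ) ≤ ∏ p ∈ S, (nuB Q p : ℝ) := prod_nonneg fun _ _ => Nat.cast_nonneg _
  nlinarith

end Pool.Agent.N625.PT
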