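import Pool.Agent.N625.PT.X9

set_option autoImplicit false

/-! Random integers whose blocks of digits can be exchanged: almost all keep the expected number of elements free of medium
primes; both sides, every `y ≥ θ log k`. -/

namespace Pool.Agent.N625.PT
open Finset
open Pool.Agent.H373R2.T7 (pz mem_pz Vz Vz_pos Vz_le_one Vz_inv_small ev_L')
open Pool.Agent.Y877.SX (mid Vm fd mem_mid fac_pos fac_le Vm_pos Vm_le fd_one fd_mul FF_sum Vz_split fac_inv_one)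

open Classical in
/-- Chebyshev's inequality with weights, both sides -/
lemma chebW2 (S Gs : Finset ℕ) (P : ℕ → ℕ → Prop) (w : ℕ → ℝ) (hw : ∀ g, 0 ≤ w g) (hw1 : ∑ g ∈ Gs, w g = 1)
    (V η δ r m : ℝ) (F : ℕ → ℕ → ℝ) (hV0 : 0 < V) (hV : V ≤ 1) (hδ : 0 < δ)
    (hm : (S.card : ℝ) = m) (hr : 0 ≤ r)
    (h1 : ∀ s ∈ S, V - r ≤ ∑ g ∈ Gs.filter (fun g => P s g), w g)
    (h2 : ∀ s ∈ S, ∀ t ∈ S.erase s, ∑ g ∈ Gs.filter (fun g => P s g ∧ P t g), w g ≤ V ^ 2 * F s t + r)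
    (h3 : ∀ s ∈ S, ∑ t ∈ S.erase s, F s t ≤ (1 + η) * m) :
    (∑ g ∈ Gs, (if δ * (m * V) < |((S.filter (fun s => P s g)).card : ℝ) - m * V| then w g else 0)) * (δ * (m * V)) ^ 2 ≤
      η * (m * V) ^ 2 + m + 3 * (m ^ 2 * r) := by
  obtain ⟨i, hi⟩ : ∃ i : ℕ → ℕ → ℝ, i = fun s g => if P s g then 1 else 0 := ⟨_, rfl⟩
  obtain ⟨X, hX⟩ : ∃ X : ℕ → ℝ, X = fun g => ∑ s ∈ S, i s g := ⟨_, rfl⟩
  have hm0 : 0 ≤ m := by rw [← hm]; exact Nat.cast_nonneg _
  have hXc : ∀ g, X g = ((S.filter (fun s => P s g)).card : ℝ) := by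
    intro g
    rw [hX, hi]
    simp only
    rw [← sum_filter, sum_const, nsmul_eq_mul, mul_one]
  have hc1 : ∀ s, ∑ g ∈ Gs, w g * i s g = ∑ g ∈ Gs.filter (fun g => P s g), w g := by
    intro s
    rw [hi, sum_filter]
    apply sum_congr rfl
    intro g _
    simp only
    split_ifs <;> simp
  have hc2 : ∀ s t, ∑ g ∈ Gs, w g * (i s g * i t g) = ∑ g ∈ Gs.filter (fun g => P s g ∧ P t g), w g := by
    intro s t
    rw [hi, sum_filter]
    apply sum_congr rfl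
    intro g _
    by_cases ha : P s g <;> by_cases hb : P t g <;> simp [ha, hb]
  have hS1 : m * (V - r) ≤ ∑ g ∈ Gs, w g * X g := by
    have e0 : ∑ g ∈ Gs, w g * X g = ∑ s ∈ S, ∑ g ∈ Gs, w g * i s g := by
      rw [hX, sum_comm]
      apply sum_congr rfl
      intro g _
      rw [mul_sum]
    rw [e0]
    have : ∑ _s ∈ S, (V - r) ≤ ∑ s ∈ S, ∑ g ∈ Gs, w g * i s g := by
      apply sum_le_sum
      intro s hs
      rw [hc1]
      exact h1 s hs
    rwa [sum_const, nsmul_eq_mul, hm] at this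
  have hS2 : ∑ g ∈ Gs, w g * X g ^ 2 ≤ m * (1 + (V ^ 2 * ((1 + η) * m) + m * r)) := by
    have e1 : ∑ g ∈ Gs, w g * X g ^ 2 = ∑ s ∈ S, ∑ t ∈ S, ∑ g ∈ Gs, w g * (i s g * i t g) := by
      have : ∀ g, w g * X g ^ 2 = ∑ s ∈ S, ∑ t ∈ S, w g * (i s g * i t g) := by
        intro g
        rw [hX, sq, sum_mul_sum, mul_sum]
        apply sum_congr rfl
        intro s _
        rw [mul_sum]
      simp_rw [this]
      rw [sum_comm]
      apply sum_congr rfl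
      intro s _
      rw [sum_comm]
    rw [e1]
    have : ∀ s ∈ S, ∑ t ∈ S, ∑ g ∈ Gs, w g * (i s g * i t g) ≤ 1 + (V ^ 2 * ((1 + η) * m) + m * r) := by
      intro s hs
      rw [← add_sum_erase S _ hs]
      apply add_le_add
      · rw [hc2, ← hw1]
        exact sum_le_sum_of_subset_of_nonneg (filter_subset _ _) (fun g _ _ => hw g)
      · calc ∑ t ∈ S.erase s, ∑ g ∈ Gs, w g * (i s g * i t g) ≤ ∑ t ∈ S.erase s, (V ^ 2 * F s t + r) := by
              apply sum_le_sum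
              intro t ht
              rw [hc2]
              exact h2 s hs t ht
          _ = V ^ 2 * ∑ t ∈ S.erase s, F s t + ((S.erase s).card : ℝ) * r := by
              rw [sum_add_distrib, sum_const, nsmul_eq_mul, mul_sum]
          _ ≤ V ^ 2 * ((1 + η) * m) + m * r := by
              have : ((S.erase s).card : ℝ) ≤ m := by
                rw [← hm]
                exact_mod_cast card_le_card (erase_subset _ _)
              have := h3 s hs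
              gcongr
    calc ∑ s ∈ S, ∑ t ∈ S, ∑ g ∈ Gs, w g * (i s g * i t g) ≤ ∑ _s ∈ S, (1 + (V ^ 2 * ((1 + η) * m) + m * r)) := sum_le_sum this
      _ = _ := by rw [sum_const, nsmul_eq_mul, hm]
  have hvar : ∑ g ∈ Gs, w g * (X g - m * V) ^ 2 ≤ η * (m * V) ^ 2 + m + 3 * (m ^ 2 * r) := by
    have e : ∑ g ∈ Gs, w g * (X g - m * V) ^ 2 = ∑ g ∈ Gs, w g * X g ^ 2 - 2 * (m * V) * ∑ g ∈ Gs, w g * X g + (m * V) ^ 2 := by
      have e2 : (m * V) ^ 2 = ∑ g ∈ Gs, w g * (m * V) ^ 2 := by rw [← sum_mul, hw1, one_mul]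
      rw [e2, mul_sum, ← sum_sub_distrib, ← sum_add_distrib]
      apply sum_congr rfl
      intro g _
      ring
    rw [e]
    have h5 : 2 * (m * V) * (m * (V - r)) ≤ 2 * (m * V) * ∑ g ∈ Gs, w g * X g := by
      apply mul_le_mul_of_nonneg_left hS1
      positivity
    have h6 : m * V * (m * r) ≤ m * (m * r) := by
      have : m * V ≤ m := by nlinarith
      apply mul_le_mul_of_nonneg_right this
      positivity
    nlinarith
  refine le_trans ?_ hvar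
  rw [sum_mul]
  apply sum_le_sum
  intro g _
  split_ifs with hg
  · rw [hXc]
    have h8 : 0 ≤ δ * (m * V) := by positivity
    apply mul_le_mul_of_nonneg_left _ (hw g)
    rw [← sq_abs (((S.filter (fun s => P s g)).card : ℝ) - m * V)]
    exact pow_le_pow_left₀ h8 hg.le 2
  · rw [zero_mul]
    exact mul_nonneg (hw g) (sq_nonneg _)

set_option maxHeartbeats 2000000 in
open Classical in
theorem rough_law2 (b L : ℕ) (hb : 2 ≤ b) (hL : 1 ≤ L) (η₀ : ℝ) (hη0 : 0 < η₀) (hη1 : η₀ ≤ 1) (T A : ℕ) (δ ε : ℝ) (hδ : 0 < δ)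
    (hε : 0 < ε) (θ : ℝ) (hθ : 0 < θ) (E : ℕ) : ∃ k₀ : ℕ, ∀ k : ℕ, k₀ ≤ k → ∀ p, Flex b L η₀ T k p →
    ∀ y z : ℕ, θ * Real.log k ≤ y → y ≤ z → (z : ℝ) ≤ (k : ℝ) ^ E → ∀ P : Finset ℕ, P ⊆ mid y z →
    ∀ (X : ℕ) (S : Finset ℕ), S ⊆ Icc 1 X → (X : ℝ) ≤ S.card * (k : ℝ) ^ A → (k : ℝ) ^ 5 ≤ S.card →
    ∀ (α : ℤ) (β : ℕ → ℤ), (∀ q ∈ P, ¬ (q : ℤ) ∣ α) →
    (∀ s ∈ S, ∀ t ∈ S, ∀ q v : ℕ, (q : ℤ) ∣ α * v + β s → (q : ℤ) ∣ α * v + β t → q ∣ Nat.dist s t * (s + t)) →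
    ∑ v ∈ range (b ^ k), (if δ * (S.card * VP P) < |((S.filter (fun s => ∀ q ∈ P, ¬ (q : ℤ) ∣ α * (v : ℕ) + β s)).card : ℝ) -
      S.card * VP P| then p v else 0) ≤ ε := by
  obtain ⟨η, hη⟩ : ∃ η : ℝ, η = ε * δ ^ 2 / 2 := ⟨_, rfl⟩
  have hη0' : 0 < η := by rw [hη]; positivity
  have hlη : 0 < Real.log (1 + η) := Real.log_pos (by linarith)
  obtain ⟨R, hR⟩ := exists_nat_ge (2 * ((A + 2) / Real.log (1 + η) + 1) / θ)
  obtain ⟨G1, hG1⟩ := single_law b L hb hL η₀ hη0 hη1 T E 5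
  obtain ⟨G2, hG2⟩ := pair_law b L hb hL η₀ hη0 hη1 T E 5
  obtain ⟨G3, hG3⟩ := VP_low E
  obtain ⟨x2, hx2⟩ := ev_L' (max (max 1 (Real.log (2 * Cr R))) (((b ^ L : ℕ) + 2) / θ))
  obtain ⟨x3, hx3⟩ := exists_nat_ge (12 / (ε * δ ^ 2))
  refine ⟨max (max G1 G2) (max G3 (max x2 (max x3 1))), fun k hk p hp y z hy hyz hz P hP X S hS hSc hS5 α β hα hβ => ?_⟩
  have b1 : G1 ≤ k := le_trans (le_trans (le_max_left _ _) (le_max_left _ _)) hk
  have b2 : G2 ≤ k := le_trans (le_trans (le_max_right _ _) (le_max_left _ _)) hk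
  have b3 : G3 ≤ k := le_trans (le_trans (le_max_left _ _) (le_max_right _ _)) hk
  have b4 : x2 ≤ k := le_trans (le_trans (le_trans (le_max_left _ _) (le_max_right _ _)) (le_max_right _ _)) hk
  have b5 : x3 ≤ k := le_trans (le_trans (le_trans (le_trans (le_max_left _ _) (le_max_right _ _)) (le_max_right _ _)) (le_max_right _ _)) hk
  have b6 : 1 ≤ k := le_trans (le_trans (le_trans (le_trans (le_max_right _ _) (le_max_right _ _)) (le_max_right _ _)) (le_max_right _ _)) hk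
  have hkr : (1 : ℝ) ≤ k := by exact_mod_cast b6
  have hk0 : (0 : ℝ) < k := by linarith
  have hLL0 := hx2 k b4
  have hLL : 1 ≤ Real.log k := (le_max_left _ _).trans ((le_max_left _ _).trans hLL0)
  have hLC : Real.log (2 * Cr R) ≤ Real.log k := (le_max_right _ _).trans ((le_max_left _ _).trans hLL0)
  have hLb : (((b ^ L : ℕ) : ℝ) + 2) / θ ≤ Real.log k := (le_max_right _ _).trans hLL0
  have hx3' : 12 / (ε * δ ^ 2) ≤ k := hx3.trans (by exact_mod_cast b5)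
  obtain ⟨lk, hlk⟩ : ∃ lk, lk = Real.log k := ⟨_, rfl⟩
  rw [← hlk] at hy hLL hLb hLC
  have hLb2 : ((b ^ L : ℕ) : ℝ) + 2 ≤ y := by
    rw [div_le_iff₀ hθ] at hLb
    linarith
  have hbLy : b ^ L ≤ y := by
    have : ((b ^ L : ℕ) : ℝ) ≤ y := by linarith
    exact_mod_cast this
  have hy2 : 2 ≤ y := by
    have : ((b ^ L : ℕ) : ℝ) ≥ 0 := Nat.cast_nonneg _
    have : (2 : ℝ) ≤ y := by linarith
    exact_mod_cast this
  have hR1 : 1 ≤ R := by
    have : (0 : ℝ) < 2 * ((A + 2) / Real.log (1 + η) + 1) / θ := by positivity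
    have : (0 : ℝ) < R := by linarith
    exact_mod_cast this
  have hz1 : 1 ≤ z := by omega
  obtain ⟨V, hV⟩ : ∃ V, V = VP P := ⟨_, rfl⟩
  have hV0 : 0 < V := by rw [hV]; exact VP_pos hP
  have hV1 : V ≤ 1 := by rw [hV]; exact VP_le hP
  have hVL : 1 / (k : ℝ) ^ 2 ≤ V := by rw [hV]; exact hG3 k b3 y z hyz hz1 hz P hP
  obtain ⟨m, hm⟩ : ∃ m : ℝ, m = (S.card : ℝ) := ⟨_, rfl⟩
  rw [← hm] at hSc hS5
  have hm0 : 0 < m := lt_of_lt_of_le (by positivity) hS5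
  have hRy : 2 ≤ R * y := by nlinarith
  obtain ⟨n, hn⟩ : ∃ n, R * y / 2 = n + 1 := ⟨R * y / 2 - 1, by omega⟩
  have hn6 : 2 * (n + 1) ≤ R * y := by omega
  have hpow : 2 * Cr R * (X : ℝ) ≤ (1 + η) ^ (n + 1) * S.card := by
    have hC0 := Cr_pos R
    have h1 : 2 * Cr R * (k : ℝ) ^ A ≤ (1 + η) ^ (n + 1) := by
      have h2 : ((n + 1 : ℕ) : ℝ) ≥ (R : ℝ) * y / 2 - 1 := by
        have : R * y < 2 * (n + 1) + 2 := by omega
        have h3 : (R : ℝ) * y < 2 * ((n + 1 : ℕ) : ℝ) + 2 := by exact_mod_cast this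
        linarith
      have h3 : (R : ℝ) * y / 2 - 1 ≥ (R * θ / 2 - 1) * lk := by
        have h0 : (R : ℝ) * (θ * lk) ≤ R * y := mul_le_mul_of_nonneg_left hy (Nat.cast_nonneg _)
        have h1 : ((R : ℝ) * θ / 2 - 1) * lk = (R * (θ * lk)) / 2 - lk := by ring
        rw [h1]
        linarith
      have h4 : (A + 2) / Real.log (1 + η) ≤ R * θ / 2 - 1 := by
        rw [div_le_iff₀ hθ] at hR
        linarith
      have h5 : (A + 2 : ℝ) ≤ (R * θ / 2 - 1) * Real.log (1 + η) := by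
        rwa [div_le_iff₀ hlη] at h4
      have h6 : Real.log (2 * Cr R * (k : ℝ) ^ A) ≤ ((n + 1 : ℕ) : ℝ) * Real.log (1 + η) := by
        rw [Real.log_mul (by positivity) (by positivity), Real.log_pow, ← hlk]
        calc Real.log (2 * Cr R) + A * lk ≤ lk + A * lk := by linarith
          _ ≤ (A + 2) * lk := by linarith
          _ ≤ ((R * θ / 2 - 1) * Real.log (1 + η)) * lk := by gcongr
          _ = ((R * θ / 2 - 1) * lk) * Real.log (1 + η) := by ring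
          _ ≤ ((n + 1 : ℕ) : ℝ) * Real.log (1 + η) := by gcongr; linarith
      rw [← Real.log_pow] at h6
      exact (Real.log_le_log_iff (by positivity) (by positivity)).1 h6
    rw [← hm]
    calc 2 * Cr R * (X : ℝ) ≤ 2 * Cr R * (m * (k : ℝ) ^ A) := by gcongr
      _ = 2 * Cr R * (k : ℝ) ^ A * m := by ring
      _ ≤ _ := by gcongr
  obtain ⟨Pr, hPr⟩ : ∃ Pr : ℕ → ℕ → Prop, ∀ s v, Pr s v ↔ (∀ q ∈ P, ¬ (q : ℤ) ∣ α * (v : ℕ) + β s) := ⟨_, fun _ _ => Iff.rfl⟩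
  obtain ⟨r, hr⟩ : ∃ r : ℝ, r = 1 / (k : ℝ) ^ 5 := ⟨_, rfl⟩
  have c1 : ∀ s ∈ S, V - r ≤ ∑ v ∈ (range (b ^ k)).filter (fun v => Pr s v), p v := by
    intro s _
    have := hG1 k b1 p hp y z hbLy hz1 hz P hP α (β s) hα
    have e1 : (range (b ^ k)).filter (fun v => Pr s v) = (range (b ^ k)).filter (fun v : ℕ => ∀ q ∈ P, ¬ (q : ℤ) ∣ α * v + β s) := by
      ext v
      rw [mem_filter, mem_filter, hPr]
    rw [e1, hV, hr]
    exact this
  have c2 : ∀ s ∈ S, ∀ t ∈ S.erase s, ∑ v ∈ (range (b ^ k)).filter (fun v => Pr s v ∧ Pr t v), p v ≤ V ^ 2 * Pool.Agent.Y877.SX.FF y z s t + r := by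
    intro s hs t ht
    have := hG2 k b2 p hp y z hbLy hz1 hz P hP α (β s) (β t) (Nat.dist s t * (s + t)) hα (by
      intro q _ v h1 h2
      exact hβ s hs t (mem_of_mem_erase ht) q v h1 h2)
    have e1 : (range (b ^ k)).filter (fun v => Pr s v ∧ Pr t v) = (range (b ^ k)).filter (fun v : ℕ =>
        (∀ q ∈ P, ¬ (q : ℤ) ∣ α * v + β s) ∧ (∀ q ∈ P, ¬ (q : ℤ) ∣ α * v + β t)) := by
      ext v
      rw [mem_filter, mem_filter, hPr, hPr]
    rw [e1, hV, hr]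
    refine this.trans ?_
    have h5 : fd y z (Nat.dist s t * (s + t)) ≤ Pool.Agent.Y877.SX.FF y z s t := fd_mul _ _ _ _
    have h6 : VP P ^ 2 * fd y z (Nat.dist s t * (s + t)) ≤ VP P ^ 2 * Pool.Agent.Y877.SX.FF y z s t :=
      mul_le_mul_of_nonneg_left h5 (by positivity)
    linarith
  have c3 : ∀ s ∈ S, ∑ t ∈ S.erase s, Pool.Agent.Y877.SX.FF y z s t ≤ (1 + η) * m := fun s hs => by
    have := FF_sumR R y z n X (by omega) hn6 S hS η hη0' hpow s hs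
    rwa [← hm] at this
  have hr0 : 0 ≤ r := by rw [hr]; positivity
  have key := chebW2 S (range (b ^ k)) Pr p hp.nonneg hp.sum V η δ r m (Pool.Agent.Y877.SX.FF y z) hV0 hV1 hδ hm.symm hr0 c1 c2 c3
  have e2 : ∑ v ∈ range (b ^ k), (if δ * (S.card * VP P) < |((S.filter (fun s => ∀ q ∈ P, ¬ (q : ℤ) ∣ α * (v : ℕ) + β s)).card : ℝ) -
      S.card * VP P| then p v else 0) =
      ∑ v ∈ range (b ^ k), (if δ * (m * V) < |((S.filter (fun s => Pr s v)).card : ℝ) - m * V| then p v else 0) := by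
    apply sum_congr rfl
    intro v _
    have e3 : S.filter (fun s => ∀ q ∈ P, ¬ (q : ℤ) ∣ α * (v : ℕ) + β s) = S.filter (fun s => Pr s v) := by
      ext s
      rw [mem_filter, mem_filter, hPr]
    rw [e3, ← hm, ← hV]
  rw [e2]
  obtain ⟨cnt, hcnt⟩ : ∃ cnt, cnt = ∑ v ∈ range (b ^ k), (if δ * (m * V) < |((S.filter (fun s => Pr s v)).card : ℝ) - m * V|
    then p v else 0) := ⟨_, rfl⟩
  rw [← hcnt] at key ⊢
  have hmV : 0 < m * V := by positivity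
  have hV4 : 1 / (k : ℝ) ^ 4 ≤ V ^ 2 := by
    have := pow_le_pow_left₀ (by positivity) hVL 2
    rw [div_pow, one_pow, ← pow_mul] at this
    exact this
  have hc : 3 ≤ ε / 4 * δ ^ 2 * k := by
    rw [div_le_iff₀ (by positivity)] at hx3'
    linarith
  have k1 : m ≤ ε / 4 * δ ^ 2 * (m * V) ^ 2 := by
    have h3 : 1 ≤ ε / 4 * δ ^ 2 * (m * V ^ 2) := by
      have h4 : (k : ℝ) ≤ m * V ^ 2 := by
        calc (k : ℝ) = (k : ℝ) ^ 5 * (1 / (k : ℝ) ^ 4) := by field_simp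
          _ ≤ m * V ^ 2 := mul_le_mul hS5 hV4 (by positivity) hm0.le
      have h5 : ε / 4 * δ ^ 2 * k ≤ ε / 4 * δ ^ 2 * (m * V ^ 2) := mul_le_mul_of_nonneg_left h4 (by positivity)
      linarith
    calc m = m * 1 := by ring
      _ ≤ m * (ε / 4 * δ ^ 2 * (m * V ^ 2)) := mul_le_mul_of_nonneg_left h3 hm0.le
      _ = _ := by ring
  have k2 : 3 * (m ^ 2 * r) ≤ ε / 4 * δ ^ 2 * (m * V) ^ 2 := by
    have h2 : 3 * r ≤ ε / 4 * δ ^ 2 * V ^ 2 := by
      calc 3 * r ≤ (ε / 4 * δ ^ 2 * k) * r := mul_le_mul_of_nonneg_right hc hr0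
        _ = ε / 4 * δ ^ 2 * (1 / (k : ℝ) ^ 4) := by rw [hr]; field_simp
        _ ≤ _ := mul_le_mul_of_nonneg_left hV4 (by positivity)
    calc 3 * (m ^ 2 * r) = m ^ 2 * (3 * r) := by ring
      _ ≤ m ^ 2 * (ε / 4 * δ ^ 2 * V ^ 2) := mul_le_mul_of_nonneg_left h2 (by positivity)
      _ = _ := by ring
  have k3 : cnt * (δ * (m * V)) ^ 2 ≤ ε * (δ * (m * V)) ^ 2 := by
    refine key.trans ?_
    have h1 : η * (m * V) ^ 2 = ε / 2 * δ ^ 2 * (m * V) ^ 2 := by rw [hη]; ring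
    have h2 : ε * (δ * (m * V)) ^ 2 = ε / 2 * δ ^ 2 * (m * V) ^ 2 + ε / 4 * δ ^ 2 * (m * V) ^ 2 +
      ε / 4 * δ ^ 2 * (m * V) ^ 2 := by ring
    rw [h1, h2]
    linarith
  exact le_of_mul_le_mul_right k3 (by positivity)


lemma few_large (y h : ℕ) (hy : 2 ≤ y) (hh : 1 ≤ h) (Q : Finset ℕ) (hQ : ∀ q ∈ Q, q.Prime ∧ y < q ∧ q ∣ h) :
    (Q.card : ℝ) * Real.log y ≤ Real.log h := by
  have h1 : (∏ q ∈ Q, q) ∣ h := prod_primes_dvd h (fun q hq => (hQ q hq).1.prime) (fun q hq => (hQ q hq).2.2)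
  have h2 : y ^ Q.card ≤ h := by
    calc y ^ Q.card = ∏ _q ∈ Q, y := by rw [prod_const]
      _ ≤ ∏ q ∈ Q, q := prod_le_prod' fun q hq => (hQ q hq).2.1.le
      _ ≤ h := Nat.le_of_dvd (by omega) h1
  have h3 : ((y ^ Q.card : ℕ) : ℝ) ≤ h := by exact_mod_cast h2
  have hy0 : (0 : ℝ) < y := by exact_mod_cast (by omega : 0 < y)
  have h4 := Real.log_le_log (by exact_mod_cast (pow_pos (by omega : 0 < y) _)) h3
  push_cast at h4
  rwa [Real.log_pow] at h4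

/-- few primes are left out -/
lemma VP_up (J : ℕ) (θ δ : ℝ) (hθ : 0 < θ) (hδ : 0 < δ) : ∃ k₀ : ℕ, ∀ k : ℕ, k₀ ≤ k → ∀ y z : ℕ, θ * Real.log k ≤ y →
    ∀ h : ℕ, 1 ≤ h → h ≤ k ^ J → ∀ P ⊆ mid y z, (∀ q ∈ mid y z, q ∉ P → q ∣ h) → VP P ≤ (1 + δ) * Vm y z := by
  have hl : 0 < Real.log (1 + δ) := Real.log_pos (by linarith)
  obtain ⟨D, hD⟩ : ∃ D : ℝ, D = 2 * J / (θ * Real.log (1 + δ)) := ⟨_, rfl⟩
  have hD0 : 0 ≤ D := by rw [hD]; positivity
  obtain ⟨x2, hx2⟩ := ev_L' (max 1 ((Real.exp D + 2) / θ))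
  refine ⟨max x2 1, fun k hk y z hy h hh1 hhJ P hP hPh => ?_⟩
  have b1 : x2 ≤ k := (le_max_left _ _).trans hk
  have b2 : 1 ≤ k := (le_max_right _ _).trans hk
  have hLL0 := hx2 k b1
  have hLL : 1 ≤ Real.log k := (le_max_left _ _).trans hLL0
  have hLb : (Real.exp D + 2) / θ ≤ Real.log k := (le_max_right _ _).trans hLL0
  rw [div_le_iff₀ hθ] at hLb
  have hyD : Real.exp D + 2 ≤ y := by linarith
  have hy0 : (0 : ℝ) < y := by linarith [Real.exp_pos D]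
  have hy2 : 2 ≤ y := by
    have : (2 : ℝ) ≤ y := by linarith [Real.exp_pos D]
    exact_mod_cast this
  have hly : D ≤ Real.log y := by
    rw [Real.le_log_iff_exp_le hy0]
    linarith
  have hly0 : 0 < Real.log y := Real.log_pos (by exact_mod_cast (by omega : 1 < y))
  have h1 := few_large y h hy2 hh1 (mid y z \ P) (fun q hq => by
    rw [mem_sdiff] at hq
    have := mem_mid.1 hq.1
    exact ⟨this.2.2, this.1, hPh q hq.1 hq.2⟩)
  have h2 : Real.log h ≤ J * Real.log k := by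
    have : (h : ℝ) ≤ (k : ℝ) ^ J := by exact_mod_cast hhJ
    have := Real.log_le_log (by exact_mod_cast hh1) this
    rwa [Real.log_pow] at this
  have h3 : VP P = Vm y z * ∏ q ∈ mid y z \ P, (1 - 1 / (q : ℝ))⁻¹ := by
    have e1 : Vm y z = (∏ q ∈ mid y z \ P, (1 - 1 / (q : ℝ))) * VP P := by
      unfold VP Vm
      exact (prod_sdiff hP).symm
    have e2 : ∏ q ∈ mid y z \ P, (1 - 1 / (q : ℝ)) ≠ 0 := by
      apply ne_of_gt
      exact prod_pos fun q hq => fac_pos (mem_mid.1 (mem_sdiff.1 hq).1).2.2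
    rw [prod_inv_distrib, e1]
    field_simp
  rw [h3, mul_comm (1 + δ)]
  apply mul_le_mul_of_nonneg_left _ (Vm_pos y z).le
  have h4 : ∏ q ∈ mid y z \ P, (1 - 1 / (q : ℝ))⁻¹ ≤ Real.exp (2 / y) ^ (mid y z \ P).card := by
    rw [← prod_const]
    apply prod_le_prod
    · intro q hq
      exact zero_le_one.trans (fac_inv_one (mem_mid.1 (mem_sdiff.1 hq).1).2.2)
    · intro q hq
      have h5 := mem_mid.1 (mem_sdiff.1 hq).1
      refine (inv_exp q h5.2.2).trans (Real.exp_le_exp.2 ?_)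
      have : (y : ℝ) < q := by exact_mod_cast h5.1
      gcongr
  refine h4.trans ?_
  rw [← Real.exp_nat_mul]
  rw [← Real.le_log_iff_exp_le (by linarith)]
  obtain ⟨n, hn⟩ : ∃ n : ℝ, n = ((mid y z \ P).card : ℝ) := ⟨_, rfl⟩
  rw [← hn] at h1 ⊢
  have hn0 : 0 ≤ n := by rw [hn]; exact Nat.cast_nonneg _
  -- `n D ≤ J log k ≤ (J / θ) y`
  have h6 : n * D ≤ J * Real.log k := (mul_le_mul_of_nonneg_left hly hn0).trans (h1.trans h2)
  have h7 : n * (2 * J) ≤ (J * Real.log k) * (θ * Real.log (1 + δ)) := by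
    rw [hD, mul_div_assoc', div_le_iff₀ (by positivity)] at h6
    exact h6
  rw [mul_div_assoc', div_le_iff₀ hy0]
  rcases Nat.eq_zero_or_pos J with hJ | hJ
  · -- `h = 1`
    rw [hJ, pow_zero] at hhJ
    have hh : h = 1 := by omega
    have hc : (mid y z \ P).card = 0 := by
      rw [card_eq_zero]
      apply eq_empty_of_forall_notMem
      intro q hq
      rw [mem_sdiff] at hq
      have h8 := hPh q hq.1 hq.2
      rw [hh] at h8
      exact (mem_mid.1 hq.1).2.2.one_lt.ne' (Nat.dvd_one.1 h8)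
    rw [hn, hc]
    push_cast
    rw [zero_mul]
    positivity
  · have hJ0 : (0 : ℝ) < J := by exact_mod_cast hJ
    have h8 : n * 2 ≤ Real.log k * (θ * Real.log (1 + δ)) := by
      have : (n * 2) * J ≤ (Real.log k * (θ * Real.log (1 + δ))) * J := by linarith
      exact le_of_mul_le_mul_right this hJ0
    calc n * 2 ≤ (θ * Real.log k) * Real.log (1 + δ) := by linarith
      _ ≤ y * Real.log (1 + δ) := mul_le_mul_of_nonneg_right hy hl.le
      _ = _ := mul_comm _ _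

end Pool.Agent.N625.PT
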