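import Pool.Agent.N625.PT.X12
import Pool.Agent.H373R2.T7.LamMaj

set_option autoImplicit false

/-! Random multiples of a small primorial: arbitrary dense sets of primes; primes in progressions. -/

namespace Pool.Agent.N625.PT
open Finset
open Pool.Agent.H373R2.T7 (pz mem_pz Vz Vz_pos Vz_le_one ev_L')

/-- few primes divide an integer -/
lemma few_dvd (D : ℕ) (hD : 1 ≤ D) (Q : Finset ℕ) (hQ : ∀ q ∈ Q, q.Prime ∧ q ∣ D) : Q.card ≤ D := by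
  have h1 : (∏ q ∈ Q, q) ∣ D := prod_primes_dvd D (fun q hq => (hQ q hq).1.prime) (fun q hq => (hQ q hq).2)
  have h2 : 2 ^ Q.card ≤ D := by
    calc 2 ^ Q.card = ∏ _q ∈ Q, 2 := by rw [prod_const]
      _ ≤ ∏ q ∈ Q, q := prod_le_prod' fun q hq => (hQ q hq).1.two_le
      _ ≤ D := Nat.le_of_dvd (by omega) h1
  exact (Nat.lt_two_pow_self.le).trans h2

/-- removing few elements -/
lemma remove_few (m m' c c' d Q ε : ℝ) (hQ : 0 < Q) (hε : 0 < ε) (_hε1 : ε ≤ 1) (h1 : m' ≤ m) (h2 : m ≤ m' + d) (h3 : c' ≤ c) (h4 : c ≤ c' + d)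
    (_hd : 0 ≤ d) (_hm' : 0 ≤ m') (hbig : 4 * d ≤ ε * m) (hbig2 : 4 * d * Q ≤ ε * m) (h : |c' - m' / Q| ≤ ε / 2 * (m' / Q)) :
    |c - m / Q| ≤ ε * (m / Q) := by
  obtain ⟨g1, g2⟩ := abs_le.1 h
  have e1 : m' / Q ≤ m / Q := div_le_div_of_nonneg_right h1 hQ.le
  have e2 : m / Q ≤ m' / Q + d / Q := by
    rw [← add_div]
    exact div_le_div_of_nonneg_right h2 hQ.le
  have e3 : 4 * (d / Q) ≤ ε * (m / Q) := by
    rw [mul_div_assoc', mul_div_assoc']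
    exact div_le_div_of_nonneg_right hbig hQ.le
  have e4 : 4 * d ≤ ε * (m / Q) := by
    rw [mul_div_assoc', le_div_iff₀ hQ]
    exact hbig2
  have e5 : ε / 2 * (m' / Q) ≤ ε / 2 * (m / Q) := mul_le_mul_of_nonneg_left e1 (by linarith)
  rw [abs_le]
  constructor <;> linarith

lemma big_enough (b A C U : ℕ) (hb : 2 ≤ b) (ε : ℝ) (hε : 0 < ε) : ∃ k₀ : ℕ, ∀ k : ℕ, k₀ ≤ k → 2 ≤ k ∧ Real.log b ≤ k ∧
    ∀ X : ℕ, b ^ k ≤ X * k ^ C → ∀ m : ℝ, 0 ≤ m → (X : ℝ) ≤ m * (k : ℝ) ^ A → 4 * (k : ℝ) ^ U ≤ ε * m := by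
  obtain ⟨k1, hk1⟩ := exists_nat_ge (Real.log b)
  obtain ⟨k2, hk2⟩ := exists_nat_ge (4 / ε)
  obtain ⟨k3, hk3⟩ := pow_le_pow_digits b hb (U + 1 + A + C)
  refine ⟨max (max k1 k2) (max k3 2), fun k hk => ⟨by omega, hk1.trans (by exact_mod_cast (by omega : k1 ≤ k)), fun X hX m hm hXA => ?_⟩⟩
  have b1 := hk3 k (by omega)
  have b2 : 4 / ε ≤ k := hk2.trans (by exact_mod_cast (by omega : k2 ≤ k))
  have hk0 : (0 : ℝ) < k := by exact_mod_cast (by omega : 0 < k)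
  rw [div_le_iff₀ hε] at b2
  have h1 : (k : ℝ) ^ (U + 1 + A + C) ≤ m * (k : ℝ) ^ (A + C) := by
    calc (k : ℝ) ^ (U + 1 + A + C) ≤ (b : ℝ) ^ k := by exact_mod_cast b1
      _ ≤ X * (k : ℝ) ^ C := by exact_mod_cast hX
      _ ≤ (m * (k : ℝ) ^ A) * (k : ℝ) ^ C := mul_le_mul_of_nonneg_right hXA (by positivity)
      _ = _ := by rw [pow_add]; ring
  have h2 : (k : ℝ) ^ (U + 1) ≤ m := by
    have e : (k : ℝ) ^ (U + 1 + A + C) = (k : ℝ) ^ (U + 1) * (k : ℝ) ^ (A + C) := by rw [← pow_add]; congr 1; ring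
    rw [e] at h1
    exact le_of_mul_le_mul_right h1 (by positivity)
  calc 4 * (k : ℝ) ^ U ≤ (k * ε) * (k : ℝ) ^ U := mul_le_mul_of_nonneg_right b2 (by positivity)
    _ = ε * (k : ℝ) ^ (U + 1) := by rw [pow_succ]; ring
    _ ≤ ε * m := mul_le_mul_of_nonneg_left h2 hε.le

lemma mult_small (K₁ J k y h : ℕ) (hk : 3 ≤ k) (hy : (y : ℝ) ≤ K₁ * Real.log k) (hh : h ≤ k ^ J) : primorial y * h ≤ k ^ (2 * K₁ + J) := by
  have h1 : primorial y ≤ k ^ (2 * K₁) := by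
    have hk3 : (3 : ℝ) ≤ k := by exact_mod_cast hk
    have : ((primorial y : ℕ) : ℝ) ≤ (k : ℝ) ^ (2 * K₁) :=
      Pool.Agent.Y877.SX.primorial_le_log K₁ y (k : ℝ) (by linarith [Real.exp_one_lt_d9]) hy
    exact_mod_cast this
  rw [pow_add]
  exact Nat.mul_le_mul h1 hh

set_option maxHeartbeats 1000000 in
open Classical in
/-- arbitrary dense sets of primes -/
theorem law2P (b L : ℕ) (hb : 2 ≤ b) (hL : 1 ≤ L) (η : ℝ) (hη0 : 0 < η) (hη1 : η ≤ 1) (κ : ℤ) (hκ : κ ≠ 0)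
    (T B J A C K₁ : ℕ) (θ : ℝ) (hθ : 0 < θ) (ε : ℝ) (hε : 0 < ε) (hε1 : ε ≤ 1) : ∃ k₀ : ℕ, ∀ k : ℕ, k₀ ≤ k →
    ∀ p, Flex b L η T k p → ∀ y : ℕ, θ * Real.log k ≤ y → y ≤ K₁ * Real.log k → ∀ c : ℤ, |c| ≤ B * (b : ℤ) ^ k →
    ∀ h : ℕ, 1 ≤ h → h ≤ k ^ J → ∀ X : ℕ, b ^ k ≤ X * k ^ C → X ≤ b ^ k * k ^ C →
    ∀ S : Finset ℕ, S ⊆ Icc 1 X → (∀ s ∈ S, s.Prime) → (X : ℝ) ≤ S.card * (k : ℝ) ^ A → ∀ σ : ℤ, (σ = 1 ∨ σ = -1) →
    ∑ v ∈ range (b ^ k), (if (∀ s ∈ S, 0 < Nm y h c κ v + σ * (s : ℕ)) ∧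
      ε * (S.card / (Vz y * (k * Real.log b))) <
      |((S.filter (fun s => (Nm y h c κ v + σ * (s : ℕ)).toNat.Prime)).card : ℝ) -
      S.card / (Vz y * (k * Real.log b))| then p v else 0) ≤ ε := by
  obtain ⟨k1, hk1⟩ := law2 b L hb hL η hη0 hη1 κ hκ T B J (A + 1) C K₁ θ hθ (ε / 2) (by linarith) (by linarith)
  obtain ⟨k2, hk2⟩ := big_enough b A C (2 * K₁ + J + 2) hb ε hε
  refine ⟨max (max k1 k2) 3, fun k hk p hp y hy1 hy2 c hc h hh1 hhJ X hX1 hX2 S hS hSp hSA σ hσ => ?_⟩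
  obtain ⟨b3, b4, hbig⟩ := hk2 k (by omega)
  have hk3 : 3 ≤ k := by omega
  have hkr : (3 : ℝ) ≤ k := by exact_mod_cast hk3
  have hk0 : (0 : ℝ) < k := by linarith
  have hbr : (2 : ℝ) ≤ b := by exact_mod_cast hb
  have hlogb : 0.69 < Real.log b := by
    have := Real.log_two_gt_d9
    have := Real.log_le_log (by norm_num) hbr
    linarith
  obtain ⟨Q, hQ⟩ : ∃ Q : ℝ, Q = Vz y * (k * Real.log b) := ⟨_, rfl⟩
  have hVy := Vz_pos y
  have hQ0 : 0 < Q := by rw [hQ]; exact mul_pos hVy (mul_pos hk0 (by linarith))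
  have hQk : Q ≤ (k : ℝ) ^ 2 := by
    rw [hQ, sq]
    have g1 : (k : ℝ) * Real.log b ≤ k * k := mul_le_mul_of_nonneg_left b4 hk0.le
    have g2 : Vz y * (k * Real.log b) ≤ 1 * (k * Real.log b) := mul_le_mul_of_nonneg_right (Vz_le_one y)
      (mul_nonneg hk0.le (by linarith))
    linarith
  have hD := mult_small K₁ J k y h hk3 hy2 hhJ
  have hD1 : 1 ≤ primorial y * h := Nat.mul_pos (primorial_pos y) hh1
  obtain ⟨S', hS'⟩ : ∃ S', S' = S.filter (fun s => ¬ s ∣ primorial y * h) := ⟨_, rfl⟩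
  obtain ⟨R, hR⟩ : ∃ R, R = S.filter (fun s => s ∣ primorial y * h) := ⟨_, rfl⟩
  have hsub : S' ⊆ S := by rw [hS']; exact filter_subset _ _
  have hRc : R.card ≤ k ^ (2 * K₁ + J) := by
    refine (few_dvd _ hD1 R fun q hq => ?_).trans hD
    rw [hR, mem_filter] at hq
    exact ⟨hSp q hq.1, hq.2⟩
  have hcard : ∀ (P : ℕ → Prop) [DecidablePred P], (S.filter P).card ≤ (S'.filter P).card + k ^ (2 * K₁ + J) := by
    intro P _
    have h1 : S.filter P ⊆ S'.filter P ∪ R := by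
      intro s hs
      rw [mem_filter] at hs
      rw [mem_union, mem_filter, hS', hR, mem_filter, mem_filter]
      by_cases hd : s ∣ primorial y * h
      · exact Or.inr ⟨hs.1, hd⟩
      · exact Or.inl ⟨⟨hs.1, hd⟩, hs.2⟩
    exact (card_le_card h1).trans ((card_union_le _ _).trans (by omega))
  have hc1 : (S.card : ℝ) ≤ S'.card + (k : ℝ) ^ (2 * K₁ + J) := by
    have h1 : S ⊆ S' ∪ R := by
      intro s hs
      rw [mem_union, hS', hR, mem_filter, mem_filter]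
      by_cases hd : s ∣ primorial y * h
      · exact Or.inr ⟨hs, hd⟩
      · exact Or.inl ⟨hs, hd⟩
    have h2 : S.card ≤ S'.card + k ^ (2 * K₁ + J) := (card_le_card h1).trans ((card_union_le _ _).trans (by omega))
    exact_mod_cast h2
  have hc2 : (S'.card : ℝ) ≤ S.card := by exact_mod_cast card_le_card hsub
  have hm0 : (0 : ℝ) ≤ S.card := Nat.cast_nonneg _
  have hU := hbig X hX1 S.card hm0 hSA
  have hd1 : (k : ℝ) ^ (2 * K₁ + J) ≤ (k : ℝ) ^ (2 * K₁ + J + 2) := pow_le_pow_right₀ (by linarith) (by omega)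
  have hd2 : (k : ℝ) ^ (2 * K₁ + J) * Q ≤ (k : ℝ) ^ (2 * K₁ + J + 2) := by
    rw [pow_add (k : ℝ) (2 * K₁ + J) 2]
    exact mul_le_mul_of_nonneg_left hQk (by positivity)
  have hdpos : 0 ≤ (k : ℝ) ^ (2 * K₁ + J) := by positivity
  have hSA' : (X : ℝ) ≤ S'.card * (k : ℝ) ^ (A + 1) := by
    have h1 : (S.card : ℝ) ≤ 2 * S'.card := by nlinarith
    calc (X : ℝ) ≤ S.card * (k : ℝ) ^ A := hSA
      _ ≤ (2 * S'.card) * (k : ℝ) ^ A := mul_le_mul_of_nonneg_right h1 (by positivity)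
      _ = S'.card * ((k : ℝ) ^ A * 2) := by ring
      _ ≤ S'.card * ((k : ℝ) ^ A * k) := by
          apply mul_le_mul_of_nonneg_left _ (Nat.cast_nonneg _)
          exact mul_le_mul_of_nonneg_left (by linarith) (by positivity)
      _ = _ := by rw [pow_succ]
  have h5 := hk1 k (by omega) p hp y hy1 hy2 c hc h hh1 hhJ X hX1 hX2 S' (hsub.trans hS) (fun s hs => by
    rw [hS', mem_filter] at hs
    exact (hSp s hs.1).coprime_iff_not_dvd.2 hs.2) hSA' σ hσ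
  have hε2 : ε / 2 ≤ ε := by linarith
  refine le_trans (sum_le_sum fun v _ => ?_) (h5.trans hε2)
  have hpv := hp.nonneg v
  rw [← hQ]
  obtain ⟨Bad, hBad⟩ : ∃ Bad : Prop, Bad ↔ ((∀ s ∈ S', 0 < ((primorial y * h : ℕ) : ℤ) * (c + κ * (v : ℕ)) + σ * (s : ℕ)) ∧
      ε / 2 * (S'.card / Q) <
      |((S'.filter (fun s => (((primorial y * h : ℕ) : ℤ) * (c + κ * (v : ℕ)) + σ * (s : ℕ)).toNat.Prime)).card : ℝ) -
      S'.card / Q|) := ⟨_, Iff.rfl⟩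
  obtain ⟨Bad', hBad'⟩ : ∃ Bad' : Prop, Bad' ↔ ((∀ s ∈ S, 0 < Nm y h c κ v + σ * (s : ℕ)) ∧
      ε * (S.card / Q) < |((S.filter (fun s => (Nm y h c κ v + σ * (s : ℕ)).toNat.Prime)).card : ℝ) - S.card / Q|) := ⟨_, Iff.rfl⟩
  have himp : Bad' → Bad := by
    intro hq
    rw [hBad'] at hq
    rw [hBad]
    obtain ⟨q1, q2⟩ := hq
    refine ⟨fun s hs => q1 s (hsub hs), ?_⟩
    by_contra hcon
    push Not at hcon
    have h6 : ((S'.filter (fun s => (Nm y h c κ v + σ * (s : ℕ)).toNat.Prime)).card : ℝ) ≤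
        ((S.filter (fun s => (Nm y h c κ v + σ * (s : ℕ)).toNat.Prime)).card : ℝ) := by
      exact_mod_cast card_le_card (filter_subset_filter _ hsub)
    have h7 : ((S.filter (fun s => (Nm y h c κ v + σ * (s : ℕ)).toNat.Prime)).card : ℝ) ≤
        ((S'.filter (fun s => (Nm y h c κ v + σ * (s : ℕ)).toNat.Prime)).card : ℝ) + (k : ℝ) ^ (2 * K₁ + J) := by
      exact_mod_cast hcard (fun s => (Nm y h c κ v + σ * (s : ℕ)).toNat.Prime)
    have := remove_few (S.card : ℝ) (S'.card : ℝ) _ _ ((k : ℝ) ^ (2 * K₁ + J)) Q ε hQ0 hε hε1 hc2 hc1 h6 h7 hdpos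
      (Nat.cast_nonneg _) (by linarith) (by linarith) hcon
    linarith
  have hgoal : (if Bad' then p v else 0) ≤ (if Bad then p v else 0) := by
    by_cases hq : Bad'
    · rw [if_pos hq, if_pos (himp hq)]
    · rw [if_neg hq]
      split_ifs
      · exact hpv
      · exact le_rfl
  refine le_trans (le_of_eq ?_) (hgoal.trans (le_of_eq ?_))
  · by_cases hq : Bad'
    · rw [if_pos hq, if_pos (hBad'.1 hq)]
    · rw [if_neg hq, if_neg (fun h => hq (hBad'.2 h))]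
  · by_cases hq : Bad
    · rw [if_pos hq, if_pos (hBad.1 hq)]
    · rw [if_neg hq, if_neg (fun h => hq (hBad.2 h))]

end Pool.Agent.N625.PT
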