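import Pool.Agent.N625.PT.X13

set_option autoImplicit false

/-! Random multiples of a small primorial: the primes are a dense set, also in a progression. -/

namespace Pool.Agent.N625.PT
open Finset
open Pool.Agent.H373R2.T7 (ev_L' lam_ap)
open Pool.Agent.R518.IP (ip IPs ip_prime IPs_low)

open Classical in
lemma primes_dense (b C : ℕ) (hb : 2 ≤ b) : ∃ k₀ : ℕ, ∀ k : ℕ, k₀ ≤ k → ∀ X : ℕ, b ^ k ≤ X * k ^ C → X ≤ b ^ k * k ^ C →
    ∀ N₀ ≤ k ^ 3, (X : ℝ) ≤ ((Icc 1 X).filter (fun p : ℕ => p.Prime ∧ N₀ < p)).card * (k : ℝ) ^ 4 := by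
  obtain ⟨k1, h1⟩ := ip_dense b C 0 hb
  obtain ⟨k2, h2⟩ := pow_le_pow_digits b hb (7 + C)
  refine ⟨max (max k1 k2) 2, fun k hk X hX1 hX2 N₀ hN₀ => ?_⟩
  have b1 := h1 k (by omega) X hX1 hX2
  have b2 := h2 k (by omega)
  have hkr : (2 : ℝ) ≤ k := by exact_mod_cast (by omega : 2 ≤ k)
  have hk0 : (0 : ℝ) < k := by linarith
  obtain ⟨P, hP⟩ : ∃ P, P = (Icc 1 X).filter (fun p : ℕ => p.Prime ∧ N₀ < p) := ⟨_, rfl⟩
  rw [← hP]
  have h3 : (IPs 0 X).card ≤ P.card + k ^ 3 := by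
    have h4 : IPs 0 X ⊆ P ∪ Icc 1 N₀ := by
      intro p hp
      have h5 := IPs_prime 0 X p hp
      have h6 := mem_Icc.1 (IPs_sub 0 X hp)
      rw [mem_union, hP, mem_filter, mem_Icc, mem_Icc]
      by_cases h7 : N₀ < p
      · exact Or.inl ⟨h6, h5, h7⟩
      · exact Or.inr ⟨h6.1, by omega⟩
    refine (card_le_card h4).trans ((card_union_le _ _).trans ?_)
    rw [Nat.card_Icc]
    omega
  have h4 : ((IPs 0 X).card : ℝ) ≤ P.card + (k : ℝ) ^ 3 := by exact_mod_cast h3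
  have h5 : (X : ℝ) ≤ (P.card + (k : ℝ) ^ 3) * (k : ℝ) ^ 3 := b1.trans (mul_le_mul_of_nonneg_right h4 (by positivity))
  have h6 : 2 * (k : ℝ) ^ 6 ≤ X := by
    have h7 : (k : ℝ) ^ (7 + C) ≤ X * (k : ℝ) ^ C := by exact_mod_cast b2.trans hX1
    rw [pow_add] at h7
    have h8 : (k : ℝ) ^ 7 ≤ X := le_of_mul_le_mul_right h7 (by positivity)
    refine le_trans ?_ h8
    calc 2 * (k : ℝ) ^ 6 ≤ k * (k : ℝ) ^ 6 := mul_le_mul_of_nonneg_right hkr (by positivity)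
      _ = _ := by ring
  have h7 : (X : ℝ) ≤ 2 * (P.card * (k : ℝ) ^ 3) := by nlinarith
  calc (X : ℝ) ≤ 2 * (P.card * (k : ℝ) ^ 3) := h7
    _ ≤ k * (P.card * (k : ℝ) ^ 3) := mul_le_mul_of_nonneg_right hkr (by positivity)
    _ = _ := by ring

/-- primes in a progression with a small modulus -/
lemma ap_low (K : ℕ) : ∃ X₀ : ℕ, ∀ X : ℕ, X₀ ≤ X → ∀ q : ℕ, 1 ≤ q → (q : ℝ) ≤ Real.log X ^ K → ∀ c : ℕ, c.Coprime q →
    (X : ℝ) / (4 * q * Real.log X) ≤ (((Icc 1 X).filter (fun p : ℕ => p.Prime ∧ p ≡ c [MOD q])).card : ℝ) := by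
  obtain ⟨N0, h0⟩ := lam_ap K (K + 1)
  obtain ⟨n1, h1⟩ := ev_L' 8
  obtain ⟨b2, h2⟩ := pow_le_pow_digits 2 le_rfl (2 * K + 8)
  obtain ⟨n3, h3⟩ := ev_L' (b2 + 2 ^ (K + 5) + 2)
  refine ⟨max (max N0 n1) (max n3 4), fun X hX q hq hqX c hc => ?_⟩
  have g1 := h0 X (by omega) q hq hqX c X le_rfl
  have hL8 := h1 X (by omega)
  have hL3 := h3 X (by omega)
  have hX4 : 4 ≤ X := by omega
  have hX0 : (0 : ℝ) < X := by exact_mod_cast (by omega : 0 < X)
  obtain ⟨Lg, hLg⟩ : ∃ Lg, Lg = Real.log X := ⟨_, rfl⟩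
  rw [← hLg] at g1 hL8 hL3 hqX ⊢
  have hL0 : 0 < Lg := by linarith
  have hq0 : (0 : ℝ) < q := by exact_mod_cast (by omega : 0 < q)
  rw [if_pos hc] at g1
  have hφ : (Nat.totient q : ℝ) ≤ q := by exact_mod_cast Nat.totient_le q
  have hφ0 : (0 : ℝ) < Nat.totient q := by exact_mod_cast Nat.totient_pos.2 (by omega)
  have g2 : (X : ℝ) / q ≤ X / Nat.totient q := div_le_div_of_nonneg_left hX0.le hφ0 hφ
  have g3 : (X : ℝ) / Lg ^ (K + 1) ≤ X / q / 8 := by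
    rw [div_div]
    apply div_le_div_of_nonneg_left hX0.le (by positivity)
    calc (q : ℝ) * 8 ≤ Lg ^ K * Lg := mul_le_mul hqX hL8 (by norm_num) (by positivity)
      _ = _ := (pow_succ _ _).symm
  -- the proper prime powers
  have g4 := pp_one X (by omega) ((Icc 1 X).filter (fun n => n ≡ c [MOD q])) (fun n => n) (fun a _ b _ h => h) (by
    intro s hs
    rw [mem_filter, mem_Icc] at hs
    exact ⟨by omega, hs.1.2⟩)
  rw [← hLg] at g4
  have g5 : 2 * √(X : ℝ) * Lg ≤ X / q / 8 := by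
    -- `L ^ (2 K + 8) ≤ X`
    obtain ⟨t, ht⟩ : ∃ t, t = ⌊Lg⌋₊ := ⟨_, rfl⟩
    have t1 : (t : ℝ) ≤ Lg := by rw [ht]; exact Nat.floor_le hL0.le
    have t2 : Lg < t + 1 := by rw [ht]; exact Nat.lt_floor_add_one _
    have hp5 : (0 : ℝ) < 2 ^ (K + 5) := by positivity
    have t3 : b2 ≤ t := by
      have : (b2 : ℝ) < t + 1 := by linarith
      have : b2 < t + 1 := by exact_mod_cast this
      omega
    have t30 : (2 : ℝ) ^ (K + 5) ≤ t := by
      have : (0 : ℝ) ≤ b2 := Nat.cast_nonneg _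
      linarith
    have t4 := h2 t t3
    have t5 : (2 : ℝ) ^ t ≤ X := by
      have e1 : (2 : ℝ) ^ t ≤ Real.exp 1 ^ t := pow_le_pow_left₀ (by norm_num) (by linarith [Real.exp_one_gt_d9]) _
      refine e1.trans ?_
      rw [← Real.exp_nat_mul, mul_one]
      have : Real.exp t ≤ Real.exp Lg := Real.exp_le_exp.2 t1
      rwa [hLg, Real.exp_log hX0] at this
    have t6 : (t : ℝ) ^ (2 * K + 8) ≤ X := le_trans (by exact_mod_cast t4) t5
    have t7 : Lg ≤ 2 * t := by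
      have : (1 : ℝ) ≤ t := by linarith
      linarith
    have t8 : (t : ℝ) ^ (K + 4) ≤ √(X : ℝ) := by
      apply Real.le_sqrt_of_sq_le
      rw [← pow_mul]
      exact le_trans (le_of_eq (by congr 1; ring)) t6
    have hs0 : 0 ≤ √(X : ℝ) := Real.sqrt_nonneg _
    have hsq : √(X : ℝ) * √(X : ℝ) = X := Real.mul_self_sqrt hX0.le
    have t0 : (1 : ℝ) ≤ t := by
      have : (1 : ℝ) ≤ 2 ^ (K + 5) := one_le_pow₀ (by norm_num)
      linarith
    have t9 : 16 * q * Lg ≤ √(X : ℝ) := by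
      refine le_trans ?_ t8
      calc 16 * q * Lg ≤ 16 * Lg ^ K * Lg := by gcongr
        _ = 16 * Lg ^ (K + 1) := by ring
        _ ≤ 16 * (2 * t) ^ (K + 1) := by gcongr
        _ = 2 ^ (K + 5) * (t : ℝ) ^ (K + 1) := by ring
        _ ≤ t * (t : ℝ) ^ (K + 1) := by gcongr
        _ = (t : ℝ) ^ (K + 2) := by ring
        _ ≤ (t : ℝ) ^ (K + 4) := pow_le_pow_right₀ t0 (by omega)
    rw [div_div, le_div_iff₀ (by positivity)]
    calc 2 * √(X : ℝ) * Lg * (q * 8) = √(X : ℝ) * (16 * q * Lg) := by ring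
      _ ≤ √(X : ℝ) * √(X : ℝ) := mul_le_mul_of_nonneg_left t9 hs0
      _ = X := hsq
  obtain ⟨F, hF⟩ : ∃ F, F = (Icc 1 X).filter (fun n => n ≡ c [MOD q]) := ⟨_, rfl⟩
  rw [← hF] at g1 g4
  obtain ⟨G, hG⟩ : ∃ G, G = (Icc 1 X).filter (fun p : ℕ => p.Prime ∧ p ≡ c [MOD q]) := ⟨_, rfl⟩
  rw [← hG]
  have hGF : G = F.filter (fun n => n.Prime) := by
    rw [hG, hF, filter_filter]
    apply filter_congr
    intro n _
    tauto
  have g6 : ∑ n ∈ F, ArithmeticFunction.vonMangoldt n ≤ G.card * Lg + ∑ s ∈ F, (if s.Prime then (0 : ℝ) else ArithmeticFunction.vonMangoldt s) := by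
    rw [hGF, card_eq_sum_ones, Nat.cast_sum, sum_mul, sum_filter, ← sum_add_distrib]
    apply sum_le_sum
    intro n hn
    rw [hF, mem_filter, mem_Icc] at hn
    by_cases hp : n.Prime
    · rw [if_pos hp, if_pos hp, ArithmeticFunction.vonMangoldt_apply_prime hp, Nat.cast_one, one_mul, add_zero, hLg]
      apply Real.log_le_log (by exact_mod_cast hp.pos)
      exact_mod_cast hn.1.2
    · rw [if_neg hp, if_neg hp, zero_add]
  have g7 := (abs_le.1 g1).1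
  have g8 : (X : ℝ) / q - X / q / 8 - X / q / 8 ≤ G.card * Lg := by linarith
  have hXq : 0 < (X : ℝ) / q := by positivity
  rw [div_le_iff₀ (by positivity)]
  have g9 : (X : ℝ) / q / 4 ≤ G.card * Lg := by linarith
  rw [div_div, div_le_iff₀ (by positivity)] at g9
  calc (X : ℝ) ≤ G.card * Lg * (q * 4) := g9
    _ = _ := by ring

end Pool.Agent.N625.PT
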