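import Pool.Agent.N625.PT.X14

set_option autoImplicit false

/-! Several independent random multiples of a small primorial: the last number is composite. -/

namespace Pool.Agent.N625.PT
open Finset
open Pool.Agent.H373R2.T7 (pz mem_pz Vz Vz_pos Vz_le_one ev_L')
open Pool.Agent.Y877.SX (fac_pos fac_le)

lemma Vz_low (y : ℕ) (hy : 1 ≤ y) : 1 / (y : ℝ) ≤ Vz y := by
  have h1 : ∀ n : ℕ, 1 ≤ n → ∏ m ∈ Icc 2 n, (1 - 1 / (m : ℝ)) = 1 / (n : ℝ) := by
    intro n hn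
    induction n, hn using Nat.le_induction with
    | base => simp
    | succ n hn ih =>
      have hn0 : (0 : ℝ) < n := by exact_mod_cast (by omega : 0 < n)
      rw [prod_Icc_succ_top (by omega), ih]
      push_cast
      field_simp
      ring
  rw [← h1 y hy]
  unfold Vz
  have hsub : pz y ⊆ Icc 2 y := by
    intro p hp
    rw [mem_pz] at hp
    exact mem_Icc.2 ⟨hp.2.two_le, hp.1⟩
  rw [← prod_sdiff hsub]
  apply mul_le_of_le_one_left (prod_nonneg fun p hp => (fac_pos (mem_pz.1 hp).2).le)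
  apply prod_le_one
  · intro n hn
    have h2 : (2 : ℝ) ≤ n := by exact_mod_cast (mem_Icc.1 (mem_sdiff.1 hn).1).1
    have h3 : 1 / (n : ℝ) ≤ 1 / 2 := one_div_le_one_div_of_le (by norm_num) h2
    linarith
  · intro n _
    exact fac_le

lemma Q_large (b K₁ : ℕ) (hb : 2 ≤ b) (D : ℝ) : ∃ k₀ : ℕ, ∀ k : ℕ, k₀ ≤ k → ∀ y : ℕ, y ≤ K₁ * Real.log k →
    D ≤ Vz y * (k * Real.log b) := by
  obtain ⟨k1, h1⟩ := ev4 (max 1 (2 * (|D| + 1) * (K₁ + 1)))
  refine ⟨max k1 3, fun k hk y hy => ?_⟩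
  obtain ⟨g1, g2⟩ := h1 k (by omega)
  have hkr : (3 : ℝ) ≤ k := by exact_mod_cast (by omega : 3 ≤ k)
  have hbr : (2 : ℝ) ≤ b := by exact_mod_cast hb
  have hlogb : 0.69 < Real.log b := by
    have := Real.log_two_gt_d9
    have := Real.log_le_log (by norm_num) hbr
    linarith
  have hD : D ≤ |D| := le_abs_self D
  have hD0 : 0 ≤ |D| := abs_nonneg D
  have g3 : Real.log k ≤ Real.log k ^ 4 := le_self_pow₀ g2 (by norm_num)
  have g4 : 2 * (|D| + 1) * (K₁ + 1) * Real.log k ≤ k := by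
    refine le_trans ?_ g1
    exact mul_le_mul (le_max_right _ _) g3 (by linarith) (le_trans zero_le_one (le_max_left _ _))
  rcases Nat.eq_zero_or_pos y with h | h
  · have e : Vz y = 1 := by
      rw [h]
      unfold Vz pz
      simp
    rw [e, one_mul]
    have g5 : 2 * (|D| + 1) * 1 * 1 ≤ 2 * (|D| + 1) * (K₁ + 1) * Real.log k := by
      have hK : (1 : ℝ) ≤ K₁ + 1 := by
        have : (0 : ℝ) ≤ K₁ := Nat.cast_nonneg _
        linarith
      gcongr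
    nlinarith
  · have hy0 : (0 : ℝ) < y := by exact_mod_cast h
    have g5 := Vz_low y h
    have g6 : D * y ≤ k * Real.log b := by
      have q1 : D * y ≤ (|D| + 1) * ((K₁ + 1) * Real.log k) := by
        have q2 : (y : ℝ) ≤ (K₁ + 1) * Real.log k := hy.trans (mul_le_mul_of_nonneg_right (by linarith) (by linarith))
        calc D * y ≤ (|D| + 1) * y := mul_le_mul_of_nonneg_right (by linarith) hy0.le
          _ ≤ _ := mul_le_mul_of_nonneg_left q2 (by linarith)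
      have q3 : (k : ℝ) * 0.5 ≤ k * Real.log b := mul_le_mul_of_nonneg_left (by linarith) (by linarith)
      linarith
    calc D = (1 / y) * (D * y) := by field_simp
      _ ≤ (1 / y) * (k * Real.log b) := mul_le_mul_of_nonneg_left g6 (by positivity)
      _ ≤ Vz y * (k * Real.log b) := mul_le_mul_of_nonneg_right g5 (by positivity)

set_option maxHeartbeats 1000000 in
open Classical in
/-- all but the last number are primes, the last one is not -/
theorem exact_law (b L : ℕ) (hb : 2 ≤ b) (hL : 1 ≤ L) (η : ℝ) (hη0 : 0 < η) (hη1 : η ≤ 1) (r : ℕ) (hr : 1 ≤ r) (κ : Fin r → ℤ)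
    (hκ : ∀ j, κ j ≠ 0) (T B J A C K₁ : ℕ) (θ : ℝ) (hθ : 0 < θ) (ε : ℝ) (hε : 0 < ε) (hε1 : ε ≤ 1) :
    ∃ k₀ : ℕ, ∀ k : ℕ, k₀ ≤ k → ∀ p : Fin r → ℕ → ℝ, (∀ j, Flex b L η T k (p j)) →
    ∀ y : ℕ, θ * Real.log k ≤ y → y ≤ K₁ * Real.log k → ∀ c : Fin r → ℤ, (∀ j, |c j| ≤ B * (b : ℤ) ^ k) →
    ∀ h : Fin r → ℕ, (∀ j, 1 ≤ h j ∧ h j ≤ k ^ J) → ∀ X : ℕ, b ^ k ≤ X * k ^ C → X ≤ b ^ k * k ^ C →
    ∀ (I : Finset ℕ) (f : Fin r → ℕ → ℕ), (∀ j, Set.InjOn (f j) I) →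
    (∀ j, ∀ i ∈ I, 1 ≤ f j i ∧ f j i ≤ X ∧ (f j i).Coprime (primorial y * h j)) → (X : ℝ) ≤ I.card * (k : ℝ) ^ A →
    ∀ σ : Fin r → ℤ, (∀ j, σ j = 1 ∨ σ j = -1) →
    ∑ v ∈ Fintype.piFinset (fun _ : Fin r => range (b ^ k)),
      (if (∀ j, ∀ i ∈ I, 0 < Nm y (h j) (c j) (κ j) (v j) + σ j * (f j i : ℕ)) →
        |((I.filter (fun i => (∀ j : Fin r, (j : ℕ) + 1 < r → (Nm y (h j) (c j) (κ j) (v j) + σ j * (f j i : ℕ)).toNat.Prime) ∧
            ∀ j : Fin r, (j : ℕ) + 1 = r → ¬ (Nm y (h j) (c j) (κ j) (v j) + σ j * (f j i : ℕ)).toNat.Prime)).card : ℝ) -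
          I.card / (Vz y * (k * Real.log b)) ^ (r - 1)| ≤ ε * (I.card / (Vz y * (k * Real.log b)) ^ (r - 1)) then 0 else ∏ j, p j (v j)) ≤ ε := by
  obtain ⟨k1, h1⟩ := tuple_law b L hb hL η hη0 hη1 r κ hκ T B J A C K₁ θ hθ (ε / 4) (by linarith) (by linarith)
  obtain ⟨k2, h2⟩ := Q_large b K₁ hb (4 / ε)
  refine ⟨max k1 k2, fun k hk p hp y hy1 hy2 c hc h hh X hX1 hX2 I f hinj hf hIA σ hσ => ?_⟩
  have b2 := h2 k (by omega) y hy2
  have h3 := h1 k (by omega) p hp y hy1 hy2 c hc h hh X hX1 hX2 I f hinj hf hIA σ hσ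
  obtain ⟨Q, hQ⟩ : ∃ Q : ℝ, Q = Vz y * (k * Real.log b) := ⟨_, rfl⟩
  rw [← hQ] at b2 h3 ⊢
  have hQ0 : 0 < Q := lt_of_lt_of_le (by positivity) b2
  refine le_trans (sum_le_sum fun v _ => ?_) (h3.trans (by linarith))
  have hw0 : 0 ≤ ∏ j, p j (v j) := prod_nonneg fun j _ => (hp j).nonneg _
  obtain ⟨G, hG⟩ : ∃ G : Prop, G ↔ ((∀ j, ∀ i ∈ I, 0 < Nm y (h j) (c j) (κ j) (v j) + σ j * (f j i : ℕ)) → ∀ t : ℕ, t ≤ r →
        |((I.filter (fun i => ∀ j : Fin r, (j : ℕ) < t → (Nm y (h j) (c j) (κ j) (v j) + σ j * (f j i : ℕ)).toNat.Prime)).card : ℝ) -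
          I.card / Q ^ t| ≤ ε / 4 * (I.card / Q ^ t)) := ⟨_, Iff.rfl⟩
  obtain ⟨G', hG'⟩ : ∃ G' : Prop, G' ↔ ((∀ j, ∀ i ∈ I, 0 < Nm y (h j) (c j) (κ j) (v j) + σ j * (f j i : ℕ)) →
        |((I.filter (fun i => (∀ j : Fin r, (j : ℕ) + 1 < r → (Nm y (h j) (c j) (κ j) (v j) + σ j * (f j i : ℕ)).toNat.Prime) ∧
            ∀ j : Fin r, (j : ℕ) + 1 = r → ¬ (Nm y (h j) (c j) (κ j) (v j) + σ j * (f j i : ℕ)).toNat.Prime)).card : ℝ) -
          I.card / Q ^ (r - 1)| ≤ ε * (I.card / Q ^ (r - 1))) := ⟨_, Iff.rfl⟩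
  have himp : G → G' := by
    intro hg
    rw [hG] at hg
    rw [hG']
    intro hpos
    have g1 := hg hpos (r - 1) (by omega)
    have g2 := hg hpos r le_rfl
    obtain ⟨m, hm⟩ : ∃ m : ℝ, m = I.card := ⟨_, rfl⟩
    rw [← hm] at g1 g2 ⊢
    have hm0 : 0 ≤ m := by rw [hm]; exact Nat.cast_nonneg _
    obtain ⟨A1, hA1⟩ : ∃ A1, A1 = I.filter (fun i => ∀ j : Fin r, (j : ℕ) < r - 1 → (Nm y (h j) (c j) (κ j) (v j) + σ j * (f j i : ℕ)).toNat.Prime) := ⟨_, rfl⟩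
    obtain ⟨A2, hA2⟩ : ∃ A2, A2 = I.filter (fun i => ∀ j : Fin r, (j : ℕ) < r → (Nm y (h j) (c j) (κ j) (v j) + σ j * (f j i : ℕ)).toNat.Prime) := ⟨_, rfl⟩
    obtain ⟨A3, hA3⟩ : ∃ A3, A3 = I.filter (fun i => (∀ j : Fin r, (j : ℕ) + 1 < r → (Nm y (h j) (c j) (κ j) (v j) + σ j * (f j i : ℕ)).toNat.Prime) ∧
            ∀ j : Fin r, (j : ℕ) + 1 = r → ¬ (Nm y (h j) (c j) (κ j) (v j) + σ j * (f j i : ℕ)).toNat.Prime) := ⟨_, rfl⟩
    rw [← hA1] at g1
    rw [← hA2] at g2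
    rw [← hA3]
    have e1 : A1.card = A2.card + A3.card := by
      have hdis : Disjoint A2 A3 := by
        rw [disjoint_left]
        intro i hi2 hi3
        rw [hA2, mem_filter] at hi2
        rw [hA3, mem_filter] at hi3
        exact hi3.2.2 ⟨r - 1, by omega⟩ (by simp only; omega) (hi2.2 ⟨r - 1, by omega⟩ (by simp only; omega))
      rw [← card_union_of_disjoint hdis]
      congr 1
      ext i
      rw [mem_union, hA1, hA2, hA3, mem_filter, mem_filter, mem_filter]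
      constructor
      · rintro ⟨hi, hq⟩
        by_cases hl : (Nm y (h ⟨r - 1, by omega⟩) (c ⟨r - 1, by omega⟩) (κ ⟨r - 1, by omega⟩) (v ⟨r - 1, by omega⟩) +
            σ ⟨r - 1, by omega⟩ * (f ⟨r - 1, by omega⟩ i : ℕ)).toNat.Prime
        · refine Or.inl ⟨hi, fun j _ => ?_⟩
          by_cases hj : (j : ℕ) < r - 1
          · exact hq j hj
          · have : j = ⟨r - 1, by omega⟩ := by
              apply Fin.ext
              simp only
              omega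
            rw [this]
            exact hl
        · refine Or.inr ⟨hi, fun j hj => hq j (by omega), fun j hj => ?_⟩
          have : j = ⟨r - 1, by omega⟩ := by
            apply Fin.ext
            simp only
            omega
          rw [this]
          exact hl
      · rintro (⟨hi, hq⟩ | ⟨hi, hq, _⟩)
        · exact ⟨hi, fun j _ => hq j j.2⟩
        · exact ⟨hi, fun j hj => hq j (by omega)⟩
    have e2 : (A1.card : ℝ) = A2.card + A3.card := by exact_mod_cast e1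
    have hE : m / Q ^ r = (m / Q ^ (r - 1)) / Q := by
      obtain ⟨t, rfl⟩ : ∃ t, r = t + 1 := ⟨r - 1, by omega⟩
      rw [Nat.add_sub_cancel, pow_succ]
      field_simp
    obtain ⟨E, hEd⟩ : ∃ E, E = m / Q ^ (r - 1) := ⟨_, rfl⟩
    rw [hE] at g2
    rw [← hEd] at g1 g2 ⊢
    have hE0 : 0 ≤ E := by rw [hEd]; positivity
    have hEQ : E / Q ≤ ε / 4 * E := by
      rw [div_le_iff₀ hQ0]
      rw [div_le_iff₀ hε] at b2
      nlinarith
    have hEQ0 : 0 ≤ E / Q := by positivity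
    have g3 := (abs_le.1 g2).2
    have g4 : (A2.card : ℝ) ≤ 2 * (E / Q) := by nlinarith
    have g5 : (0 : ℝ) ≤ A2.card := Nat.cast_nonneg _
    obtain ⟨g6, g7⟩ := abs_le.1 g1
    rw [abs_le]
    constructor <;> linarith
  have hgoal : (if G' then 0 else ∏ j, p j (v j)) ≤ (if G then 0 else ∏ j, p j (v j)) := by
    by_cases hq : G
    · rw [if_pos hq, if_pos (himp hq)]
    · rw [if_neg hq]
      split_ifs
      · exact hw0
      · exact le_rfl
  refine le_trans (le_of_eq ?_) (hgoal.trans (le_of_eq ?_))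
  · by_cases hq : G'
    · rw [if_pos hq, if_pos (hG'.1 hq)]
    · rw [if_neg hq, if_neg (fun h => hq (hG'.2 h))]
  · by_cases hq : G
    · rw [if_pos hq, if_pos (hG.1 hq)]
    · rw [if_neg hq, if_neg (fun h => hq (hG.2 h))]

end Pool.Agent.N625.PT
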