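import Pool.Agent.N625.PT.X15

set_option autoImplicit false

/-! The logarithm of the range. -/

namespace Pool.Agent.N625.PT
open Finset

lemma log_low (b C : ℕ) (hb : 2 ≤ b) : ∃ k₀ : ℕ, ∀ k : ℕ, k₀ ≤ k → ∀ X : ℕ, b ^ k ≤ X * k ^ C → (k : ℝ) / 4 ≤ Real.log X := by
  obtain ⟨k1, h1⟩ := ev4 (max 1 (4 * (C + 1)))
  obtain ⟨k2, h2⟩ := X_large b C hb
  refine ⟨max (max k1 k2) 3, fun k hk X hX => ?_⟩
  obtain ⟨g1, g2⟩ := h1 k (by omega)
  have g0 := h2 k (by omega) X hX
  have hk3 : (3 : ℝ) ≤ k := by exact_mod_cast (by omega : 3 ≤ k)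
  have hX0 : (0 : ℝ) < X := by exact_mod_cast (by omega : 0 < X)
  have hbr : (2 : ℝ) ≤ b := by exact_mod_cast hb
  have hlogb : 0.69 < Real.log b := by
    have := Real.log_two_gt_d9
    have := Real.log_le_log (by norm_num) hbr
    linarith
  have h3 : (b : ℝ) ^ k ≤ X * (k : ℝ) ^ C := by exact_mod_cast hX
  have h4 := Real.log_le_log (by positivity) h3
  rw [Real.log_mul (by positivity) (by positivity), Real.log_pow, Real.log_pow] at h4
  have g3 : Real.log k ≤ Real.log k ^ 4 := le_self_pow₀ g2 (by norm_num)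
  have g4 : 4 * (C + 1) * Real.log k ≤ k := by
    refine le_trans ?_ g1
    exact mul_le_mul (le_max_right _ _) g3 (by linarith) (le_trans zero_le_one (le_max_left _ _))
  have g5 : (k : ℝ) * 0.69 ≤ k * Real.log b := mul_le_mul_of_nonneg_left hlogb.le (by linarith)
  have g6 : 0 ≤ Real.log k := by linarith
  nlinarith

end Pool.Agent.N625.PT
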