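import Pool.Agent.N625.PT.X19

set_option autoImplicit false

/-! Primes in a progression with a small modulus, in a window `(Y, X]` which is not short. -/

namespace Pool.Agent.N625.PT
open Finset
open Pool.Agent.H373R2.T7 (ev_L' lam_ap)

/-- primes in a progression with a small modulus, in a window -/
lemma ap_window (K m : ℕ) (hm : 1 ≤ m) : ∃ X₀ : ℕ, ∀ X : ℕ, X₀ ≤ X → ∀ q : ℕ, 1 ≤ q → (q : ℝ) ≤ Real.log X ^ K → ∀ c : ℕ, c.Coprime q →
    ∀ Y : ℕ, Y ≤ X → X ≤ m * (X - Y) →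
    (X : ℝ) / (4 * m * q * Real.log X) ≤ (((Ioc Y X).filter (fun p : ℕ => p.Prime ∧ p ≡ c [MOD q])).card : ℝ) := by
  obtain ⟨N0, h0⟩ := lam_ap K (K + 1)
  obtain ⟨n1, h1⟩ := ev_L' (16 * m)
  have hmr : (1 : ℝ) ≤ m := by exact_mod_cast hm
  obtain ⟨b2, h2⟩ := pow_le_pow_digits 2 le_rfl (2 * K + 8)
  obtain ⟨n3, h3⟩ := ev_L' (b2 + m * 2 ^ (K + 5) + 2)
  refine ⟨max (max N0 n1) (max n3 4), fun X hX q hq hqX c hc Y hYX hYm => ?_⟩
  have g1 := h0 X (by omega) q hq hqX c X le_rfl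
  have g1' := h0 X (by omega) q hq hqX c Y hYX
  have hL8 := h1 X (by omega)
  have hL3 := h3 X (by omega)
  have hX4 : 4 ≤ X := by omega
  have hX0 : (0 : ℝ) < X := by exact_mod_cast (by omega : 0 < X)
  obtain ⟨Lg, hLg⟩ : ∃ Lg, Lg = Real.log X := ⟨_, rfl⟩
  rw [← hLg] at g1 g1' hL8 hL3 hqX ⊢
  have hL0 : 0 < Lg := by linarith
  have hq0 : (0 : ℝ) < q := by exact_mod_cast (by omega : 0 < q)
  rw [if_pos hc] at g1 g1'
  have hφ : (Nat.totient q : ℝ) ≤ q := by exact_mod_cast Nat.totient_le q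
  have hφ0 : (0 : ℝ) < Nat.totient q := by exact_mod_cast Nat.totient_pos.2 (by omega)
  have hm0 : (0 : ℝ) < m := by linarith
  have hYmr : (X : ℝ) ≤ m * (X - Y) := by
    have : ((X : ℕ) : ℝ) ≤ ((m * (X - Y) : ℕ) : ℝ) := by exact_mod_cast hYm
    rw [Nat.cast_mul, Nat.cast_sub hYX] at this
    exact this
  have hYX0 : (0 : ℝ) ≤ X - Y := by
    have : (Y : ℝ) ≤ X := by exact_mod_cast hYX
    linarith
  have g2 : (X : ℝ) / q / m ≤ X / Nat.totient q - Y / Nat.totient q := by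
    rw [← sub_div]
    calc (X : ℝ) / q / m ≤ (X - Y) / q := by
          rw [div_div, div_le_div_iff₀ (by positivity) hq0]
          calc (X : ℝ) * q ≤ (m * (X - Y)) * q := mul_le_mul_of_nonneg_right hYmr hq0.le
            _ = _ := by ring
      _ ≤ (X - Y) / Nat.totient q := div_le_div_of_nonneg_left hYX0 hφ0 hφ
  have g3 : (X : ℝ) / Lg ^ (K + 1) ≤ X / q / m / 16 := by
    rw [div_div, div_div]
    apply div_le_div_of_nonneg_left hX0.le (by positivity)
    calc (q : ℝ) * (m * 16) = q * (16 * m) := by ring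
      _ ≤ Lg ^ K * Lg := mul_le_mul hqX hL8 (by positivity) (by positivity)
      _ = _ := (pow_succ _ _).symm
  -- the proper prime powers
  have g4 := pp_one X (by omega) ((Ioc Y X).filter (fun n => n ≡ c [MOD q])) (fun n => n) (fun a _ b _ h => h) (by
    intro s hs
    rw [mem_filter, mem_Ioc] at hs
    exact ⟨by omega, hs.1.2⟩)
  rw [← hLg] at g4
  have g5 : 2 * √(X : ℝ) * Lg ≤ X / q / m / 8 := by
    -- `L ^ (2 K + 8) ≤ X`
    obtain ⟨t, ht⟩ : ∃ t, t = ⌊Lg⌋₊ := ⟨_, rfl⟩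
    have t1 : (t : ℝ) ≤ Lg := by rw [ht]; exact Nat.floor_le hL0.le
    have t2 : Lg < t + 1 := by rw [ht]; exact Nat.lt_floor_add_one _
    have hp5 : (0 : ℝ) < m * 2 ^ (K + 5) := by positivity
    have t3 : b2 ≤ t := by
      have : (b2 : ℝ) < t + 1 := by linarith
      have : b2 < t + 1 := by exact_mod_cast this
      omega
    have t30 : m * (2 : ℝ) ^ (K + 5) ≤ t := by
      have : (0 : ℝ) ≤ b2 := Nat.cast_nonneg _
      linarith
    have t4 := h2 t t3
    have t5 : (2 : ℝ) ^ t ≤ X := by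
      have e1 : (2 : ℝ) ^ t ≤ Real.exp 1 ^ t := pow_le_pow_left₀ (by norm_num) (by linarith [Real.exp_one_gt_d9]) _
      refine e1.trans ?_
      rw [← Real.exp_nat_mul, mul_one]
      have : Real.exp t ≤ Real.exp Lg := Real.exp_le_exp.2 t1
      rwa [hLg, Real.exp_log hX0] at this
    have t6 : (t : ℝ) ^ (2 * K + 8) ≤ X := le_trans (by exact_mod_cast t4) t5
    have t7 : Lg ≤ 2 * t := by
      have : (1 : ℝ) ≤ t := by linarith
      linarith
    have t8 : (t : ℝ) ^ (K + 4) ≤ √(X : ℝ) := by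
      apply Real.le_sqrt_of_sq_le
      rw [← pow_mul]
      exact le_trans (le_of_eq (by congr 1; ring)) t6
    have hs0 : 0 ≤ √(X : ℝ) := Real.sqrt_nonneg _
    have hsq : √(X : ℝ) * √(X : ℝ) = X := Real.mul_self_sqrt hX0.le
    have t0 : (1 : ℝ) ≤ t := by
      have : (1 : ℝ) ≤ 2 ^ (K + 5) := one_le_pow₀ (by norm_num)
      have : (1 : ℝ) * 1 ≤ m * 2 ^ (K + 5) := mul_le_mul hmr this zero_le_one hm0.le
      linarith
    have t9 : 16 * q * m * Lg ≤ √(X : ℝ) := by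
      refine le_trans ?_ t8
      calc 16 * q * m * Lg ≤ 16 * Lg ^ K * m * Lg := by gcongr
        _ = m * (16 * Lg ^ (K + 1)) := by ring
        _ ≤ m * (16 * (2 * t) ^ (K + 1)) := by gcongr
        _ = (m * 2 ^ (K + 5)) * (t : ℝ) ^ (K + 1) := by ring
        _ ≤ t * (t : ℝ) ^ (K + 1) := by gcongr
        _ = (t : ℝ) ^ (K + 2) := by ring
        _ ≤ (t : ℝ) ^ (K + 4) := pow_le_pow_right₀ t0 (by omega)
    rw [div_div, div_div, le_div_iff₀ (by positivity)]
    calc 2 * √(X : ℝ) * Lg * (q * (m * 8)) = √(X : ℝ) * (16 * q * m * Lg) := by ring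
      _ ≤ √(X : ℝ) * √(X : ℝ) := mul_le_mul_of_nonneg_left t9 hs0
      _ = X := hsq
  obtain ⟨F, hF⟩ : ∃ F, F = (Ioc Y X).filter (fun n => n ≡ c [MOD q]) := ⟨_, rfl⟩
  have hsplit : ∑ n ∈ (Icc 1 X).filter (fun n => n ≡ c [MOD q]), ArithmeticFunction.vonMangoldt n =
      ∑ n ∈ (Icc 1 Y).filter (fun n => n ≡ c [MOD q]), ArithmeticFunction.vonMangoldt n + ∑ n ∈ F, ArithmeticFunction.vonMangoldt n := by
    rw [hF, ← sum_union]
    · apply sum_congr _ (fun _ _ => rfl)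
      ext n
      rw [mem_union, mem_filter, mem_filter, mem_filter, mem_Icc, mem_Icc, mem_Ioc]
      constructor
      · rintro ⟨⟨e1, e2⟩, e3⟩
        by_cases hn : n ≤ Y
        · exact Or.inl ⟨⟨e1, hn⟩, e3⟩
        · exact Or.inr ⟨⟨by omega, e2⟩, e3⟩
      · rintro (⟨⟨e1, e2⟩, e3⟩ | ⟨⟨e1, e2⟩, e3⟩)
        · exact ⟨⟨e1, by omega⟩, e3⟩
        · exact ⟨⟨by omega, e2⟩, e3⟩
    · rw [disjoint_left]
      intro n e1 e2
      rw [mem_filter, mem_Icc] at e1
      rw [mem_filter, mem_Ioc] at e2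
      omega
  rw [hsplit] at g1
  rw [← hF] at g4
  obtain ⟨G, hG⟩ : ∃ G, G = (Ioc Y X).filter (fun p : ℕ => p.Prime ∧ p ≡ c [MOD q]) := ⟨_, rfl⟩
  rw [← hG]
  have hGF : G = F.filter (fun n => n.Prime) := by
    rw [hG, hF, filter_filter]
    apply filter_congr
    intro n _
    tauto
  have g6 : ∑ n ∈ F, ArithmeticFunction.vonMangoldt n ≤ G.card * Lg + ∑ s ∈ F, (if s.Prime then (0 : ℝ) else ArithmeticFunction.vonMangoldt s) := by
    rw [hGF, card_eq_sum_ones, Nat.cast_sum, sum_mul, sum_filter, ← sum_add_distrib]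
    apply sum_le_sum
    intro n hn
    rw [hF, mem_filter, mem_Ioc] at hn
    by_cases hp : n.Prime
    · rw [if_pos hp, if_pos hp, ArithmeticFunction.vonMangoldt_apply_prime hp, Nat.cast_one, one_mul, add_zero, hLg]
      apply Real.log_le_log (by exact_mod_cast hp.pos)
      exact_mod_cast hn.1.2
    · rw [if_neg hp, if_neg hp, zero_add]
  have g7 := (abs_le.1 g1).1
  have g7' := (abs_le.1 g1').2
  have g8 : (X : ℝ) / q / m - X / q / m / 8 - X / q / m / 8 ≤ G.card * Lg := by linarith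
  have hXq : 0 < (X : ℝ) / q / m := by positivity
  rw [div_le_iff₀ (by positivity)]
  have g9 : (X : ℝ) / q / m / 4 ≤ G.card * Lg := by linarith
  rw [div_div, div_div, div_le_iff₀ (by positivity)] at g9
  calc (X : ℝ) ≤ G.card * Lg * (q * (m * 4)) := g9
    _ = _ := by ring

end Pool.Agent.N625.PT
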