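import Pool.Agent.N625.PT.X2
import Pool.Agent.Y877.SxE

set_option autoImplicit false

/-! Random integers whose blocks of digits can be exchanged: one and two progressions free of medium primes; the second moment. -/

namespace Pool.Agent.N625.PT
open Finset
open Pool.Agent.H373R2.T7 (pz mem_pz nuB PerB nuB_le)
open Pool.Agent.Y877.SX (mid Vm fd FF mem_mid fac_pos fac_le Vm_pos Vm_le fd_one fac_inv_one one_le_prodR)

/-- the product of `1 - 1/q` over a set of primes -/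
noncomputable def VP (P : Finset ℕ) : ℝ := ∏ q ∈ P, (1 - 1 / (q : ℝ))

lemma VP_pos {y z : ℕ} {P : Finset ℕ} (hP : P ⊆ mid y z) : 0 < VP P := by
  unfold VP
  exact prod_pos fun p hp => fac_pos (mem_mid.1 (hP hp)).2.2

lemma VP_le {y z : ℕ} {P : Finset ℕ} (hP : P ⊆ mid y z) : VP P ≤ 1 := by
  unfold VP
  exact prod_le_one (fun p hp => (fac_pos (mem_mid.1 (hP hp)).2.2).le) (fun p _ => fac_le)

lemma Vm_le_VP {y z : ℕ} {P : Finset ℕ} (hP : P ⊆ mid y z) : Vm y z ≤ VP P := by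
  unfold Vm VP
  rw [← prod_sdiff hP]
  apply mul_le_of_le_one_left (VP_pos hP).le
  exact prod_le_one (fun p hp => (fac_pos (mem_mid.1 (mem_sdiff.1 hp).1).2.2).le) (fun p _ => fac_le)

lemma rootZ_ex (q : ℕ) (α β : ℤ) (hq : q.Prime) (hα : ¬ (q : ℤ) ∣ α) : ∃ r : ℕ, r < q ∧ (q : ℤ) ∣ α * (r : ℕ) + β := by
  have : Fact q.Prime := ⟨hq⟩
  have : NeZero q := ⟨hq.ne_zero⟩
  refine ⟨(-(β : ZMod q) * (α : ZMod q)⁻¹).val, ZMod.val_lt _, ?_⟩
  have hM0 : (α : ZMod q) ≠ 0 := by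
    intro h
    exact hα ((ZMod.intCast_zmod_eq_zero_iff_dvd _ _).1 h)
  rw [← ZMod.intCast_zmod_eq_zero_iff_dvd]
  push_cast
  rw [ZMod.natCast_zmod_val]
  field_simp
  ring

lemma rootZ_uniq (q : ℕ) (α β : ℤ) (r1 r2 : ℕ) (hq : q.Prime) (hα : ¬ (q : ℤ) ∣ α) (h1 : r1 < q) (h2 : r2 < q)
    (d1 : (q : ℤ) ∣ α * (r1 : ℕ) + β) (d2 : (q : ℤ) ∣ α * (r2 : ℕ) + β) : r1 = r2 := by
  have : Fact q.Prime := ⟨hq⟩
  have hM0 : (α : ZMod q) ≠ 0 := by
    intro h
    exact hα ((ZMod.intCast_zmod_eq_zero_iff_dvd _ _).1 h)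
  rw [← ZMod.intCast_zmod_eq_zero_iff_dvd] at d1 d2
  push_cast at d1 d2
  have e : (α : ZMod q) * r1 = α * r2 := by
    have := d1.trans d2.symm
    exact add_right_cancel this
  have e2 := mul_left_cancel₀ hM0 e
  rw [ZMod.natCast_eq_natCast_iff'] at e2
  rwa [Nat.mod_eq_of_lt h1, Nat.mod_eq_of_lt h2] at e2

lemma dvd_modZ (q : ℕ) (α β : ℤ) (n : ℕ) : (q : ℤ) ∣ α * (n : ℕ) + β ↔ (q : ℤ) ∣ α * ((n % q : ℕ) : ℕ) + β := by
  rw [← ZMod.intCast_zmod_eq_zero_iff_dvd, ← ZMod.intCast_zmod_eq_zero_iff_dvd]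
  push_cast
  exact Iff.rfl

open Classical in
lemma few_oneZ (q : ℕ) (α β : ℤ) (hq : q.Prime) (hα : ¬ (q : ℤ) ∣ α) :
    ((range q).filter (fun r => (q : ℤ) ∣ α * (r : ℕ) + β)).card ≤ 1 := by
  rw [card_le_one]
  intro a ha b hb
  rw [mem_filter, mem_range] at ha hb
  exact rootZ_uniq q α β a b hq hα ha.1 hb.1 ha.2 hb.2

open Classical in
lemma single_law (b L : ℕ) (hb : 2 ≤ b) (hL : 1 ≤ L) (η : ℝ) (hη0 : 0 < η) (hη1 : η ≤ 1) (T E U : ℕ) :
    ∃ k₀ : ℕ, ∀ k : ℕ, k₀ ≤ k → ∀ p, Flex b L η T k p → ∀ y z : ℕ, b ^ L ≤ y → 1 ≤ z → (z : ℝ) ≤ (k : ℝ) ^ E →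
    ∀ P : Finset ℕ, P ⊆ mid y z → ∀ α β : ℤ, (∀ q ∈ P, ¬ (q : ℤ) ∣ α) →
    VP P - 1 / (k : ℝ) ^ U ≤ ∑ v ∈ (range (b ^ k)).filter (fun v : ℕ => ∀ q ∈ P, ¬ (q : ℤ) ∣ α * v + β), p v := by
  obtain ⟨k₀, h0⟩ := law_sieve b L hb hL η hη0 hη1 T 1 E U le_rfl
  refine ⟨k₀, fun k hk p hp y z hy hz hzE P hP α β hα => ?_⟩
  obtain ⟨Q, hQd⟩ : ∃ Q : ℕ → ℕ → Prop, ∀ q n, Q q n ↔ (q ∈ P ∧ (q : ℤ) ∣ α * (n : ℕ) + β) := ⟨_, fun _ _ => Iff.rfl⟩
  have hQ : PerB Q 1 := by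
    refine ⟨fun q n => by rw [hQd, hQd, dvd_modZ], fun q hq => ?_⟩
    unfold nuB
    by_cases h : q ∈ P
    · refine le_trans (card_le_card ?_) (few_oneZ q α β hq (hα q h))
      intro r hr
      rw [mem_filter] at hr ⊢
      exact ⟨hr.1, ((hQd _ _).1 hr.2).2⟩
    · rw [filter_false_of_mem (fun r _ => by rw [hQd]; tauto), card_empty]
      exact Nat.zero_le _
  have h1 := h0 k hk p hp z hz hzE Q hQ (fun q n hq => by
    have := (mem_mid.1 (hP ((hQd q n).1 hq).1)).1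
    omega)
  have hsub : ∀ q ∈ P, q ∈ pz z := fun q hq => mem_pz.2 (mem_mid.1 (hP hq)).2
  have e1 : (range (b ^ k)).filter (fun v : ℕ => ∀ q ∈ pz z, ¬ Q q v) =
      (range (b ^ k)).filter (fun v : ℕ => ∀ q ∈ P, ¬ (q : ℤ) ∣ α * v + β) := by
    apply filter_congr
    intro n _
    constructor
    · intro h q hq hd
      exact h q (hsub q hq) ((hQd _ _).2 ⟨hq, hd⟩)
    · intro h q _ hq
      obtain ⟨hq, hd⟩ := (hQd _ _).1 hq
      exact h q hq hd
  rw [e1] at h1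
  have h2 := (abs_le.1 h1).1
  have h3 : VP P ≤ ∏ q ∈ pz z, (1 - (nuB Q q : ℝ) / q) := by
    have : VP P = ∏ q ∈ pz z, (if q ∈ P then (1 - 1 / (q : ℝ)) else 1) := by
      unfold VP
      rw [← prod_filter]
      apply prod_congr _ (fun _ _ => rfl)
      ext q
      rw [mem_filter]
      exact ⟨fun h => ⟨hsub q h, h⟩, fun h => h.2⟩
    rw [this]
    apply prod_le_prod
    · intro q hq
      split_ifs
      · exact (fac_pos (mem_pz.1 hq).2).le
      · exact zero_le_one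
    · intro q hq
      have hpp := (mem_pz.1 hq).2
      have hp0 : (0 : ℝ) < q := by exact_mod_cast hpp.pos
      split_ifs with hy
      · have : (nuB Q q : ℝ) ≤ 1 := by exact_mod_cast hQ.few q hpp
        gcongr
      · have : nuB Q q = 0 := by
          unfold nuB
          rw [filter_false_of_mem, card_empty]
          intro r _ hq
          exact hy ((hQd _ _).1 hq).1
        rw [this]
        simp
  linarith

open Classical in
lemma pair_law (b L : ℕ) (hb : 2 ≤ b) (hL : 1 ≤ L) (η : ℝ) (hη0 : 0 < η) (hη1 : η ≤ 1) (T E U : ℕ) :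
    ∃ k₀ : ℕ, ∀ k : ℕ, k₀ ≤ k → ∀ p, Flex b L η T k p → ∀ y z : ℕ, b ^ L ≤ y → 1 ≤ z → (z : ℝ) ≤ (k : ℝ) ^ E →
    ∀ P : Finset ℕ, P ⊆ mid y z → ∀ (α β β' : ℤ) (D : ℕ), (∀ q ∈ P, ¬ (q : ℤ) ∣ α) →
    (∀ q ∈ P, ∀ v : ℕ, (q : ℤ) ∣ α * v + β → (q : ℤ) ∣ α * v + β' → q ∣ D) →
    ∑ v ∈ (range (b ^ k)).filter (fun v : ℕ => (∀ q ∈ P, ¬ (q : ℤ) ∣ α * v + β) ∧ (∀ q ∈ P, ¬ (q : ℤ) ∣ α * v + β')), p v ≤
      VP P ^ 2 * fd y z D + 1 / (k : ℝ) ^ U := by
  obtain ⟨k₀, h0⟩ := law_sieve b L hb hL η hη0 hη1 T 2 E U (by norm_num)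
  refine ⟨k₀, fun k hk p hp y z hy hz hzE P hP α β β' D hα hD => ?_⟩
  obtain ⟨Q, hQd⟩ : ∃ Q : ℕ → ℕ → Prop, ∀ q n, Q q n ↔ (q ∈ P ∧ ((q : ℤ) ∣ α * (n : ℕ) + β ∨ (q : ℤ) ∣ α * (n : ℕ) + β')) :=
    ⟨_, fun _ _ => Iff.rfl⟩
  have hQ : PerB Q 2 := by
    refine ⟨fun q n => by rw [hQd, hQd, dvd_modZ, dvd_modZ q α β'], fun q hq => ?_⟩
    unfold nuB
    by_cases h : q ∈ P
    · have h1 := few_oneZ q α β hq (hα q h)
      have h2 := few_oneZ q α β' hq (hα q h)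
      refine le_trans (card_le_card (t := (range q).filter (fun r => (q : ℤ) ∣ α * (r : ℕ) + β) ∪
        (range q).filter (fun r => (q : ℤ) ∣ α * (r : ℕ) + β')) ?_) ?_
      · intro r hr
        rw [mem_filter] at hr
        rw [mem_union, mem_filter, mem_filter]
        rcases ((hQd _ _).1 hr.2).2 with h | h
        · exact Or.inl ⟨hr.1, h⟩
        · exact Or.inr ⟨hr.1, h⟩
      · exact (card_union_le _ _).trans (by omega)
    · rw [filter_false_of_mem (fun r _ => by rw [hQd]; tauto), card_empty]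
      exact Nat.zero_le _
  have h1 := h0 k hk p hp z hz hzE Q hQ (fun q n hq => by
    have := (mem_mid.1 (hP ((hQd q n).1 hq).1)).1
    omega)
  have hsub : ∀ q ∈ P, q ∈ pz z := fun q hq => mem_pz.2 (mem_mid.1 (hP hq)).2
  have e1 : (range (b ^ k)).filter (fun v : ℕ => ∀ q ∈ pz z, ¬ Q q v) =
      (range (b ^ k)).filter (fun v : ℕ => (∀ q ∈ P, ¬ (q : ℤ) ∣ α * v + β) ∧ (∀ q ∈ P, ¬ (q : ℤ) ∣ α * v + β')) := by
    apply filter_congr
    intro n _
    constructor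
    · intro h
      exact ⟨fun q hq hd => h q (hsub q hq) ((hQd _ _).2 ⟨hq, Or.inl hd⟩),
        fun q hq hd => h q (hsub q hq) ((hQd _ _).2 ⟨hq, Or.inr hd⟩)⟩
    · rintro ⟨ha, hb⟩ q _ hq
      obtain ⟨hq, hd | hd⟩ := (hQd _ _).1 hq
      · exact ha q hq hd
      · exact hb q hq hd
  rw [e1] at h1
  have h2 := (abs_le.1 h1).2
  have h3 : ∏ q ∈ pz z, (1 - (nuB Q q : ℝ) / q) ≤ VP P ^ 2 * fd y z D := by
    have e0 : ∏ q ∈ P.filter (fun q => q ∣ D), (1 - 1 / (q : ℝ))⁻¹ ≤ fd y z D := by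
      unfold fd
      have hs2 : P.filter (fun q => q ∣ D) ⊆ (mid y z).filter (fun q => q ∣ D) := filter_subset_filter _ hP
      rw [← prod_sdiff hs2]
      apply le_mul_of_one_le_left
      · apply prod_nonneg
        intro q hq
        exact zero_le_one.trans (fac_inv_one (mem_mid.1 (hP (mem_filter.1 hq).1)).2.2)
      · apply one_le_prodR
        intro q hq
        exact fac_inv_one (mem_mid.1 (mem_filter.1 (mem_sdiff.1 hq).1).1).2.2
    refine le_trans ?_ (mul_le_mul_of_nonneg_left e0 (by positivity))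
    have e2 : VP P ^ 2 * ∏ q ∈ P.filter (fun q => q ∣ D), (1 - 1 / (q : ℝ))⁻¹ = ∏ q ∈ pz z, ((if q ∈ P then (1 - 1 / (q : ℝ)) ^ 2 else 1) *
        (if q ∈ P ∧ q ∣ D then (1 - 1 / (q : ℝ))⁻¹ else 1)) := by
      unfold VP
      rw [prod_mul_distrib, ← prod_filter, ← prod_filter, ← prod_pow]
      congr 1
      · apply prod_congr _ (fun _ _ => rfl)
        ext q
        rw [mem_filter]
        exact ⟨fun h => ⟨hsub q h, h⟩, fun h => h.2⟩
      · apply prod_congr _ (fun _ _ => rfl)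
        ext q
        rw [mem_filter, mem_filter]
        exact ⟨fun h => ⟨hsub q h.1, h⟩, fun h => h.2⟩
    rw [e2]
    apply prod_le_prod
    · intro q hq
      have hpp := (mem_pz.1 hq).2
      have hp0 : (0 : ℝ) < q := by exact_mod_cast hpp.pos
      have : (nuB Q q : ℝ) / q ≤ 1 := by
        rw [div_le_one hp0]
        exact_mod_cast nuB_le Q q
      linarith
    · intro q hq
      have hpp := (mem_pz.1 hq).2
      have hp0 : (0 : ℝ) < q := by exact_mod_cast hpp.pos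
      have hfp := fac_pos hpp
      by_cases hy : q ∈ P
      · obtain ⟨r1, hr1, hd1⟩ := rootZ_ex q α β hpp (hα q hy)
        obtain ⟨r2, hr2, hd2⟩ := rootZ_ex q α β' hpp (hα q hy)
        have m1 : r1 ∈ (range q).filter (fun r => Q q r) := mem_filter.2 ⟨mem_range.2 hr1, (hQd _ _).2 ⟨hy, Or.inl hd1⟩⟩
        have m2 : r2 ∈ (range q).filter (fun r => Q q r) := mem_filter.2 ⟨mem_range.2 hr2, (hQd _ _).2 ⟨hy, Or.inr hd2⟩⟩
        rw [if_pos hy]
        by_cases hpD : q ∣ D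
        · rw [if_pos ⟨hy, hpD⟩]
          have : (1 : ℝ) ≤ nuB Q q := by
            have : 0 < nuB Q q := by
              unfold nuB
              exact card_pos.2 ⟨r1, m1⟩
            exact_mod_cast this
          have h5 : (1 - 1 / (q : ℝ)) ^ 2 * (1 - 1 / (q : ℝ))⁻¹ = 1 - 1 / (q : ℝ) := by
            field_simp
          rw [h5]
          gcongr
        · rw [if_neg (fun h => hpD h.2), mul_one]
          have hne : r1 ≠ r2 := by
            intro h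
            rw [← h] at hd2
            exact hpD (hD q hy r1 hd1 hd2)
          have : (2 : ℝ) ≤ nuB Q q := by
            have : 1 < nuB Q q := by
              unfold nuB
              rw [one_lt_card]
              exact ⟨r1, m1, r2, m2, hne⟩
            exact_mod_cast this
          have h5 : 2 / (q : ℝ) ≤ (nuB Q q : ℝ) / q := by gcongr
          have h6 : (1 - 1 / (q : ℝ)) ^ 2 = 1 - 2 / q + (1 / (q : ℝ)) ^ 2 := by ring
          rw [h6]
          have h7 : 0 ≤ (1 / (q : ℝ)) ^ 2 := by positivity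
          linarith
      · rw [if_neg hy, if_neg (fun h => hy h.1)]
        have : 0 ≤ (nuB Q q : ℝ) / q := by positivity
        linarith
  linarith

open Classical in
/-- Chebyshev's inequality with weights -/
lemma chebW (S Gs : Finset ℕ) (P : ℕ → ℕ → Prop) (w : ℕ → ℝ) (hw : ∀ g, 0 ≤ w g) (hw1 : ∑ g ∈ Gs, w g = 1)
    (V η δ r m : ℝ) (F : ℕ → ℕ → ℝ) (hV0 : 0 < V) (hV : V ≤ 1) (hδ : 0 < δ)
    (hm : (S.card : ℝ) = m) (hr : 0 ≤ r)
    (h1 : ∀ s ∈ S, V - r ≤ ∑ g ∈ Gs.filter (fun g => P s g), w g)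
    (h2 : ∀ s ∈ S, ∀ t ∈ S.erase s, ∑ g ∈ Gs.filter (fun g => P s g ∧ P t g), w g ≤ V ^ 2 * F s t + r)
    (h3 : ∀ s ∈ S, ∑ t ∈ S.erase s, F s t ≤ (1 + η) * m) :
    (∑ g ∈ Gs, (if ((S.filter (fun s => P s g)).card : ℝ) < (1 - δ) * (m * V) then w g else 0)) * (δ * (m * V)) ^ 2 ≤
      η * (m * V) ^ 2 + m + 3 * (m ^ 2 * r) := by
  obtain ⟨i, hi⟩ : ∃ i : ℕ → ℕ → ℝ, i = fun s g => if P s g then 1 else 0 := ⟨_, rfl⟩
  obtain ⟨X, hX⟩ : ∃ X : ℕ → ℝ, X = fun g => ∑ s ∈ S, i s g := ⟨_, rfl⟩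
  have hm0 : 0 ≤ m := by rw [← hm]; exact Nat.cast_nonneg _
  have hXc : ∀ g, X g = ((S.filter (fun s => P s g)).card : ℝ) := by
    intro g
    rw [hX, hi]
    simp only
    rw [← sum_filter, sum_const, nsmul_eq_mul, mul_one]
  have hc1 : ∀ s, ∑ g ∈ Gs, w g * i s g = ∑ g ∈ Gs.filter (fun g => P s g), w g := by
    intro s
    rw [hi, sum_filter]
    apply sum_congr rfl
    intro g _
    simp only
    split_ifs <;> simp
  have hc2 : ∀ s t, ∑ g ∈ Gs, w g * (i s g * i t g) = ∑ g ∈ Gs.filter (fun g => P s g ∧ P t g), w g := by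
    intro s t
    rw [hi, sum_filter]
    apply sum_congr rfl
    intro g _
    by_cases ha : P s g <;> by_cases hb : P t g <;> simp [ha, hb]
  have hS1 : m * (V - r) ≤ ∑ g ∈ Gs, w g * X g := by
    have e0 : ∑ g ∈ Gs, w g * X g = ∑ s ∈ S, ∑ g ∈ Gs, w g * i s g := by
      rw [hX, sum_comm]
      apply sum_congr rfl
      intro g _
      rw [mul_sum]
    rw [e0]
    have : ∑ _s ∈ S, (V - r) ≤ ∑ s ∈ S, ∑ g ∈ Gs, w g * i s g := by
      apply sum_le_sum
      intro s hs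
      rw [hc1]
      exact h1 s hs
    rwa [sum_const, nsmul_eq_mul, hm] at this
  have hS2 : ∑ g ∈ Gs, w g * X g ^ 2 ≤ m * (1 + (V ^ 2 * ((1 + η) * m) + m * r)) := by
    have e1 : ∑ g ∈ Gs, w g * X g ^ 2 = ∑ s ∈ S, ∑ t ∈ S, ∑ g ∈ Gs, w g * (i s g * i t g) := by
      have : ∀ g, w g * X g ^ 2 = ∑ s ∈ S, ∑ t ∈ S, w g * (i s g * i t g) := by
        intro g
        rw [hX, sq, sum_mul_sum, mul_sum]
        apply sum_congr rfl
        intro s _
        rw [mul_sum]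
      simp_rw [this]
      rw [sum_comm]
      apply sum_congr rfl
      intro s _
      rw [sum_comm]
    rw [e1]
    have : ∀ s ∈ S, ∑ t ∈ S, ∑ g ∈ Gs, w g * (i s g * i t g) ≤ 1 + (V ^ 2 * ((1 + η) * m) + m * r) := by
      intro s hs
      rw [← add_sum_erase S _ hs]
      apply add_le_add
      · rw [hc2, ← hw1]
        exact sum_le_sum_of_subset_of_nonneg (filter_subset _ _) (fun g _ _ => hw g)
      · calc ∑ t ∈ S.erase s, ∑ g ∈ Gs, w g * (i s g * i t g) ≤ ∑ t ∈ S.erase s, (V ^ 2 * F s t + r) := by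
              apply sum_le_sum
              intro t ht
              rw [hc2]
              exact h2 s hs t ht
          _ = V ^ 2 * ∑ t ∈ S.erase s, F s t + ((S.erase s).card : ℝ) * r := by
              rw [sum_add_distrib, sum_const, nsmul_eq_mul, mul_sum]
          _ ≤ V ^ 2 * ((1 + η) * m) + m * r := by
              have : ((S.erase s).card : ℝ) ≤ m := by
                rw [← hm]
                exact_mod_cast card_le_card (erase_subset _ _)
              have := h3 s hs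
              gcongr
    calc ∑ s ∈ S, ∑ t ∈ S, ∑ g ∈ Gs, w g * (i s g * i t g) ≤ ∑ _s ∈ S, (1 + (V ^ 2 * ((1 + η) * m) + m * r)) := sum_le_sum this
      _ = _ := by rw [sum_const, nsmul_eq_mul, hm]
  have hvar : ∑ g ∈ Gs, w g * (X g - m * V) ^ 2 ≤ η * (m * V) ^ 2 + m + 3 * (m ^ 2 * r) := by
    have e : ∑ g ∈ Gs, w g * (X g - m * V) ^ 2 = ∑ g ∈ Gs, w g * X g ^ 2 - 2 * (m * V) * ∑ g ∈ Gs, w g * X g + (m * V) ^ 2 := by
      have e2 : (m * V) ^ 2 = ∑ g ∈ Gs, w g * (m * V) ^ 2 := by rw [← sum_mul, hw1, one_mul]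
      rw [e2, mul_sum, ← sum_sub_distrib, ← sum_add_distrib]
      apply sum_congr rfl
      intro g _
      ring
    rw [e]
    have h5 : 2 * (m * V) * (m * (V - r)) ≤ 2 * (m * V) * ∑ g ∈ Gs, w g * X g := by
      apply mul_le_mul_of_nonneg_left hS1
      positivity
    have h6 : m * V * (m * r) ≤ m * (m * r) := by
      have : m * V ≤ m := by nlinarith
      apply mul_le_mul_of_nonneg_right this
      positivity
    nlinarith
  refine le_trans ?_ hvar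
  rw [sum_mul]
  apply sum_le_sum
  intro g _
  split_ifs with hg
  · rw [hXc]
    have h7 : δ * (m * V) ≤ m * V - ((S.filter (fun s => P s g)).card : ℝ) := by linarith
    have h8 : 0 ≤ δ * (m * V) := by positivity
    apply mul_le_mul_of_nonneg_left _ (hw g)
    nlinarith
  · rw [zero_mul]
    exact mul_nonneg (hw g) (sq_nonneg _)

end Pool.Agent.N625.PT
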