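import Pool.Agent.N625.PT.X4
import Pool.Agent.N625.PT.E
import Pool.Agent.Y885.WI1

set_option autoImplicit false

/-! Random multiples of a small primorial: sums and differences with the elements of an arbitrary dense set of primes. -/

namespace Pool.Agent.N625.PT
open Finset
open Pool.Agent.Y885 (TLaw tl_dif tl_one)
open Pool.Agent.H373R2.T7 (pz mem_pz Vz Vz_pos Vz_le_one ev_L' lamI lamzI lamz)
open Pool.Agent.Y877.SX (mid Vm mem_mid Vm_pos Vz_split primorial_le_log)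

/-- both signs -/
lemma tl_sgn (b E c : ℕ) (hb : 2 ≤ b) (hE : 1 ≤ E) (U : ℕ) : ∃ B : ℕ, ∀ Ez : ℕ, ∃ K₀ : ℕ, ∀ K : ℕ, K₀ ≤ K →
    ∀ z : ℕ, Real.log ((b ^ K : ℕ) : ℝ) ^ B ≤ z → (z : ℝ) ≤ Real.log ((b ^ K : ℕ) : ℝ) ^ Ez →
    ∀ (Ω : Finset ℕ) (p : ℕ → ℝ) (Y : ℕ → ℤ), TLaw b E c (2 * U + 6) K Ω p Y →
    ∀ N : ℕ, (∀ ω ∈ Ω, (N : ℤ) + |Y ω| + 1 < (b : ℤ) ^ K) → (N : ℤ) + 1 < (b : ℤ) ^ K →
    ∀ G : ℕ → ℝ, (∀ n ∈ Icc 1 N, |G n| ≤ 1) → ∀ σ : ℤ, (σ = 1 ∨ σ = -1) →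
    ∑ ω ∈ Ω, p ω * |∑ n ∈ Icc 1 N, G n * (lamI (Y ω + σ * n) - lamzI z (Y ω + σ * n))| ≤ ((b ^ K : ℕ) : ℝ) / (K : ℝ) ^ U := by
  obtain ⟨B1, h1⟩ := tl_dif b E c hb hE U
  obtain ⟨B2, h2⟩ := tl_one b E c hb hE U
  refine ⟨max B1 B2, fun Ez => ?_⟩
  obtain ⟨k1, h1⟩ := h1 Ez
  obtain ⟨k2, h2⟩ := h2 Ez
  refine ⟨max (max k1 k2) 2, fun K hK z hz1 hz2 Ω p Y hlaw N hY hN G hG σ hσ => ?_⟩
  have hK2 : 2 ≤ K := (le_max_right _ _).trans hK
  have hlog : 1 ≤ Real.log ((b ^ K : ℕ) : ℝ) := by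
    push_cast
    rw [Real.log_pow]
    have g0 : (2 : ℝ) ≤ b := by exact_mod_cast hb
    have g1 := Real.log_le_log (by norm_num) g0
    have g2 := Real.log_two_gt_d9
    have g3 : (2 : ℝ) ≤ K := by exact_mod_cast hK2
    nlinarith
  rcases hσ with rfl | rfl
  · have := h1 K (((le_max_left _ _).trans (le_max_left _ _)).trans hK) z
      ((pow_le_pow_right₀ hlog (le_max_left _ _)).trans hz1) hz2 ℕ Ω p Y hlaw N (by linarith) (by
      intro ω hω
      have q1 := hY ω hω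
      have q2 := le_abs_self (Y ω)
      have q3 := neg_abs_le (Y ω)
      constructor <;> linarith) 1 one_pos G hG
    rw [one_mul] at this
    refine le_trans (le_of_eq ?_) this
    apply sum_congr rfl
    intro ω _
    congr 2
    apply sum_congr rfl
    intro n _
    rw [one_mul, add_comm (n : ℤ)]
  · have := h2 K (((le_max_right _ _).trans (le_max_left _ _)).trans hK) z
      ((pow_le_pow_right₀ hlog (le_max_right _ _)).trans hz1) hz2 ℕ Ω p Y hlaw N hY hN 1 one_pos G hG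
    rw [one_mul] at this
    refine le_trans (le_of_eq ?_) this
    apply sum_congr rfl
    intro ω _
    congr 2
    apply sum_congr rfl
    intro n _
    rw [neg_one_mul, ← sub_eq_add_neg]

/-- the proper prime powers -/
lemma pp_one (N : ℕ) (hN : 1 ≤ N) (S : Finset ℕ) (f : ℕ → ℕ) (hf : Set.InjOn f S) (hf1 : ∀ s ∈ S, 0 < f s ∧ f s ≤ N) :
    ∑ s ∈ S, (if (f s).Prime then (0 : ℝ) else ArithmeticFunction.vonMangoldt (f s)) ≤ 2 * √(N : ℝ) * Real.log N := by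
  have h2 := Chebyshev.psi_sub_theta_le (x := (N : ℝ)) (by exact_mod_cast hN)
  rw [Chebyshev.psi_sub_theta_eq_sum_not_prime, Nat.floor_natCast, sum_filter] at h2
  refine le_trans ?_ h2
  have e1 : ∑ s ∈ S, (if (f s).Prime then (0 : ℝ) else ArithmeticFunction.vonMangoldt (f s)) =
      ∑ n ∈ S.image f, (if ¬ n.Prime then ArithmeticFunction.vonMangoldt n else (0 : ℝ)) := by
    rw [sum_image hf]
    apply sum_congr rfl
    intro s _
    by_cases hp : (f s).Prime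
    · rw [if_pos hp, if_neg (not_not.2 hp)]
    · rw [if_neg hp, if_pos hp]
  rw [e1]
  apply sum_le_sum_of_subset_of_nonneg
  · intro n hn
    rw [mem_image] at hn
    obtain ⟨s, hs, rfl⟩ := hn
    rw [mem_Ioc]
    exact hf1 s hs
  · intro n _ _
    split_ifs
    · exact le_rfl
    · exact ArithmeticFunction.vonMangoldt_nonneg

lemma dvd_dist (q s t : ℕ) (h : (q : ℤ) ∣ (s : ℤ) - t) : q ∣ Nat.dist s t := by
  rcases le_total s t with hst | hst
  · rw [Nat.dist_eq_sub_of_le hst]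
    rw [← Int.natCast_dvd_natCast, Nat.cast_sub hst]
    rw [← neg_sub] at h
    exact (dvd_neg.1 h)
  · rw [Nat.dist_eq_sub_of_le_right hst]
    rw [← Int.natCast_dvd_natCast, Nat.cast_sub hst]
    exact h

/-- the model at the elements free of small primes -/
lemma lamz_free (y z : ℕ) (P : Finset ℕ) (hP : P ⊆ mid y z) (Y : ℤ) (s : ℕ) (σ : ℤ) (hσ : σ = 1 ∨ σ = -1)
    (hs : s.Prime) (hzs : z < s) (hY : ∀ q : ℕ, q.Prime → q ≤ z → q ∉ P → (q : ℤ) ∣ Y) (hpos : 0 < Y + σ * s) :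
    lamzI z (Y + σ * s) = if ∀ q ∈ P, ¬ (q : ℤ) ∣ Y + σ * s then (Vz z)⁻¹ else 0 := by
  unfold lamzI
  rw [if_pos (by omega)]
  unfold lamz
  have e1 : (((Y + σ * s).toNat : ℕ) : ℤ) = Y + σ * s := Int.toNat_of_nonneg hpos.le
  have h1 : (∀ q ∈ pz z, ¬ q ∣ (Y + σ * s).toNat) ↔ (∀ q ∈ P, ¬ (q : ℤ) ∣ Y + σ * s) := by
    constructor
    · intro h q hq hd
      apply h q (mem_pz.2 (mem_mid.1 (hP hq)).2)
      rw [← Int.natCast_dvd_natCast, e1]
      exact hd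
    · intro h q hq hd
      rw [mem_pz] at hq
      rw [← Int.natCast_dvd_natCast, e1] at hd
      by_cases hqP : q ∈ P
      · exact h q hqP hd
      · have h2 := hY q hq.2 hq.1 hqP
        have h3 : (q : ℤ) ∣ σ * s := (dvd_add_right h2).1 hd
        have h4 : (q : ℤ) ∣ (s : ℤ) := by
          rcases hσ with rfl | rfl
          · rwa [one_mul] at h3
          · rw [neg_one_mul] at h3
            exact dvd_neg.1 h3
        have h5 : q ∣ s := by exact_mod_cast h4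
        have h6 := (Nat.prime_dvd_prime_iff_eq hq.2 hs).1 h5
        omega
  by_cases h : ∀ q ∈ P, ¬ (q : ℤ) ∣ Y + σ * s
  · rw [if_pos h, if_pos (h1.2 h)]
  · rw [if_neg h, if_neg (fun h2 => h (h1.1 h2))]

end Pool.Agent.N625.PT
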