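import Pool.Agent.N625.PT.X6

set_option autoImplicit false

/-! Random multiples of a small primorial: sums, shifts of indices, pairs of shifts. -/

namespace Pool.Agent.N625.PT
open Finset
open Pool.Agent.H373R2.T7 (pz mem_pz Vz Vz_pos Vz_le_one ev_L')

lemma log_X (b C : ℕ) (hb : 2 ≤ b) : ∃ k₀ : ℕ, ∀ k : ℕ, k₀ ≤ k → ∀ X : ℕ, X ≤ b ^ k * k ^ C → Real.log X ≤ (k : ℝ) ^ 2 := by
  obtain ⟨k1, hk1⟩ := exists_nat_ge (Real.log b + C)
  refine ⟨max k1 1, fun k hk X hX => ?_⟩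
  have b1 : Real.log b + C ≤ k := hk1.trans (by exact_mod_cast (le_max_left _ _).trans hk)
  have b2 : 1 ≤ k := (le_max_right _ _).trans hk
  have hkr : (1 : ℝ) ≤ k := by exact_mod_cast b2
  have hk0 : (0 : ℝ) < k := by linarith
  have hb0 : (0 : ℝ) < b := by exact_mod_cast (by omega : 0 < b)
  rcases Nat.eq_zero_or_pos X with h | h
  · rw [h]
    simp only [Nat.cast_zero, Real.log_zero]
    positivity
  · have h1 : (X : ℝ) ≤ (b : ℝ) ^ k * (k : ℝ) ^ C := by exact_mod_cast hX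
    have h2 := Real.log_le_log (by exact_mod_cast h) h1
    rw [Real.log_mul (by positivity) (by positivity), Real.log_pow, Real.log_pow] at h2
    have h3 : Real.log k ≤ k := (Real.log_le_sub_one_of_pos hk0).trans (by linarith)
    have h4 : (C : ℝ) * Real.log k ≤ C * k := mul_le_mul_of_nonneg_left h3 (Nat.cast_nonneg _)
    calc Real.log X ≤ k * Real.log b + C * k := by linarith
      _ = (Real.log b + C) * k := by ring
      _ ≤ k * k := mul_le_mul_of_nonneg_right b1 hk0.le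
      _ = _ := (sq _).symm

open Classical in
/-- sums with one summand in an arbitrary dense set of primes -/
theorem dense_sum (b L : ℕ) (hb : 2 ≤ b) (hL : 1 ≤ L) (η : ℝ) (hη0 : 0 < η) (hη1 : η ≤ 1) (κ : ℤ) (hκ : κ ≠ 0)
    (T B J A C : ℕ) (ε : ℝ) (hε : 0 < ε) (hε1 : ε ≤ 1) : ∃ K₀ : ℕ, ∀ K₁ : ℕ, ∃ k₀ : ℕ, ∀ k : ℕ, k₀ ≤ k →
    ∀ p, Flex b L η T k p → ∀ y : ℕ, K₀ * Real.log k ≤ y → y ≤ K₁ * Real.log k → ∀ c : ℤ, |c| ≤ B * (b : ℤ) ^ k →
    ∀ h : ℕ, 1 ≤ h → h ≤ k ^ J → ∀ X : ℕ, b ^ k ≤ X * k ^ C → X ≤ b ^ k * k ^ C →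
    ∀ S : Finset ℕ, S ⊆ Icc 1 X → (∀ s ∈ S, s.Prime) → (X : ℝ) ≤ S.card * (k : ℝ) ^ A →
    ∑ v ∈ range (b ^ k), (if (X : ℤ) < ((primorial y * h : ℕ) : ℤ) * (c + κ * (v : ℕ)) ∧
      ((S.filter (fun s => (((primorial y * h : ℕ) : ℤ) * (c + κ * (v : ℕ)) - (s : ℕ)).toNat.Prime)).card : ℝ) <
      (1 - ε) * (S.card / (Vz y * (k * Real.log b))) then p v else 0) ≤ ε := by
  obtain ⟨K₀, h0⟩ := dense_law b L hb hL η hη0 hη1 κ hκ T B J A C ε hε hε1
  refine ⟨K₀, fun K₁ => ?_⟩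
  obtain ⟨k₀, h0⟩ := h0 K₁
  refine ⟨k₀, fun k hk p hp y hy1 hy2 c hc h hh1 hhJ X hX1 hX2 S hS hSp hSA => ?_⟩
  refine le_trans (sum_le_sum fun v _ => ?_) (h0 k hk p hp y hy1 hy2 c hc h hh1 hhJ X hX1 hX2 S hS hSp hSA (-1) (Or.inr rfl))
  have hpv := hp.nonneg v
  by_cases hc : (X : ℤ) < ((primorial y * h : ℕ) : ℤ) * (c + κ * (v : ℕ)) ∧
      ((S.filter (fun s => (((primorial y * h : ℕ) : ℤ) * (c + κ * (v : ℕ)) - (s : ℕ)).toNat.Prime)).card : ℝ) <
      (1 - ε) * (S.card / (Vz y * (k * Real.log b)))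
  · rw [if_pos hc, if_pos]
    obtain ⟨h1, h2⟩ := hc
    refine ⟨fun s hs => ?_, ?_⟩
    · have := (mem_Icc.1 (hS hs)).2
      have h3 : (s : ℤ) ≤ X := by exact_mod_cast this
      rw [neg_one_mul]
      linarith
    · simp_rw [neg_one_mul, ← sub_eq_add_neg]
      exact h2
  · rw [if_neg hc]
    split_ifs
    · exact hpv
    · exact le_rfl

open Classical in
/-- shifts of the values of an injective function of the indices -/
theorem dense_shift (b L : ℕ) (hb : 2 ≤ b) (hL : 1 ≤ L) (η : ℝ) (hη0 : 0 < η) (hη1 : η ≤ 1) (κ : ℤ) (hκ : κ ≠ 0)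
    (T B J A C : ℕ) (ε : ℝ) (hε : 0 < ε) (hε1 : ε ≤ 1) : ∃ K₀ : ℕ, ∀ K₁ : ℕ, ∃ k₀ : ℕ, ∀ k : ℕ, k₀ ≤ k →
    ∀ p, Flex b L η T k p → ∀ y : ℕ, K₀ * Real.log k ≤ y → y ≤ K₁ * Real.log k → ∀ c : ℤ, |c| ≤ B * (b : ℤ) ^ k →
    ∀ h : ℕ, 1 ≤ h → h ≤ k ^ J → ∀ X : ℕ, b ^ k ≤ X * k ^ C → X ≤ b ^ k * k ^ C →
    ∀ (I : Finset ℕ) (f : ℕ → ℕ), Set.InjOn f I → (∀ i ∈ I, (f i).Prime ∧ f i ≤ X) → (X : ℝ) ≤ I.card * (k : ℝ) ^ A →
    ∑ v ∈ range (b ^ k), (if 0 ≤ ((primorial y * h : ℕ) : ℤ) * (c + κ * (v : ℕ)) ∧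
      ((I.filter (fun i => (f i + (((primorial y * h : ℕ) : ℤ) * (c + κ * (v : ℕ))).toNat).Prime)).card : ℝ) <
      (1 - ε) * (I.card / (Vz y * (k * Real.log b))) then p v else 0) ≤ ε := by
  obtain ⟨K₀, h0⟩ := dense_law b L hb hL η hη0 hη1 κ hκ T B J A C ε hε hε1
  refine ⟨K₀, fun K₁ => ?_⟩
  obtain ⟨k₀, h0⟩ := h0 K₁
  refine ⟨k₀, fun k hk p hp y hy1 hy2 c hc h hh1 hhJ X hX1 hX2 I f hinj hf hIA => ?_⟩
  have hcI : (I.image f).card = I.card := card_image_of_injOn hinj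
  refine le_trans (sum_le_sum fun v _ => ?_) (h0 k hk p hp y hy1 hy2 c hc h hh1 hhJ X hX1 hX2 (I.image f) (by
    intro s hs
    rw [mem_image] at hs
    obtain ⟨i, hi, rfl⟩ := hs
    rw [mem_Icc]
    exact ⟨(hf i hi).1.one_lt.le, (hf i hi).2⟩) (by
    intro s hs
    rw [mem_image] at hs
    obtain ⟨i, hi, rfl⟩ := hs
    exact (hf i hi).1) (by rw [hcI]; exact hIA) 1 (Or.inl rfl))
  have hpv := hp.nonneg v
  by_cases hc : 0 ≤ ((primorial y * h : ℕ) : ℤ) * (c + κ * (v : ℕ)) ∧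
      ((I.filter (fun i => (f i + (((primorial y * h : ℕ) : ℤ) * (c + κ * (v : ℕ))).toNat).Prime)).card : ℝ) <
      (1 - ε) * (I.card / (Vz y * (k * Real.log b)))
  · rw [if_pos hc, if_pos]
    obtain ⟨h1, h2⟩ := hc
    refine ⟨fun s hs => ?_, ?_⟩
    · rw [mem_image] at hs
      obtain ⟨i, hi, rfl⟩ := hs
      have h3 : (0 : ℤ) < (f i : ℕ) := by exact_mod_cast (hf i hi).1.pos
      rw [one_mul]
      linarith
    · rw [hcI]
      refine lt_of_le_of_lt ?_ h2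
      have h4 : (I.image f).filter (fun s => (((primorial y * h : ℕ) : ℤ) * (c + κ * (v : ℕ)) + 1 * (s : ℕ)).toNat.Prime) ⊆
          (I.filter (fun i => (f i + (((primorial y * h : ℕ) : ℤ) * (c + κ * (v : ℕ))).toNat).Prime)).image f := by
        intro s hs
        rw [mem_filter, mem_image] at hs
        obtain ⟨⟨i, hi, rfl⟩, hp⟩ := hs
        rw [mem_image]
        refine ⟨i, ?_, rfl⟩
        rw [mem_filter]
        refine ⟨hi, ?_⟩
        have h5 : (((primorial y * h : ℕ) : ℤ) * (c + κ * (v : ℕ)) + 1 * (f i : ℕ)).toNat =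
            f i + (((primorial y * h : ℕ) : ℤ) * (c + κ * (v : ℕ))).toNat := by
          omega
        rw [h5] at hp
        exact hp
      exact_mod_cast (card_le_card h4).trans card_image_le
  · rw [if_neg hc]
    split_ifs
    · exact hpv
    · exact le_rfl

open Classical in
/-- pairs of shifts -/
theorem dense_pair (b L : ℕ) (hb : 2 ≤ b) (hL : 1 ≤ L) (η : ℝ) (hη0 : 0 < η) (hη1 : η ≤ 1) (κ : ℤ) (hκ : κ ≠ 0)
    (T B J A C : ℕ) (ε : ℝ) (hε : 0 < ε) (hε1 : ε ≤ 1) : ∃ K₀ : ℕ, ∀ K₁ : ℕ, ∃ k₀ : ℕ, ∀ k : ℕ, k₀ ≤ k →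
    ∀ p p', Flex b L η T k p → Flex b L η T k p' → ∀ y : ℕ, K₀ * Real.log k ≤ y → y ≤ K₁ * Real.log k →
    ∀ c c' : ℤ, |c| ≤ B * (b : ℤ) ^ k → |c'| ≤ B * (b : ℤ) ^ k →
    ∀ h h' : ℕ, 1 ≤ h → h ≤ k ^ J → 1 ≤ h' → h' ≤ k ^ J → ∀ X : ℕ, b ^ k ≤ X * k ^ C → X ≤ b ^ k * k ^ C →
    ∀ (I : Finset ℕ) (f f' : ℕ → ℕ), Set.InjOn f I → (∀ i ∈ I, (f i).Prime ∧ f i ≤ X) →
    Set.InjOn f' I → (∀ i ∈ I, (f' i).Prime ∧ f' i ≤ X) → (X : ℝ) ≤ I.card * (k : ℝ) ^ A →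
    ∑ v ∈ range (b ^ k), ∑ v' ∈ range (b ^ k), (if 0 ≤ ((primorial y * h : ℕ) : ℤ) * (c + κ * (v : ℕ)) ∧
      0 ≤ ((primorial y * h' : ℕ) : ℤ) * (c' + κ * (v' : ℕ)) ∧
      ((I.filter (fun i => (f i + (((primorial y * h : ℕ) : ℤ) * (c + κ * (v : ℕ))).toNat).Prime ∧
        (f' i + (((primorial y * h' : ℕ) : ℤ) * (c' + κ * (v' : ℕ))).toNat).Prime)).card : ℝ) <
      (1 - ε) * (I.card / (Vz y * (k * Real.log b)) ^ 2) then p v * p' v' else 0) ≤ ε := by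
  obtain ⟨δ, hδ⟩ : ∃ δ, δ = ε / 2 := ⟨_, rfl⟩
  have hδ0 : 0 < δ := by rw [hδ]; positivity
  have hδ1 : δ ≤ 1 / 2 := by rw [hδ]; linarith
  obtain ⟨Ka, h1⟩ := dense_shift b L hb hL η hη0 hη1 κ hκ T B J A C δ hδ0 (by linarith)
  obtain ⟨Kb, h2⟩ := dense_shift b L hb hL η hη0 hη1 κ hκ T B J (A + 2) C δ hδ0 (by linarith)
  refine ⟨max Ka Kb, fun K₁ => ?_⟩
  obtain ⟨k1, h1⟩ := h1 K₁
  obtain ⟨k2, h2⟩ := h2 K₁
  obtain ⟨k3, hk3⟩ := exists_nat_ge (2 * Real.log b)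
  refine ⟨max (max k1 k2) (max k3 1), fun k hk p p' hp hp' y hy1 hy2 c c' hc hc' h h' hh1 hhJ hh1' hhJ' X hX1 hX2 I f f' hinj hf hinj' hf' hIA => ?_⟩
  have b1 : k1 ≤ k := by omega
  have b2 : k2 ≤ k := by omega
  have b3 : 2 * Real.log b ≤ k := hk3.trans (by exact_mod_cast (by omega : k3 ≤ k))
  have b4 : 1 ≤ k := by omega
  have hkr : (1 : ℝ) ≤ k := by exact_mod_cast b4
  have hk0 : (0 : ℝ) < k := by linarith
  have hlk : 0 ≤ Real.log k := Real.log_nonneg hkr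
  have hbr : (2 : ℝ) ≤ b := by exact_mod_cast hb
  have hlogb : 0 < Real.log b := Real.log_pos (by linarith)
  have hya : Ka * Real.log k ≤ y := le_trans (mul_le_mul_of_nonneg_right (by exact_mod_cast le_max_left _ _) hlk) hy1
  have hyb : Kb * Real.log k ≤ y := le_trans (mul_le_mul_of_nonneg_right (by exact_mod_cast le_max_right _ _) hlk) hy1
  have hVy := Vz_pos y
  have hVy1 := Vz_le_one y
  obtain ⟨D, hD⟩ : ∃ D, D = Vz y * (k * Real.log b) := ⟨_, rfl⟩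
  have hD0 : 0 < D := by rw [hD]; positivity
  have hDk : 2 * D ≤ (k : ℝ) ^ 2 := by
    rw [hD]
    have : Vz y * (k * Real.log b) ≤ 1 * (k * Real.log b) := mul_le_mul_of_nonneg_right hVy1 (by positivity)
    nlinarith
  have k1' := h1 k b1 p hp y hya hy2 c hc h hh1 hhJ X hX1 hX2 I f hinj hf hIA
  rw [← hD] at k1' ⊢
  obtain ⟨n, hn⟩ : ∃ n : ℝ, n = I.card := ⟨_, rfl⟩
  have hn0 : 0 ≤ n := by rw [hn]; exact Nat.cast_nonneg _
  rw [← hn] at k1' hIA ⊢
  obtain ⟨Q1, hQ1⟩ : ∃ Q1 : ℕ → Prop, ∀ v, Q1 v ↔ (0 ≤ ((primorial y * h : ℕ) : ℤ) * (c + κ * (v : ℕ)) ∧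
      ((I.filter (fun i => (f i + (((primorial y * h : ℕ) : ℤ) * (c + κ * (v : ℕ))).toNat).Prime)).card : ℝ) <
      (1 - δ) * (n / D)) := ⟨_, fun _ => Iff.rfl⟩
  have s1 : ∑ v ∈ range (b ^ k), (if Q1 v then p v else 0) ≤ δ := by
    refine le_trans (le_of_eq ?_) k1'
    apply sum_congr rfl
    intro v _
    by_cases hq : Q1 v
    · rw [if_pos hq, if_pos ((hQ1 v).1 hq)]
    · rw [if_neg hq, if_neg (fun h => hq ((hQ1 v).2 h))]
  have hsum' := hp'.sum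
  have key : ∀ v ∈ range (b ^ k), ∑ v' ∈ range (b ^ k), (if 0 ≤ ((primorial y * h : ℕ) : ℤ) * (c + κ * (v : ℕ)) ∧
      0 ≤ ((primorial y * h' : ℕ) : ℤ) * (c' + κ * (v' : ℕ)) ∧
      ((I.filter (fun i => (f i + (((primorial y * h : ℕ) : ℤ) * (c + κ * (v : ℕ))).toNat).Prime ∧
        (f' i + (((primorial y * h' : ℕ) : ℤ) * (c' + κ * (v' : ℕ))).toNat).Prime)).card : ℝ) <
      (1 - ε) * (n / D ^ 2) then p v * p' v' else 0) ≤ (if Q1 v then p v else 0) + p v * δ := by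
    intro v _
    have hpv := hp.nonneg v
    by_cases hv0 : 0 ≤ ((primorial y * h : ℕ) : ℤ) * (c + κ * (v : ℕ))
    · by_cases hq : Q1 v
      · rw [if_pos hq]
        have g1 : ∑ v' ∈ range (b ^ k), (if 0 ≤ ((primorial y * h : ℕ) : ℤ) * (c + κ * (v : ℕ)) ∧
          0 ≤ ((primorial y * h' : ℕ) : ℤ) * (c' + κ * (v' : ℕ)) ∧
          ((I.filter (fun i => (f i + (((primorial y * h : ℕ) : ℤ) * (c + κ * (v : ℕ))).toNat).Prime ∧
            (f' i + (((primorial y * h' : ℕ) : ℤ) * (c' + κ * (v' : ℕ))).toNat).Prime)).card : ℝ) <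
          (1 - ε) * (n / D ^ 2) then p v * p' v' else 0) ≤ ∑ v' ∈ range (b ^ k), p v * p' v' := by
          apply sum_le_sum
          intro v' _
          split_ifs
          · exact le_rfl
          · exact mul_nonneg hpv (hp'.nonneg v')
        rw [← mul_sum, hsum', mul_one] at g1
        have g2 : 0 ≤ p v * δ := by positivity
        linarith
      · rw [if_neg hq, zero_add]
        obtain ⟨I', hI'⟩ : ∃ I', I' = I.filter (fun i => (f i + (((primorial y * h : ℕ) : ℤ) * (c + κ * (v : ℕ))).toNat).Prime) := ⟨_, rfl⟩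
        have hsub : I' ⊆ I := by rw [hI']; exact filter_subset _ _
        have hI'c : (1 - δ) * (n / D) ≤ I'.card := by
          by_contra hcon
          push Not at hcon
          apply hq
          rw [hQ1]
          refine ⟨hv0, ?_⟩
          rw [← hI']
          exact hcon
        have hI'A : (X : ℝ) ≤ I'.card * (k : ℝ) ^ (A + 2) := by
          have g1 : n ≤ I'.card * (k : ℝ) ^ 2 := by
            have g2 : 1 / 2 * (n / D) ≤ (1 - δ) * (n / D) := mul_le_mul_of_nonneg_right (by linarith) (by positivity)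
            have g3 : n / D ≤ 2 * I'.card := by linarith
            rw [div_le_iff₀ hD0] at g3
            have g4 : (I'.card : ℝ) * (2 * D) ≤ I'.card * (k : ℝ) ^ 2 := mul_le_mul_of_nonneg_left hDk (Nat.cast_nonneg _)
            linarith
          calc (X : ℝ) ≤ n * (k : ℝ) ^ A := hIA
            _ ≤ (I'.card * (k : ℝ) ^ 2) * (k : ℝ) ^ A := mul_le_mul_of_nonneg_right g1 (by positivity)
            _ = _ := by rw [pow_add]; ring
        have k2' := h2 k b2 p' hp' y hyb hy2 c' hc' h' hh1' hhJ' X hX1 hX2 I' f' (hinj'.mono (by exact_mod_cast hsub))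
          (fun i hi => hf' i (hsub hi)) hI'A
        rw [← hD] at k2'
        refine le_trans ?_ (mul_le_mul_of_nonneg_left k2' hpv)
        rw [mul_sum]
        apply sum_le_sum
        intro v' _
        by_cases hc2 : 0 ≤ ((primorial y * h : ℕ) : ℤ) * (c + κ * (v : ℕ)) ∧
          0 ≤ ((primorial y * h' : ℕ) : ℤ) * (c' + κ * (v' : ℕ)) ∧
          ((I.filter (fun i => (f i + (((primorial y * h : ℕ) : ℤ) * (c + κ * (v : ℕ))).toNat).Prime ∧
            (f' i + (((primorial y * h' : ℕ) : ℤ) * (c' + κ * (v' : ℕ))).toNat).Prime)).card : ℝ) <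
          (1 - ε) * (n / D ^ 2)
        · rw [if_pos hc2, if_pos]
          obtain ⟨_, g2, g3⟩ := hc2
          refine ⟨g2, ?_⟩
          have e1 : I.filter (fun i => (f i + (((primorial y * h : ℕ) : ℤ) * (c + κ * (v : ℕ))).toNat).Prime ∧
            (f' i + (((primorial y * h' : ℕ) : ℤ) * (c' + κ * (v' : ℕ))).toNat).Prime) =
            I'.filter (fun i => (f' i + (((primorial y * h' : ℕ) : ℤ) * (c' + κ * (v' : ℕ))).toNat).Prime) := by
            rw [hI', filter_filter]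
          rw [e1] at g3
          refine lt_of_lt_of_le g3 ?_
          have g4 : (1 - ε) * (n / D ^ 2) ≤ (1 - δ) * (((1 - δ) * (n / D)) / D) := by
            have e2 : (1 - δ) * (((1 - δ) * (n / D)) / D) = (1 - δ) ^ 2 * (n / D ^ 2) := by
              field_simp
            rw [e2]
            apply mul_le_mul_of_nonneg_right _ (by positivity)
            rw [hδ]
            nlinarith
          refine g4.trans ?_
          apply mul_le_mul_of_nonneg_left _ (by linarith)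
          exact div_le_div_of_nonneg_right hI'c hD0.le
        · rw [if_neg hc2]
          split_ifs
          · exact mul_nonneg hpv (hp'.nonneg v')
          · rw [mul_zero]
    · rw [sum_eq_zero]
      · have : 0 ≤ (if Q1 v then p v else 0) := by
          split_ifs
          · exact hpv
          · exact le_rfl
        positivity
      · intro v' _
        rw [if_neg]
        intro hcon
        exact hv0 hcon.1
  refine (sum_le_sum key).trans ?_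
  rw [sum_add_distrib, ← sum_mul, hp.sum, one_mul]
  rw [hδ] at s1 ⊢
  linarith

end Pool.Agent.N625.PT
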