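import Pool.Agent.N625.PT.X7
import Pool.Agent.R518.B.IPr

set_option autoImplicit false

/-! Random multiples of a small primorial: the iterated prime-indexed primes are a dense set. -/

namespace Pool.Agent.N625.PT
open Finset
open Pool.Agent.R518.IP (ip IPs ip_prime IPs_low)

lemma X_large (b C : ℕ) (hb : 2 ≤ b) : ∃ k₀ : ℕ, ∀ k : ℕ, k₀ ≤ k → ∀ X : ℕ, b ^ k ≤ X * k ^ C → k ≤ X := by
  obtain ⟨k1, h1⟩ := pow_le_pow_digits b hb (C + 1)
  refine ⟨max k1 1, fun k hk X hX => ?_⟩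
  have b1 := h1 k ((le_max_left _ _).trans hk)
  have b2 : 1 ≤ k := (le_max_right _ _).trans hk
  have h2 : k * k ^ C ≤ X * k ^ C := by
    calc k * k ^ C = k ^ (C + 1) := by rw [pow_succ]; ring
      _ ≤ X * k ^ C := b1.trans hX
  exact Nat.le_of_mul_le_mul_right h2 (by positivity)

lemma ip_dense (b C a : ℕ) (hb : 2 ≤ b) : ∃ k₀ : ℕ, ∀ k : ℕ, k₀ ≤ k → ∀ X : ℕ, b ^ k ≤ X * k ^ C → X ≤ b ^ k * k ^ C →
    (X : ℝ) ≤ (IPs a X).card * (k : ℝ) ^ (2 * (a + 1) + 1) := by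
  obtain ⟨c, hc, x0, hx0⟩ := IPs_low a
  obtain ⟨k1, h1⟩ := X_large b C hb
  obtain ⟨k2, h2⟩ := log_X b C hb
  obtain ⟨k3, h3⟩ := exists_nat_ge (1 / c)
  refine ⟨max (max k1 k2) (max k3 (max x0 1)), fun k hk X hX1 hX2 => ?_⟩
  have b1 := h1 k (by omega) X hX1
  have b2 := h2 k (by omega) X hX2
  have b3 : 1 / c ≤ k := h3.trans (by exact_mod_cast (by omega : k3 ≤ k))
  have b4 := hx0 X (by omega)
  have b5 : 1 ≤ k := by omega
  have hkr : (1 : ℝ) ≤ k := by exact_mod_cast b5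
  have hlX : 0 ≤ Real.log X := Real.log_natCast_nonneg X
  rw [div_le_iff₀ hc] at b3
  calc (X : ℝ) ≤ (k * c) * X := by
        have : (0 : ℝ) ≤ X := Nat.cast_nonneg _
        nlinarith
    _ = k * (c * X) := by ring
    _ ≤ k * ((IPs a X).card * Real.log X ^ (a + 1)) := mul_le_mul_of_nonneg_left b4 (by linarith)
    _ ≤ k * ((IPs a X).card * ((k : ℝ) ^ 2) ^ (a + 1)) := by
        apply mul_le_mul_of_nonneg_left _ (by linarith)
        apply mul_le_mul_of_nonneg_left _ (Nat.cast_nonneg _)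
        exact pow_le_pow_left₀ hlX b2 _
    _ = _ := by rw [← pow_mul, pow_succ]; ring

open Classical in
lemma IPs_prime (a X : ℕ) : ∀ s ∈ IPs a X, s.Prime := by
  intro u hu
  unfold IPs at hu
  rw [mem_filter] at hu
  obtain ⟨i, _, hi⟩ := hu.2
  rw [← hi]
  exact ip_prime a i

open Classical in
lemma IPs_sub (a X : ℕ) : IPs a X ⊆ Icc 1 X := by
  unfold IPs
  exact filter_subset _ _

lemma PP_dense (b C : ℕ) (hb : 2 ≤ b) : ∃ k₀ : ℕ, ∀ k : ℕ, k₀ ≤ k → ∀ X : ℕ, b ^ k ≤ X * k ^ C → X ≤ b ^ k * k ^ C →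
    (X : ℝ) / (8 * Real.log X ^ 2) ≤ ((Pool.Agent.Y877.SX.PPi X).card : ℝ) ∧
    (X : ℝ) ≤ (Pool.Agent.Y877.SX.PPi X).card * (k : ℝ) ^ 5 := by
  obtain ⟨x0, hx0⟩ := Pool.Agent.Y877.SX.PPi_low
  obtain ⟨k1, h1⟩ := X_large b C hb
  obtain ⟨k2, h2⟩ := log_X b C hb
  refine ⟨max (max k1 k2) (max x0 8), fun k hk X hX1 hX2 => ?_⟩
  have b1 := h1 k (by omega) X hX1
  have b2 := h2 k (by omega) X hX2
  have b4 := hx0 X (by omega)
  have b5 : 8 ≤ k := by omega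
  have hkr : (8 : ℝ) ≤ k := by exact_mod_cast b5
  have hX8 : 8 ≤ X := b5.trans b1
  have hlX : 0 < Real.log X := Real.log_pos (by exact_mod_cast (by omega : 1 < X))
  refine ⟨b4, ?_⟩
  rw [div_le_iff₀ (by positivity)] at b4
  refine b4.trans ?_
  apply mul_le_mul_of_nonneg_left _ (Nat.cast_nonneg _)
  calc 8 * Real.log X ^ 2 ≤ k * ((k : ℝ) ^ 2) ^ 2 := mul_le_mul hkr (pow_le_pow_left₀ hlX.le b2 2) (by positivity) (by linarith)
    _ = _ := by ring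

end Pool.Agent.N625.PT
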