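import Pool.Agent.N625.PT.X8

set_option autoImplicit false

/-! Higher moments of the arithmetic weight of differences and sums. -/

namespace Pool.Agent.N625.PT
open Finset
open Pool.Agent.H373R2.T7 (pz mem_pz Vz Vz_pos Vz_le_one)
open Pool.Agent.Y877.SX (mid Vm fd mem_mid fac_pos fac_le Vm_pos fd_one fd_one' fac_inv_one sum_prod_le dist_sum_le)

/-- the constant of the moments of order `r y` -/
noncomputable def Cr (r : ℕ) : ℝ := Real.exp (2 * r * Real.exp (2 * r))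

lemma Cr_pos (r : ℕ) : 0 < Cr r := Real.exp_pos _

lemma inv_exp (p : ℕ) (hp : p.Prime) : (1 - 1 / (p : ℝ))⁻¹ ≤ Real.exp (2 / p) := by
  have h2 : (2 : ℝ) ≤ p := by exact_mod_cast hp.two_le
  have hp0 : (0 : ℝ) < p := by linarith
  have h1 : (1 - 1 / (p : ℝ))⁻¹ ≤ 2 / p + 1 := by
    rw [inv_le_iff_one_le_mul₀ (fac_pos hp)]
    have e : (2 / (p : ℝ) + 1) * (1 - 1 / p) = 1 + (p - 2) / p ^ 2 := by
      field_simp
      ring
    rw [e]
    have : 0 ≤ ((p : ℝ) - 2) / p ^ 2 := div_nonneg (by linarith) (by positivity)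
    linarith
  exact h1.trans (Real.add_one_le_exp _)

lemma fd_momentR (r y z k N : ℕ) (hy : 1 ≤ y) (hk : k ≤ r * y) : ∑ d ∈ Icc 1 N, fd y z d ^ k ≤ Cr r * N := by
  have hy1 : (1 : ℝ) ≤ y := by exact_mod_cast hy
  have hkr : (k : ℝ) ≤ r * y := by exact_mod_cast hk
  have hE : 0 < Real.exp (2 * r) := Real.exp_pos _
  have h1 : ∀ d ∈ Icc 1 N, fd y z d ^ k ≤ ∏ p ∈ mid y z, (1 + if p ∣ d then 2 * (k : ℝ) * Real.exp (2 * r) / p else 0) := by
    intro d _
    unfold fd
    rw [← prod_pow, prod_filter]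
    apply prod_le_prod
    · intro p hp
      split_ifs
      · exact pow_nonneg (zero_le_one.trans (fac_inv_one (mem_mid.1 hp).2.2)) _
      · exact zero_le_one
    · intro p hp
      split_ifs
      · have hpp := (mem_mid.1 hp).2.2
        have hyp : (y : ℝ) < p := by exact_mod_cast (mem_mid.1 hp).1
        have hp0 : (0 : ℝ) < p := by linarith
        obtain ⟨u, hu⟩ : ∃ u : ℝ, u = 2 * k / p := ⟨_, rfl⟩
        have hu0 : 0 ≤ u := by rw [hu]; positivity
        have hu1 : u ≤ 2 * r := by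
          rw [hu, div_le_iff₀ hp0]
          have h5 : (r : ℝ) * y ≤ r * p := mul_le_mul_of_nonneg_left hyp.le (Nat.cast_nonneg _)
          linarith
        have h2 : ((1 - 1 / (p : ℝ))⁻¹) ^ k ≤ Real.exp u := by
          have h3 := pow_le_pow_left₀ (zero_le_one.trans (fac_inv_one hpp)) (inv_exp p hpp) k
          rw [← Real.exp_nat_mul] at h3
          refine h3.trans (le_of_eq ?_)
          rw [hu]
          congr 1
          ring
        have h4 : Real.exp u ≤ 1 + u * Real.exp u := by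
          have h5 := Real.add_one_le_exp (-u)
          have h6 : Real.exp u * Real.exp (-u) = 1 := by rw [← Real.exp_add]; simp
          have h7 : 0 < Real.exp u := Real.exp_pos _
          nlinarith
        have h5 : Real.exp u ≤ Real.exp (2 * r) := Real.exp_le_exp.2 hu1
        refine h2.trans (h4.trans ?_)
        have h6 : u * Real.exp u ≤ u * Real.exp (2 * r) := mul_le_mul_of_nonneg_left h5 hu0
        have h7 : u * Real.exp (2 * r) = 2 * (k : ℝ) * Real.exp (2 * r) / p := by rw [hu]; ring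
        linarith
      · simp
  refine (sum_le_sum h1).trans ?_
  refine (sum_prod_le (mid y z) (fun p hp => (mem_mid.1 hp).2.2) (fun p => 2 * (k : ℝ) * Real.exp (2 * r) / p) (fun p => by positivity) N).trans ?_
  rw [mul_comm (Cr r)]
  apply mul_le_mul_of_nonneg_left _ (Nat.cast_nonneg N)
  have h2 : ∏ p ∈ mid y z, (1 + 2 * (k : ℝ) * Real.exp (2 * r) / p / p) ≤ Real.exp (∑ p ∈ mid y z, 2 * (k : ℝ) * Real.exp (2 * r) / p / p) := by
    rw [Real.exp_sum]
    apply prod_le_prod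
    · intro p _
      positivity
    · intro p _
      rw [add_comm]
      exact Real.add_one_le_exp _
  refine h2.trans ?_
  unfold Cr
  apply Real.exp_le_exp.2
  have h4 : ∑ p ∈ mid y z, 2 * (k : ℝ) * Real.exp (2 * r) / p / p = (2 * k * Real.exp (2 * r)) * ∑ p ∈ mid y z, ((p : ℝ) ^ 2)⁻¹ := by
    rw [mul_sum]
    apply sum_congr rfl
    intro p hp
    have hp0 : (p : ℝ) ≠ 0 := by exact_mod_cast (mem_mid.1 hp).2.2.ne_zero
    field_simp
  rw [h4]
  have h5 : ∑ p ∈ mid y z, ((p : ℝ) ^ 2)⁻¹ ≤ (y : ℝ)⁻¹ := by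
    by_cases hyz : y ≤ z
    · refine (sum_le_sum_of_subset_of_nonneg (t := Ioc y z) (fun p hp => mem_Ioc.2 ⟨(mem_mid.1 hp).1, (mem_mid.1 hp).2.1⟩) (fun _ _ _ => by positivity)).trans ?_
      refine (sum_Ioc_inv_sq_le_sub (by omega) hyz).trans ?_
      have : 0 ≤ (z : ℝ)⁻¹ := by positivity
      linarith
    · have : mid y z = ∅ := by
        apply eq_empty_of_forall_notMem
        intro p hp
        have := mem_mid.1 hp
        omega
      rw [this, sum_empty]
      positivity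
  calc (2 * k * Real.exp (2 * r)) * ∑ p ∈ mid y z, ((p : ℝ) ^ 2)⁻¹ ≤ (2 * k * Real.exp (2 * r)) * (y : ℝ)⁻¹ := by gcongr
    _ ≤ (2 * (r * y) * Real.exp (2 * r)) * (y : ℝ)⁻¹ := by gcongr
    _ = 2 * r * Real.exp (2 * r) := by
        have : (y : ℝ) ≠ 0 := by linarith
        field_simp

lemma FF_momentR (r y z k N : ℕ) (hy : 1 ≤ y) (hk : 2 * k ≤ r * y) (S : Finset ℕ) (hS : S ⊆ Icc 1 N) (s : ℕ) (hs : s ∈ S) :
    ∑ t ∈ S.erase s, Pool.Agent.Y877.SX.FF y z s t ^ k ≤ 2 * Cr r * N := by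
  have h0 : ∑ t ∈ S.erase s, Pool.Agent.Y877.SX.FF y z s t ^ k ≤ ∑ t ∈ (Icc 1 N).erase s, Pool.Agent.Y877.SX.FF y z s t ^ k := by
    apply sum_le_sum_of_subset_of_nonneg (erase_subset_erase _ hS)
    intro t _ _
    exact pow_nonneg (mul_nonneg (fd_one' _ _ _) (fd_one' _ _ _)) _
  have h1 : ∀ t ∈ (Icc 1 N).erase s, Pool.Agent.Y877.SX.FF y z s t ^ k ≤ (fd y z (Nat.dist s t) ^ (2 * k) + fd y z (s + t) ^ (2 * k)) / 2 := by
    intro t _
    unfold Pool.Agent.Y877.SX.FF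
    rw [mul_pow, pow_mul', pow_mul']
    nlinarith [sq_nonneg (fd y z (Nat.dist s t) ^ k - fd y z (s + t) ^ k)]
  have h2 : ∑ t ∈ (Icc 1 N).erase s, fd y z (Nat.dist s t) ^ (2 * k) ≤ 2 * (Cr r * N) :=
    (dist_sum_le N s (hS hs) (fun d => fd y z d ^ (2 * k)) (fun d => pow_nonneg (fd_one' _ _ _) _)).trans
      (mul_le_mul_of_nonneg_left (fd_momentR r y z (2 * k) N hy hk) (by norm_num))
  have h3 : ∑ t ∈ (Icc 1 N).erase s, fd y z (s + t) ^ (2 * k) ≤ Cr r * ((2 * N : ℕ) : ℝ) := by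
    rw [← sum_image (g := fun t => s + t) (f := fun d => fd y z d ^ (2 * k))]
    · refine le_trans ?_ (fd_momentR r y z (2 * k) (2 * N) hy hk)
      apply sum_le_sum_of_subset_of_nonneg _ (fun _ _ _ => pow_nonneg (fd_one' _ _ _) _)
      intro d hd
      rw [mem_image] at hd
      obtain ⟨t, ht, rfl⟩ := hd
      rw [mem_erase, mem_Icc] at ht
      have := mem_Icc.1 (hS hs)
      rw [mem_Icc]
      omega
    · intro a _ b _ hab
      simp only at hab
      omega
  push_cast at h3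
  refine h0.trans ((sum_le_sum h1).trans ?_)
  rw [← sum_div, sum_add_distrib]
  linarith

lemma FF_sumR (r y z n N : ℕ) (hy : 1 ≤ y) (hk : 2 * (n + 1) ≤ r * y) (S : Finset ℕ) (hS : S ⊆ Icc 1 N) (η : ℝ) (hη : 0 < η)
    (hm : 2 * Cr r * (N : ℝ) ≤ (1 + η) ^ (n + 1) * S.card) (s : ℕ) (hs : s ∈ S) :
    ∑ t ∈ S.erase s, Pool.Agent.Y877.SX.FF y z s t ≤ (1 + η) * S.card := by
  have h1 := FF_momentR r y z (n + 1) N hy hk S hS s hs
  have hC := Cr_pos r
  have hFF : ∀ t, 0 ≤ Pool.Agent.Y877.SX.FF y z s t := fun t => mul_nonneg (fd_one' _ _ _) (fd_one' _ _ _)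
  have h3 := pow_sum_div_card_le_sum_pow (s := S.erase s) (f := fun t => Pool.Agent.Y877.SX.FF y z s t) (fun t _ => hFF t) n
  have hm0 : (0 : ℝ) < S.card := by exact_mod_cast card_pos.2 ⟨s, hs⟩
  by_contra hcon
  push Not at hcon
  set T := ∑ t ∈ S.erase s, Pool.Agent.Y877.SX.FF y z s t with hT
  by_cases hc0 : (S.erase s).card = 0
  · rw [card_eq_zero] at hc0
    rw [hc0, sum_empty] at hT
    rw [hT] at hcon
    have : 0 < (1 + η) * S.card := by positivity
    linarith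
  have hc1 : (0 : ℝ) < (S.erase s).card := by exact_mod_cast Nat.pos_of_ne_zero hc0
  have hcle : ((S.erase s).card : ℝ) ≤ S.card := by exact_mod_cast card_le_card (erase_subset _ _)
  have h4 : T ^ (n + 1) ≤ 2 * Cr r * N * (S.card : ℝ) ^ n := by
    rw [div_le_iff₀ (by positivity)] at h3
    refine h3.trans ?_
    have : ((S.erase s).card : ℝ) ^ n ≤ (S.card : ℝ) ^ n := pow_le_pow_left₀ hc1.le hcle n
    calc _ ≤ 2 * Cr r * (N : ℝ) * ((S.erase s).card : ℝ) ^ n := by gcongr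
      _ ≤ _ := by gcongr
  have h5 : ((1 + η) * S.card) ^ (n + 1) < T ^ (n + 1) := pow_lt_pow_left₀ hcon (by positivity) (by omega)
  have h6 : 2 * Cr r * N * (S.card : ℝ) ^ n ≤ ((1 + η) * S.card) ^ (n + 1) := by
    calc 2 * Cr r * N * (S.card : ℝ) ^ n ≤ (1 + η) ^ (n + 1) * S.card * (S.card : ℝ) ^ n := by gcongr
      _ = _ := by rw [mul_pow]; ring
  linarith

end Pool.Agent.N625.PT
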